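import Mathlib

set_option linter.unusedSectionVars false

namespace Pool.Agent.N257.FP

open Finset

variable {α : Type*} [DecidableEq α]

/-- every vertex of `U` has an out-neighbour in `U` -/
def Sup (N : α → Finset α) (U : Finset α) : Prop := ∀ x ∈ U, ∃ y ∈ U, y ∈ N x

/-- two disjoint self-supporting sets containing `u` and `v` respectively -/
def Sep (S : Finset α) (N : α → Finset α) (u v : α) : Prop :=
  ∃ U W : Finset α, U ⊆ S ∧ W ⊆ S ∧ Disjoint U W ∧ u ∈ U ∧ v ∈ W ∧ Sup N U ∧ Sup N W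

/-- the hypotheses of the induction -/
structure Hyp (S : Finset α) (N : α → Finset α) (u v : α) : Prop where
  hu : u ∈ S
  hv : v ∈ S
  huv : u ≠ v
  sub : ∀ x ∈ S, N x ⊆ S
  irr : ∀ x ∈ S, x ∉ N x
  uv : v ∉ N u
  vu : u ∉ N v
  du : 2 ≤ (N u).card
  dv : 2 ≤ (N v).card
  d : ∀ x ∈ S, x ≠ u → x ≠ v → 3 ≤ (N x).card

/-- a smallest counterexample, with exact out-degrees -/
structure Ctx (S : Finset α) (N : α → Finset α) (u v : α) : Prop where
  hu : u ∈ S
  hv : v ∈ S
  huv : u ≠ v
  sub : ∀ x ∈ S, N x ⊆ S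
  irr : ∀ x ∈ S, x ∉ N x
  uv : v ∉ N u
  vu : u ∉ N v
  du : (N u).card = 2
  dv : (N v).card = 2
  d : ∀ x ∈ S, x ≠ u → x ≠ v → (N x).card = 3
  ih : ∀ (S' : Finset α) (N' : α → Finset α) (u' v' : α),
    S'.card < S.card → Hyp S' N' u' v' → Sep S' N' u' v'
  ns : ¬ Sep S N u v

theorem Sep.symm {S : Finset α} {N : α → Finset α} {u v : α} (h : Sep S N u v) :
    Sep S N v u := by
  obtain ⟨U, W, h1, h2, h3, h4, h5, h6, h7⟩ := h
  exact ⟨W, U, h2, h1, h3.symm, h5, h4, h7, h6⟩

theorem Ctx.symm {S : Finset α} {N : α → Finset α} {u v : α} (h : Ctx S N u v) :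
    Ctx S N v u where
  hu := h.hv
  hv := h.hu
  huv := h.huv.symm
  sub := h.sub
  irr := h.irr
  uv := h.vu
  vu := h.uv
  du := h.dv
  dv := h.du
  d := fun x hx h1 h2 => h.d x hx h2 h1
  ih := h.ih
  ns := fun hs => h.ns hs.symm

section

variable {S : Finset α} {N : α → Finset α} {u v : α}

theorem Ctx.two (h : Ctx S N u v) {U W : Finset α} (hU : U ⊆ S) (hW : W ⊆ S)
    (hd : Disjoint U W) (hu : u ∈ U) (hv : v ∈ W) (sU : Sup N U) (sW : Sup N W) : False :=
  h.ns ⟨U, W, hU, hW, hd, hu, hv, sU, sW⟩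

theorem Ctx.compl (h : Ctx S N u v) {U : Finset α} (hU : U ⊆ S)
    (hu : u ∈ U) (hv : v ∉ U) (sU : Sup N U) (sW : Sup N (S \ U)) : False :=
  h.two hU sdiff_subset disjoint_sdiff hu (mem_sdiff.2 ⟨h.hv, hv⟩) sU sW

/-- no digon at a root -/
theorem Ctx.k0 (h : Ctx S N u v) {x : α} (hx : x ∈ N u) : u ∉ N x := by
  intro hux
  have hxS : x ∈ S := h.sub u h.hu hx
  have hxu : x ≠ u := fun e => h.irr u h.hu (e ▸ hx)
  have hxv : x ≠ v := fun e => h.uv (e ▸ hx)
  refine h.compl (U := {u, x}) ?_ (by simp) ?_ ?_ ?_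
  · intro z hz
    simp only [mem_insert, mem_singleton] at hz
    rcases hz with rfl | rfl
    · exact h.hu
    · exact hxS
  · simp only [mem_insert, mem_singleton, not_or]
    exact ⟨h.huv.symm, hxv.symm⟩
  · intro z hz
    simp only [mem_insert, mem_singleton] at hz
    rcases hz with rfl | rfl
    · exact ⟨x, by simp, hx⟩
    · exact ⟨u, by simp, hux⟩
  · intro z hz
    simp only [mem_sdiff, mem_insert, mem_singleton, not_or] at hz
    obtain ⟨hzS, hzu, hzx⟩ := hz
    by_cases hzv : z = v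
    · subst hzv
      obtain ⟨w, hw, hwx⟩ := Finset.exists_mem_notMem_of_card_lt_card
        (s := {x}) (t := N z) (by rw [h.dv]; simp)
      refine ⟨w, ?_, hw⟩
      simp only [mem_sdiff, mem_insert, mem_singleton, not_or]
      refine ⟨h.sub z hzS hw, ?_, by simpa using hwx⟩
      rintro rfl
      exact h.vu hw
    · obtain ⟨w, hw, hwx⟩ := Finset.exists_mem_notMem_of_card_lt_card
        (s := {u, x}) (t := N z) (by
          rw [h.d z hzS hzu hzv]
          exact lt_of_le_of_lt (card_le_two) (by norm_num))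
      exact ⟨w, mem_sdiff.2 ⟨h.sub z hzS hw, hwx⟩, hw⟩

theorem Ctx.mem_N_u (h : Ctx S N u v) {x : α} (hx : x ∈ N u) : x ∈ S ∧ x ≠ u ∧ x ≠ v :=
  ⟨h.sub u h.hu hx, fun e => h.irr u h.hu (e ▸ hx), fun e => h.uv (e ▸ hx)⟩

theorem Ctx.mem_N_v (h : Ctx S N u v) {x : α} (hx : x ∈ N v) : x ∈ S ∧ x ≠ u ∧ x ≠ v :=
  ⟨h.sub v h.hv hx, fun e => h.vu (e ▸ hx), fun e => h.irr v h.hv (e ▸ hx)⟩

end

/-- contraction of `x` into `y` -/
def contr (N : α → Finset α) (x y z : α) : Finset α :=
  if x ∈ N z then insert y ((N z).erase x) else N z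

theorem contr_card {N : α → Finset α} {x y z : α} (h : x ∈ N z → y ∉ N z) :
    (contr N x y z).card = (N z).card := by
  unfold contr
  split_ifs with hx
  · rw [card_insert_of_notMem (fun hy => h hx (mem_of_mem_erase hy)), card_erase_of_mem hx]
    have : 0 < (N z).card := card_pos.2 ⟨x, hx⟩
    omega
  · rfl

theorem mem_contr {N : α → Finset α} {x y z w : α} (h : w ∈ contr N x y z) :
    (w ∈ N z ∧ w ≠ x) ∨ (w = y ∧ x ∈ N z) := by
  unfold contr at h
  split_ifs at h with hx
  · rcases mem_insert.1 h with h | h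
    · exact Or.inr ⟨h, hx⟩
    · exact Or.inl ⟨mem_of_mem_erase h, ne_of_mem_erase h⟩
  · exact Or.inl ⟨h, fun e => hx (e ▸ h)⟩

/-- lifting a self-supporting set along a contraction -/
theorem lift_contr {N : α → Finset α} {x y : α} (hxy : y ∈ N x) {U : Finset α}
    (hU : Sup (contr N x y) U) :
    Sup N (if y ∈ U then insert x U else U) := by
  split_ifs with hy
  · intro z hz
    rcases mem_insert.1 hz with rfl | hz
    · exact ⟨y, mem_insert_of_mem hy, hxy⟩
    · obtain ⟨w, hw, hw'⟩ := hU z hz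
      rcases mem_contr hw' with h | h
      · exact ⟨w, mem_insert_of_mem hw, h.1⟩
      · exact ⟨x, mem_insert_self _ _, h.2⟩
  · intro z hz
    obtain ⟨w, hw, hw'⟩ := hU z hz
    rcases mem_contr hw' with h | h
    · exact ⟨w, hw, h.1⟩
    · exact absurd (h.1 ▸ hw) hy

theorem lift_sep {S : Finset α} {N : α → Finset α} {x y u v u' v' : α} (hx : x ∈ S)
    (hxy : y ∈ N x) (h : Sep (S.erase x) (contr N x y) u' v')
    (hu : u = u' ∨ (u = x ∧ u' = y)) (hv : v = v' ∨ (v = x ∧ v' = y)) : Sep S N u v := by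
  obtain ⟨U, W, h1, h2, h3, h4, h5, h6, h7⟩ := h
  refine ⟨if y ∈ U then insert x U else U, if y ∈ W then insert x W else W, ?_, ?_, ?_, ?_, ?_,
    lift_contr hxy h6, lift_contr hxy h7⟩
  · split_ifs
    · exact insert_subset hx (h1.trans (erase_subset _ _))
    · exact h1.trans (erase_subset _ _)
  · split_ifs
    · exact insert_subset hx (h2.trans (erase_subset _ _))
    · exact h2.trans (erase_subset _ _)
  · have hxU : x ∉ U := fun hh => notMem_erase x S (h1 hh)
    have hxW : x ∉ W := fun hh => notMem_erase x S (h2 hh)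
    split_ifs with h8 h9 h9
    · exact absurd h9 (disjoint_left.1 h3 h8)
    · exact disjoint_insert_left.2 ⟨hxW, h3⟩
    · exact disjoint_insert_right.2 ⟨hxU, h3⟩
    · exact h3
  · rcases hu with rfl | ⟨rfl, rfl⟩
    · split_ifs
      · exact mem_insert_of_mem h4
      · exact h4
    · rw [if_pos h4]
      exact mem_insert_self _ _
  · rcases hv with rfl | ⟨rfl, rfl⟩
    · split_ifs
      · exact mem_insert_of_mem h5
      · exact h5
    · rw [if_pos h5]
      exact mem_insert_self _ _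

theorem Sup.mono {N N' : α → Finset α} {U : Finset α} (h : Sup N U)
    (hN : ∀ x ∈ U, N x ⊆ N' x) : Sup N' U := by
  intro x hx
  obtain ⟨y, hy, hy'⟩ := h x hx
  exact ⟨y, hy, hN x hx hy'⟩

theorem Sep.mono {S : Finset α} {N N' : α → Finset α} {u v : α} (h : Sep S N u v)
    (hN : ∀ x ∈ S, N x ⊆ N' x) : Sep S N' u v := by
  obtain ⟨U, W, h1, h2, h3, h4, h5, h6, h7⟩ := h
  exact ⟨U, W, h1, h2, h3, h4, h5, h6.mono (fun x hx => hN x (h1 hx)),
    h7.mono (fun x hx => hN x (h2 hx))⟩

section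

variable {S : Finset α} {N : α → Finset α} {u v : α}

/-- an arc that is not in a digon, between nonroots, has a common in-neighbour -/
theorem Ctx.l0 (h : Ctx S N u v) {x y : α} (hx : x ∈ S) (hxu : x ≠ u) (hxv : x ≠ v)
    (hyu : y ≠ u) (hyv : y ≠ v) (hxy : y ∈ N x) (hyx : x ∉ N y) :
    ∃ z ∈ S, x ∈ N z ∧ y ∈ N z := by
  by_contra hno
  push Not at hno
  have hyS : y ∈ S := h.sub x hx hxy
  have hyx' : y ≠ x := fun e => h.irr x hx (e ▸ hxy)
  have hsub : ∀ z ∈ S.erase x, contr N x y z ⊆ S.erase x := by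
    intro z hz w hw
    have hzS := mem_of_mem_erase hz
    rcases mem_contr hw with h1 | h1
    · exact mem_erase.2 ⟨h1.2, h.sub z hzS h1.1⟩
    · rw [h1.1]
      exact mem_erase.2 ⟨hyx', hyS⟩
  refine h.ns (lift_sep (x := x) (y := y) (u' := u) (v' := v) hx hxy ?_ (Or.inl rfl) (Or.inl rfl))
  apply h.ih
  · rw [card_erase_of_mem hx]
    have : 0 < S.card := card_pos.2 ⟨x, hx⟩
    omega
  · refine ⟨mem_erase.2 ⟨hxu.symm, h.hu⟩, mem_erase.2 ⟨hxv.symm, h.hv⟩, h.huv, hsub, ?_, ?_, ?_,
      ?_, ?_, ?_⟩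
    · intro z hz hzz
      have hzS := mem_of_mem_erase hz
      rcases mem_contr hzz with h1 | h1
      · exact h.irr z hzS h1.1
      · exact hyx (h1.1 ▸ h1.2)
    · intro hvu
      rcases mem_contr hvu with h1 | h1
      · exact h.uv h1.1
      · exact hyv h1.1.symm
    · intro hvu
      rcases mem_contr hvu with h1 | h1
      · exact h.vu h1.1
      · exact hyu h1.1.symm
    · rw [contr_card (fun h1 => hno u h.hu h1), h.du]
    · rw [contr_card (fun h1 => hno v h.hv h1), h.dv]
    · intro z hz h1 h2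
      have hzS := mem_of_mem_erase hz
      rw [contr_card (fun h1 => hno z hzS h1), h.d z hzS h1 h2]

/-- arcs at the root `u` -/
theorem Ctx.m (h : Ctx S N u v) {x : α} (hx : x ∈ S) (hxu : x ≠ u) (hxv : x ≠ v)
    (hux : x ∈ N u ∨ u ∈ N x) :
    x ∈ N v ∨ ∃ z ∈ S, z ≠ u ∧ z ≠ v ∧ u ∈ N z ∧ x ∈ N z := by
  by_contra hno
  push Not at hno
  obtain ⟨hvx, hno⟩ := hno
  have hpos : 0 < S.card := card_pos.2 ⟨x, hx⟩
  rcases hux with hux | hxu'
  · -- contract `u` into `x`
    have hxu' : u ∉ N x := h.k0 hux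
    have key : ∀ z ∈ S, z ≠ u → u ∈ N z → x ∉ N z := by
      intro z hz hzu huz
      have hzv : z ≠ v := fun e => h.vu (e ▸ huz)
      exact hno z hz hzu hzv huz
    set N' : α → Finset α := fun z => if z = x then (N x).erase v else contr N u x z with hN'
    have hle : ∀ z, N' z ⊆ contr N u x z := by
      intro z w hw
      simp only [hN'] at hw
      split_ifs at hw with hzx
      · subst hzx
        unfold contr
        rw [if_neg hxu']
        exact mem_of_mem_erase hw
      · exact hw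
    refine h.ns (lift_sep (x := u) (y := x) (u' := x) (v' := v) h.hu hux ?_
      (Or.inr ⟨rfl, rfl⟩) (Or.inl rfl))
    refine Sep.mono (N := N') ?_ (fun z _ => hle z)
    apply h.ih
    · rw [card_erase_of_mem h.hu]
      omega
    · refine ⟨mem_erase.2 ⟨hxu, hx⟩, mem_erase.2 ⟨h.huv.symm, h.hv⟩, hxv, ?_, ?_, ?_, ?_,
        ?_, ?_, ?_⟩
      · intro z hz w hw
        have hzS := mem_of_mem_erase hz
        rcases mem_contr (hle z hw) with h1 | h1
        · exact mem_erase.2 ⟨h1.2, h.sub z hzS h1.1⟩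
        · rw [h1.1]
          exact mem_erase.2 ⟨hxu, hx⟩
      · intro z hz hzz
        have hzS := mem_of_mem_erase hz
        rcases mem_contr (hle z hzz) with h1 | h1
        · exact h.irr z hzS h1.1
        · exact hxu' (h1.1 ▸ h1.2)
      · simp [hN']
      · intro hh
        rcases mem_contr (hle v hh) with h1 | h1
        · exact hvx h1.1
        · exact h.vu h1.2
      · simp only [hN', if_true]
        have := h.d x hx hxu hxv
        have h2 := pred_card_le_card_erase (s := N x) (a := v)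
        omega
      · simp only [hN', if_neg hxv.symm]
        rw [contr_card (fun h1 => absurd h1 h.vu), h.dv]
      · intro z hz h1 h2
        have hzS := mem_of_mem_erase hz
        have hzu := ne_of_mem_erase hz
        simp only [hN', if_neg h1]
        rw [contr_card (fun h1 => key z hzS hzu h1), h.d z hzS hzu h2]
  · -- contract `x` into `u`
    have hux' : x ∉ N u := fun hh => h.k0 hh hxu'
    have key : ∀ z ∈ S, x ∈ N z → u ∉ N z := by
      intro z hz hxz huz
      have hzv : z ≠ v := fun e => hvx (e ▸ hxz)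
      have hzu : z ≠ u := fun e => hux' (e ▸ hxz)
      exact hno z hz hzu hzv huz hxz
    refine h.ns (lift_sep (x := x) (y := u) (u' := u) (v' := v) hx hxu' ?_
      (Or.inl rfl) (Or.inl rfl))
    apply h.ih
    · rw [card_erase_of_mem hx]
      omega
    · refine ⟨mem_erase.2 ⟨hxu.symm, h.hu⟩, mem_erase.2 ⟨hxv.symm, h.hv⟩, h.huv, ?_, ?_, ?_, ?_,
        ?_, ?_, ?_⟩
      · intro z hz w hw
        have hzS := mem_of_mem_erase hz
        rcases mem_contr hw with h1 | h1
        · exact mem_erase.2 ⟨h1.2, h.sub z hzS h1.1⟩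
        · rw [h1.1]
          exact mem_erase.2 ⟨hxu.symm, h.hu⟩
      · intro z hz hzz
        have hzS := mem_of_mem_erase hz
        rcases mem_contr hzz with h1 | h1
        · exact h.irr z hzS h1.1
        · exact hux' (h1.1 ▸ h1.2)
      · intro hh
        rcases mem_contr hh with h1 | h1
        · exact h.uv h1.1
        · exact h.huv h1.1.symm
      · intro hh
        rcases mem_contr hh with h1 | h1
        · exact h.vu h1.1
        · exact hvx h1.2
      · rw [contr_card (fun h1 => key u h.hu h1), h.du]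
      · rw [contr_card (fun h1 => key v h.hv h1), h.dv]
      · intro z hz h1 h2
        have hzS := mem_of_mem_erase hz
        rw [contr_card (fun h1 => key z hzS h1), h.d z hzS h1 h2]

end

end Pool.Agent.N257.FP
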