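import Pool.Agent.N257.FP.Comb

set_option linter.unusedSectionVars false

namespace Pool.Agent.N257.FP

open Finset

variable {α : Type*} [DecidableEq α]

section

variable {S : Finset α} {N : α → Finset α} {u v : α}

/-- a common in-neighbour of two distinct elements of a closed set is a root or in the set -/
theorem InT.common {T : Finset α} (hT : InT S N u v T) {z x y : α} (hz : z ∈ S) (hzu : z ≠ u)
    (hzv : z ≠ v) (hx : x ∈ T) (hy : y ∈ T) (hxy : x ≠ y) (h1 : x ∈ N z) (h2 : y ∈ N z) :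
    z ∈ T := by
  by_contra hzT
  have := hT.cl z hz hzu hzv hzT
  rw [card_le_one] at this
  exact hxy (this x (mem_inter.2 ⟨h1, hx⟩) y (mem_inter.2 ⟨h2, hy⟩))

theorem Ctx.exists_inT (h : Ctx S N u v) :
    ∃ T, InT S N u v T ∧ ∀ T', T' ⊆ T → InT S N u v T' → T' = T := by
  obtain ⟨a, ha⟩ : (N u).Nonempty := by
    rw [← card_pos, h.du]
    norm_num
  obtain ⟨haS, hau, hav⟩ := h.mem_N_u ha
  have hH : InT S N u v ((S.erase u).erase v) := by
    refine ⟨?_, ⟨a, by simp [haS, hau, hav]⟩, ?_, ?_⟩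
    · intro x hx
      simp only [mem_erase] at hx
      exact ⟨hx.2.2, hx.2.1, hx.1⟩
    · intro x hx
      simp only [mem_erase] at hx
      obtain ⟨w, hw, hw'⟩ := Finset.exists_mem_notMem_of_card_lt_card
        (s := {u, v}) (t := N x) (by
          rw [h.d x hx.2.2 hx.2.1 hx.1]
          exact lt_of_le_of_lt (card_le_two) (by norm_num))
      simp only [mem_insert, mem_singleton, not_or] at hw'
      refine ⟨w, ?_, hw⟩
      simp only [mem_erase]
      exact ⟨hw'.2, hw'.1, h.sub x hx.2.2 hw⟩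
    · intro z hz hzu hzv hzH
      exact absurd (by simp [hz, hzu, hzv]) hzH
  obtain ⟨T, _, h1, h2⟩ := exists_min_set (P := InT S N u v) hH
  exact ⟨T, h1, h2⟩

/-- every self-supporting subset of `T` contains a vertex with only one out-neighbour in `T` -/
theorem Ctx.a1 {T : Finset α} (hT : InT S N u v T)
    (hmin : ∀ T', T' ⊆ T → InT S N u v T' → T' = T) {t : α} (ht : t ∈ T)
    (h1 : (N t ∩ T).card ≤ 1) {K : Finset α} (hKT : K ⊆ T) (hKne : K.Nonempty)
    (hK : Sup N K) : t ∈ K := by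
  by_contra htK
  obtain ⟨M, hMX, hsM, hMmax, hMout⟩ := exists_max_sup N (T.erase t)
  have hKM : K ⊆ M := by
    apply hMmax K _ hK
    intro x hx
    exact mem_erase.2 ⟨fun e => htK (e ▸ hx), hKT hx⟩
  have hMT : M ⊆ T := hMX.trans (erase_subset _ _)
  have hM : InT S N u v M := by
    refine ⟨fun x hx => hT.nr x (hMT hx), hKne.mono hKM, hsM, ?_⟩
    intro z hz hzu hzv hzM
    by_cases hzT : z ∈ T
    · by_cases hzt : z = t
      · subst hzt
        exact (card_le_card (inter_subset_inter_left hMT)).trans h1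
      · have h2 := hMout z (mem_erase.2 ⟨hzt, hzT⟩) hzM
        have h3 : N z ∩ M = ∅ := by
          apply eq_empty_of_forall_notMem
          intro w hw
          exact h2 w (mem_inter.1 hw).1 (mem_inter.1 hw).2
        rw [h3]
        simp
    · exact (card_le_card (inter_subset_inter_left hMT)).trans (hT.cl z hz hzu hzv hzT)
  have h4 := hmin M hMT hM
  have h5 : t ∈ M := h4.symm ▸ ht
  exact notMem_erase t T (hMX h5)

/-- if some vertex of the smallest `T` has only one out-neighbour in `T` then `T` consists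
of out-neighbours of the roots -/
theorem Ctx.a2 (h : Ctx S N u v) {T : Finset α} (hT : InT S N u v T)
    (hmin : ∀ T', T' ⊆ T → InT S N u v T' → T' = T) {t : α} (ht : t ∈ T)
    (h1 : (N t ∩ T).card ≤ 1) : ∀ x ∈ T, x ∈ N u ∨ x ∈ N v := by
  classical
  have hTS : ∀ x ∈ T, x ∈ S := fun x hx => (hT.nr x hx).1
  have noin : ∀ x ∈ T, x ∉ N u → x ∉ N v → ∀ y ∈ T, x ∉ N y := by
    intro x hx hxu hxv
    by_contra hc
    push Not at hc
    obtain ⟨y0, hy0, hy0'⟩ := hc
    obtain ⟨B', hB', hB'ne, hsB'⟩ := exists_sup_of_insup (N := N)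
      (B := T.filter (fun y => x ∈ N y)) ⟨y0, mem_filter.2 ⟨hy0, hy0'⟩⟩ (by
        intro y hy
        obtain ⟨hyT, hxy⟩ := mem_filter.1 hy
        obtain ⟨hyS, hyu, hyv⟩ := hT.nr y hyT
        obtain ⟨_, hxu', hxv'⟩ := hT.nr x hx
        obtain ⟨z, hz, hz1, hz2⟩ := h.l hyS hyu hyv hxu' hxv' hxy
        have hzu : z ≠ u := fun e => hxu (e ▸ hz2)
        have hzv : z ≠ v := fun e => hxv (e ▸ hz2)
        have hyx : y ≠ x := fun e => h.irr y hyS (by rw [← e] at hxy; exact hxy)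
        have hzT := hT.common hz hzu hzv hyT hx hyx hz1 hz2
        exact ⟨z, mem_filter.2 ⟨hzT, hz2⟩, hz1⟩)
    have hB'T : B' ⊆ T := hB'.trans (filter_subset _ _)
    have htB' := Ctx.a1 hT hmin ht h1 hB'T hB'ne hsB'
    obtain ⟨w, hw, hw'⟩ := hsB' t htB'
    have hxt : x ∈ N t := (mem_filter.1 (hB' htB')).2
    rw [card_le_one] at h1
    have hxw : x = w := h1 x (mem_inter.2 ⟨hxt, hx⟩) w (mem_inter.2 ⟨hw', hB'T hw⟩)
    have hxw' : x ∈ N w := (mem_filter.1 (hB' hw)).2
    exact h.irr x (hTS x hx) (hxw.symm ▸ hxw')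
  intro x hx
  by_contra hc
  push Not at hc
  obtain ⟨y, hy, hxy⟩ := hT.sup x hx
  obtain ⟨hxS, hxu, hxv⟩ := hT.nr x hx
  obtain ⟨hyS, hyu, hyv⟩ := hT.nr y hy
  obtain ⟨z, hz, hz1, hz2⟩ := h.l hxS hxu hxv hyu hyv hxy
  have hzu : z ≠ u := fun e => hc.1 (e ▸ hz1)
  have hzv : z ≠ v := fun e => hc.2 (e ▸ hz1)
  have hxy' : x ≠ y := fun e => h.irr x hxS (by rw [← e] at hxy; exact hxy)
  exact noin x hx hc.1 hc.2 z (hT.common hz hzu hzv hx hy hxy' hz1 hz2) hz1

/-- the case of disjoint root neighbourhoods -/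
theorem Ctx.a3 (h : Ctx S N u v) {T : Finset α} (hT : InT S N u v T)
    (hmin : ∀ T', T' ⊆ T → InT S N u v T' → T' = T) {t : α} (ht : t ∈ T)
    (h1 : (N t ∩ T).card ≤ 1) (hd : Disjoint (N u) (N v)) : False := by
  classical
  have hN := h.a2 hT hmin ht h1
  obtain ⟨hNu, hNv⟩ := h.c hT
  have hTS : ∀ x ∈ T, x ∈ S := fun x hx => (hT.nr x hx).1
  set Cr : α → Prop := fun z => z ≠ t ∧ ∃ w ∈ T, w ∈ N z ∧
    ((z ∈ N u ∧ w ∈ N v) ∨ (z ∈ N v ∧ w ∈ N u)) with hCr
  have key : ∀ z ∈ T, (∃ w ∈ T, w ∈ N z ∧ ((z ∈ N u ∧ w ∈ N v) ∨ (z ∈ N v ∧ w ∈ N u))) →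
      ∃ y ∈ T.filter Cr, z ∈ N y := by
    rintro z hz ⟨w, hw, hwz, hcr⟩
    obtain ⟨hzS, hzu, hzv⟩ := hT.nr z hz
    obtain ⟨hwS, hwu, hwv⟩ := hT.nr w hw
    obtain ⟨y, hy, hy1, hy2⟩ := h.l hzS hzu hzv hwu hwv hwz
    have hyu : y ≠ u := by
      rintro rfl
      rcases hcr with ⟨_, h3⟩ | ⟨h3, _⟩
      · exact disjoint_left.1 hd hy2 h3
      · exact disjoint_left.1 hd hy1 h3
    have hyv : y ≠ v := by
      rintro rfl
      rcases hcr with ⟨h3, _⟩ | ⟨_, h3⟩
      · exact disjoint_left.1 hd h3 hy1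
      · exact disjoint_left.1 hd h3 hy2
    have hzw : z ≠ w := fun e => h.irr z hzS (by rw [← e] at hwz; exact hwz)
    have hyT := hT.common hy hyu hyv hz hw hzw hy1 hy2
    have hyt : y ≠ t := by
      rintro rfl
      rw [card_le_one] at h1
      exact hzw (h1 z (mem_inter.2 ⟨hy1, hz⟩) w (mem_inter.2 ⟨hy2, hw⟩))
    refine ⟨y, mem_filter.2 ⟨hyT, hyt, ?_⟩, hy1⟩
    rcases hN y hyT with h4 | h4
    · rcases hcr with ⟨_, h3⟩ | ⟨h3, _⟩
      · exact ⟨w, hw, hy2, Or.inl ⟨h4, h3⟩⟩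
      · exact ⟨z, hz, hy1, Or.inl ⟨h4, h3⟩⟩
    · rcases hcr with ⟨h3, _⟩ | ⟨_, h3⟩
      · exact ⟨z, hz, hy1, Or.inr ⟨h4, h3⟩⟩
      · exact ⟨w, hw, hy2, Or.inr ⟨h4, h3⟩⟩
  have nocr : ∀ z ∈ T, ¬ ∃ w ∈ T, w ∈ N z ∧ ((z ∈ N u ∧ w ∈ N v) ∨ (z ∈ N v ∧ w ∈ N u)) := by
    intro z hz hcr
    obtain ⟨y, hy, _⟩ := key z hz hcr
    obtain ⟨B', hB', hB'ne, hsB'⟩ := exists_sup_of_insup (N := N) (B := T.filter Cr) ⟨y, hy⟩ (by
      intro z' hz'
      obtain ⟨hz'T, hz'c⟩ := mem_filter.1 hz'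
      exact key z' hz'T hz'c.2)
    have htB' := Ctx.a1 hT hmin ht h1 (hB'.trans (filter_subset _ _)) hB'ne hsB'
    exact (mem_filter.1 (hB' htB')).2.1 rfl
  have hune : (N u).Nonempty := by rw [← card_pos, h.du]; norm_num
  have hvne : (N v).Nonempty := by rw [← card_pos, h.dv]; norm_num
  have su : Sup N (N u) := by
    intro x hx
    obtain ⟨y, hy, hxy⟩ := hT.sup x (hNu hx)
    refine ⟨y, ?_, hxy⟩
    rcases hN y hy with h4 | h4
    · exact h4
    · exact absurd ⟨y, hy, hxy, Or.inl ⟨hx, h4⟩⟩ (nocr x (hNu hx))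
  have sv : Sup N (N v) := by
    intro x hx
    obtain ⟨y, hy, hxy⟩ := hT.sup x (hNv hx)
    refine ⟨y, ?_, hxy⟩
    rcases hN y hy with h4 | h4
    · exact absurd ⟨y, hy, hxy, Or.inr ⟨hx, h4⟩⟩ (nocr x (hNv hx))
    · exact h4
  have t1 := Ctx.a1 hT hmin ht h1 hNu hune su
  have t2 := Ctx.a1 hT hmin ht h1 hNv hvne sv
  exact disjoint_left.1 hd t1 t2

/-- the case of root neighbourhoods with one common vertex -/
theorem Ctx.a4 (h : Ctx S N u v) {T : Finset α} (hT : InT S N u v T)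
    {t0 : α} (ht0 : t0 ∈ T)
    (h1 : (N t0 ∩ T).card ≤ 1) {t a b : α} (hNu : N u = {t, a}) (hNv : N v = {t, b})
    (hta : t ≠ a) (htb : t ≠ b) (hab : a ≠ b) (hTe : ∀ x, x ∈ T ↔ x = t ∨ x = a ∨ x = b) :
    False := by
  classical
  have tT : t ∈ T := (hTe t).2 (Or.inl rfl)
  have aT : a ∈ T := (hTe a).2 (Or.inr (Or.inl rfl))
  have bT : b ∈ T := (hTe b).2 (Or.inr (Or.inr rfl))
  obtain ⟨tS, tu, tv⟩ := hT.nr t tT
  obtain ⟨aS, au, av⟩ := hT.nr a aT
  obtain ⟨bS, bu, bv⟩ := hT.nr b bT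
  have bNu : b ∉ N u := by
    rw [hNu]
    simp only [mem_insert, mem_singleton, not_or]
    exact ⟨htb.symm, hab.symm⟩
  have aNv : a ∉ N v := by
    rw [hNv]
    simp only [mem_insert, mem_singleton, not_or]
    exact ⟨hta.symm, hab⟩
  have tNu : t ∈ N u := by rw [hNu]; simp
  have tNv : t ∈ N v := by rw [hNv]; simp
  have aNu : a ∈ N u := by rw [hNu]; simp
  have bNv : b ∈ N v := by rw [hNv]; simp
  -- arcs between `a` and `b`
  have cross : ∀ z ∈ S, a ∈ N z → b ∈ N z → z = t := by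
    intro z hz h2 h3
    have hzu : z ≠ u := fun e => bNu (e ▸ h3)
    have hzv : z ≠ v := fun e => aNv (e ▸ h2)
    have hzT := hT.common hz hzu hzv aT bT hab h2 h3
    rcases (hTe z).1 hzT with rfl | rfl | rfl
    · rfl
    · exact absurd h2 (h.irr _ hz)
    · exact absurd h3 (h.irr _ hz)
  have Lab : b ∈ N a → a ∈ N t ∧ b ∈ N t := by
    intro hba
    obtain ⟨z, hz, h2, h3⟩ := h.l aS au av bu bv hba
    have e := cross z hz h2 h3
    exact ⟨e ▸ h2, e ▸ h3⟩
  have Lba : a ∈ N b → a ∈ N t ∧ b ∈ N t := by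
    intro hba
    obtain ⟨z, hz, h2, h3⟩ := h.l bS bu bv au av hba
    have e := cross z hz h3 h2
    exact ⟨e ▸ h3, e ▸ h2⟩
  -- a digon in `T` is dominated by the third vertex
  have pair : ∀ p q r : α, p ∈ T → q ∈ T → r ∈ T → r ≠ p → r ≠ q →
      (∀ x ∈ T, x = p ∨ x = q ∨ x = r) → q ∈ N p → p ∈ N q → p ∈ N r ∧ q ∈ N r := by
    intro p q r hp hq hr hrp hrq hall hpq hqp
    by_contra hc
    have hI : InT S N u v {p, q} := by
      refine ⟨?_, ⟨p, by simp⟩, ?_, ?_⟩
      · intro z hz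
        simp only [mem_insert, mem_singleton] at hz
        rcases hz with rfl | rfl
        · exact hT.nr _ hp
        · exact hT.nr _ hq
      · intro z hz
        simp only [mem_insert, mem_singleton] at hz
        rcases hz with rfl | rfl
        · exact ⟨q, by simp, hpq⟩
        · exact ⟨p, by simp, hqp⟩
      · intro z hz hzu hzv hzpq
        have hsub : ({p, q} : Finset α) ⊆ T := by
          intro x hx
          simp only [mem_insert, mem_singleton] at hx
          rcases hx with rfl | rfl <;> assumption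
        by_cases hzT : z ∈ T
        · simp only [mem_insert, mem_singleton, not_or] at hzpq
          rcases hall z hzT with h2 | h2 | h2
          · exact absurd h2 hzpq.1
          · exact absurd h2 hzpq.2
          · subst h2
            rw [card_le_one]
            intro x hx y hy
            simp only [mem_inter, mem_insert, mem_singleton] at hx hy
            rcases hx with ⟨hx, rfl | rfl⟩ <;> rcases hy with ⟨hy, rfl | rfl⟩
            · rfl
            · exact absurd ⟨hx, hy⟩ hc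
            · exact absurd ⟨hy, hx⟩ hc
            · rfl
        · exact (card_le_card (inter_subset_inter_left hsub)).trans (hT.cl z hz hzu hzv hzT)
    obtain ⟨c1, c2⟩ := h.c hI
    have : r ∈ ({p, q} : Finset α) := by
      rcases (hTe r).1 hr with rfl | rfl | rfl
      · exact c1 tNu
      · exact c1 aNu
      · exact c2 bNv
    simp only [mem_insert, mem_singleton] at this
    rcases this with h2 | h2
    · exact hrp h2
    · exact hrq h2
  have two : ∀ x y z : α, y ∈ T → z ∈ T → y ≠ z → y ∈ N x → z ∈ N x → x ≠ t0 := by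
    rintro x y z hy hz hyz h2 h3 rfl
    rw [card_le_one] at h1
    exact hyz (h1 y (mem_inter.2 ⟨h2, hy⟩) z (mem_inter.2 ⟨h3, hz⟩))
  -- all arcs present is impossible
  have full : ¬ (a ∈ N t ∧ b ∈ N t ∧ t ∈ N a ∧ b ∈ N a ∧ t ∈ N b ∧ a ∈ N b) := by
    rintro ⟨h2, h3, h4, h5, h6, h7⟩
    rcases (hTe t0).1 ht0 with h8 | h8 | h8
    · exact two t a b aT bT hab h2 h3 h8.symm
    · exact two a t b tT bT htb h4 h5 h8.symm
    · exact two b t a tT aT hta h6 h7 h8.symm
  have nta : ¬ (a ∈ N t ∧ t ∈ N a) := by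
    rintro ⟨h2, h3⟩
    obtain ⟨h4, h5⟩ := pair t a b tT aT bT htb.symm hab.symm (fun x hx => (hTe x).1 hx) h2 h3
    obtain ⟨_, h6⟩ := Lba h5
    obtain ⟨h7, h8⟩ := pair t b a tT bT aT hta.symm hab (fun x hx => by
      rcases (hTe x).1 hx with h | h | h
      · exact Or.inl h
      · exact Or.inr (Or.inr h)
      · exact Or.inr (Or.inl h)) h6 h4
    exact full ⟨h2, h6, h7, h8, h4, h5⟩
  have ntb : ¬ (b ∈ N t ∧ t ∈ N b) := by
    rintro ⟨h2, h3⟩
    obtain ⟨h4, h5⟩ := pair t b a tT bT aT hta.symm hab (fun x hx => by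
      rcases (hTe x).1 hx with h | h | h
      · exact Or.inl h
      · exact Or.inr (Or.inr h)
      · exact Or.inr (Or.inl h)) h2 h3
    obtain ⟨h6, _⟩ := Lab h5
    exact nta ⟨h6, h4⟩
  have outT : ∀ x ∈ T, ∃ y, y ∈ N x ∧ (y = t ∨ y = a ∨ y = b) := by
    intro x hx
    obtain ⟨y, hy, hy'⟩ := hT.sup x hx
    exact ⟨y, hy', (hTe y).1 hy⟩
  have tNa : t ∉ N a := by
    intro h2
    have h3 : a ∉ N t := fun h3 => nta ⟨h3, h2⟩
    obtain ⟨y, hy, rfl | rfl | rfl⟩ := outT t tT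
    · exact h.irr _ tS hy
    · exact h3 hy
    · have h4 : t ∉ N y := fun h4 => ntb ⟨hy, h4⟩
      obtain ⟨w, hw, rfl | rfl | rfl⟩ := outT y bT
      · exact h4 hw
      · exact h3 (Lba hw).1
      · exact h.irr _ bS hw
  have bNa : b ∈ N a := by
    obtain ⟨y, hy, rfl | rfl | rfl⟩ := outT a aT
    · exact absurd hy tNa
    · exact absurd hy (h.irr _ aS)
    · exact hy
  obtain ⟨aNt, bNt⟩ := Lab bNa
  have aNb : a ∈ N b := by
    obtain ⟨y, hy, rfl | rfl | rfl⟩ := outT b bT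
    · exact absurd ⟨bNt, hy⟩ ntb
    · exact hy
    · exact absurd hy (h.irr _ bS)
  refine h.symm.compl (U := {v, a, b}) ?_ (by simp) ?_ ?_ ?_
  · intro z hz
    simp only [mem_insert, mem_singleton] at hz
    rcases hz with rfl | rfl | rfl
    · exact h.hv
    · exact aS
    · exact bS
  · simp only [mem_insert, mem_singleton, not_or]
    exact ⟨h.huv, au.symm, bu.symm⟩
  · intro z hz
    simp only [mem_insert, mem_singleton] at hz
    rcases hz with rfl | rfl | rfl
    · exact ⟨b, by simp, bNv⟩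
    · exact ⟨b, by simp, bNa⟩
    · exact ⟨a, by simp, aNb⟩
  · intro z hz
    simp only [mem_sdiff, mem_insert, mem_singleton, not_or] at hz
    obtain ⟨hzS, hzv, hza, hzb⟩ := hz
    by_cases hzu : z = u
    · subst hzu
      refine ⟨t, ?_, tNu⟩
      simp only [mem_sdiff, mem_insert, mem_singleton, not_or]
      exact ⟨tS, tv, hta, htb⟩
    by_cases hzt : z = t
    · subst hzt
      obtain ⟨c, hc, hc'⟩ := Finset.exists_mem_notMem_of_card_lt_card
        (s := {a, b}) (t := N z) (by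
          rw [h.d z hzS hzu hzv]
          exact lt_of_le_of_lt (card_le_two) (by norm_num))
      simp only [mem_insert, mem_singleton, not_or] at hc'
      refine ⟨c, ?_, hc⟩
      simp only [mem_sdiff, mem_insert, mem_singleton, not_or]
      exact ⟨h.sub z hzS hc, fun e => h.symm.k0 tNv (e ▸ hc), hc'.1, hc'.2⟩
    · have hzT : z ∉ T := by
        intro hh
        rcases (hTe z).1 hh with h2 | h2 | h2
        · exact hzt h2
        · exact hza h2
        · exact hzb h2
      have hc := hT.cl z hzS hzu hzv hzT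
      have hlt : (insert v (N z ∩ T)).card < (N z).card := by
        rw [h.d z hzS hzu hzv]
        exact lt_of_le_of_lt (card_insert_le _ _) (by omega)
      obtain ⟨w, hw, hw'⟩ := Finset.exists_mem_notMem_of_card_lt_card hlt
      simp only [mem_insert, mem_inter, not_or, not_and] at hw'
      refine ⟨w, ?_, hw⟩
      simp only [mem_sdiff, mem_insert, mem_singleton, not_or]
      refine ⟨h.sub z hzS hw, hw'.1, ?_, ?_⟩
      · rintro rfl
        exact hw'.2 hw aT
      · rintro rfl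
        exact hw'.2 hw bT

theorem Ctx.caseA (h : Ctx S N u v) {T : Finset α} (hT : InT S N u v T)
    (hmin : ∀ T', T' ⊆ T → InT S N u v T' → T' = T) {t0 : α} (ht0 : t0 ∈ T)
    (h1 : (N t0 ∩ T).card ≤ 1) : False := by
  classical
  have hN := h.a2 hT hmin ht0 h1
  obtain ⟨hNu, hNv⟩ := h.c hT
  by_cases hd : Disjoint (N u) (N v)
  · exact h.a3 hT hmin ht0 h1 hd
  rw [not_disjoint_iff] at hd
  obtain ⟨t, htu, htv⟩ := hd
  have e1 : ((N u).erase t).card = 1 := by rw [card_erase_of_mem htu, h.du]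
  have e2 : ((N v).erase t).card = 1 := by rw [card_erase_of_mem htv, h.dv]
  obtain ⟨a, ha⟩ := card_eq_one.1 e1
  obtain ⟨b, hb⟩ := card_eq_one.1 e2
  have hNu' : N u = {t, a} := by rw [← insert_erase htu, ha]
  have hNv' : N v = {t, b} := by rw [← insert_erase htv, hb]
  have hta : t ≠ a := by
    have : a ∈ (N u).erase t := by rw [ha]; simp
    exact (ne_of_mem_erase this).symm
  have htb : t ≠ b := by
    have : b ∈ (N v).erase t := by rw [hb]; simp
    exact (ne_of_mem_erase this).symm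
  have hab : a ≠ b := by
    rintro rfl
    exact h.f6 (hNu'.trans hNv'.symm)
  refine h.a4 hT ht0 h1 hNu' hNv' hta htb hab ?_
  intro x
  constructor
  · intro hx
    rcases hN x hx with h2 | h2
    · rw [hNu'] at h2
      simp only [mem_insert, mem_singleton] at h2
      rcases h2 with h2 | h2
      · exact Or.inl h2
      · exact Or.inr (Or.inl h2)
    · rw [hNv'] at h2
      simp only [mem_insert, mem_singleton] at h2
      rcases h2 with h2 | h2
      · exact Or.inl h2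
      · exact Or.inr (Or.inr h2)
  · rintro (rfl | rfl | rfl)
    · exact hNu htu
    · exact hNu (by rw [hNu']; simp)
    · exact hNv (by rw [hNv']; simp)

end

end Pool.Agent.N257.FP
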