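import Pool.Agent.N257.FP.CaseA

set_option linter.unusedSectionVars false

namespace Pool.Agent.N257.FP

open Finset

variable {α : Type*} [DecidableEq α]

section

variable {S : Finset α} {N : α → Finset α} {u v : α}

/-- if every vertex of the smallest `T` has two out-neighbours in `T` then `T` consists of all
nonroots -/
theorem Ctx.b0 (h : Ctx S N u v) {T : Finset α} (hT : InT S N u v T)
    (h2 : ∀ t ∈ T, 2 ≤ (N t ∩ T).card) : ∀ x ∈ S, x ≠ u → x ≠ v → x ∈ T := by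
  classical
  by_contra hc
  push Not at hc
  obtain ⟨x0, hx0, hx0u, hx0v, hx0T⟩ := hc
  obtain ⟨hNu, hNv⟩ := h.c hT
  set R : Finset α := S.filter (fun x => x ≠ u ∧ x ≠ v ∧ x ∉ T) with hR
  have memR : ∀ x, x ∈ R ↔ x ∈ S ∧ x ≠ u ∧ x ≠ v ∧ x ∉ T := by
    intro x
    simp [hR]
  have hout : ∀ z ∈ T, ∀ a b, a ∈ N z → b ∈ N z → a ∉ T → b ∉ T → a = b := by
    intro z hz a b ha hb haT hbT
    obtain ⟨hzS, hzu, hzv⟩ := hT.nr z hz
    have e1 := card_sdiff_add_card_inter (N z) T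
    rw [h.d z hzS hzu hzv] at e1
    have e2 := h2 z hz
    have e3 : (N z \ T).card ≤ 1 := by omega
    rw [card_le_one] at e3
    exact e3 a (mem_sdiff.2 ⟨ha, haT⟩) b (mem_sdiff.2 ⟨hb, hbT⟩)
  have noself : ∀ U : Finset α, U ⊆ R → U.Nonempty → ¬ Sup N U := by
    intro U hU hUne hUs
    obtain ⟨M, hMR, hsM, hMmax, hMout⟩ := exists_max_sup N R
    have hUM := hMmax U hU hUs
    have hI : InT S N u v M := by
      refine ⟨?_, hUne.mono hUM, hsM, ?_⟩
      · intro x hx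
        obtain ⟨e1, e2, e3, _⟩ := (memR x).1 (hMR hx)
        exact ⟨e1, e2, e3⟩
      · intro z hz hzu hzv hzM
        rw [card_le_one]
        intro a ha b hb
        obtain ⟨ha1, ha2⟩ := mem_inter.1 ha
        obtain ⟨hb1, hb2⟩ := mem_inter.1 hb
        have haT : a ∉ T := ((memR a).1 (hMR ha2)).2.2.2
        have hbT : b ∉ T := ((memR b).1 (hMR hb2)).2.2.2
        by_cases hzT : z ∈ T
        · exact hout z hzT a b ha1 hb1 haT hbT
        · exact absurd ha2 (hMout z ((memR z).2 ⟨hz, hzu, hzv, hzT⟩) hzM a ha1)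
    obtain ⟨c1, _⟩ := h.c hI
    obtain ⟨a, ha⟩ : (N u).Nonempty := by rw [← card_pos, h.du]; norm_num
    exact ((memR a).1 (hMR (c1 ha))).2.2.2 (hNu ha)
  obtain ⟨r, hr, hsrc⟩ := exists_source (N := N) ⟨x0, (memR x0).2 ⟨hx0, hx0u, hx0v, hx0T⟩⟩ noself
  obtain ⟨hrS, hru, hrv, hrT⟩ := (memR r).1 hr
  have hcl := hT.cl r hrS hru hrv hrT
  obtain ⟨w, hw, hw'⟩ := Finset.exists_mem_notMem_of_card_lt_card
    (s := N r ∩ T) (t := N r) (by rw [h.d r hrS hru hrv]; omega)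
  have hwT : w ∉ T := fun hh => hw' (mem_inter.2 ⟨hw, hh⟩)
  have hwS := h.sub r hrS hw
  have hwr : w ≠ r := fun e => h.irr r hrS (e ▸ hw)
  have huT : u ∉ T := fun hh => (hT.nr u hh).2.1 rfl
  have hvT : v ∉ T := fun hh => (hT.nr v hh).2.2 rfl
  have hrNu : r ∉ N u := fun hh => hrT (hNu hh)
  have hrNv : r ∉ N v := fun hh => hrT (hNv hh)
  by_cases hwu : w = u
  · subst hwu
    rcases h.m hrS hru hrv (Or.inr hw) with h3 | ⟨z, hz, hzu, hzv, h3, h4⟩
    · exact hrNv h3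
    · by_cases hzT : z ∈ T
      · exact hwr (hout z hzT _ _ h3 h4 huT hrT)
      · exact hsrc z ((memR z).2 ⟨hz, hzu, hzv, hzT⟩) h4
  by_cases hwv : w = v
  · subst hwv
    rcases h.symm.m hrS hrv hru (Or.inr hw) with h3 | ⟨z, hz, hzv, hzu, h3, h4⟩
    · exact hrNu h3
    · by_cases hzT : z ∈ T
      · exact hwr (hout z hzT _ _ h3 h4 hvT hrT)
      · exact hsrc z ((memR z).2 ⟨hz, hzu, hzv, hzT⟩) h4
  obtain ⟨z, hz, h3, h4⟩ := h.l hrS hru hrv hwu hwv hw
  have hzu : z ≠ u := fun e => hrNu (e ▸ h3)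
  have hzv : z ≠ v := fun e => hrNv (e ▸ h3)
  by_cases hzT : z ∈ T
  · exact hwr (hout z hzT _ _ h4 h3 hwT hrT)
  · exact hsrc z ((memR z).2 ⟨hz, hzu, hzv, hzT⟩) h3

end

/-- a smallest counterexample in case B -/
structure CtxB (S : Finset α) (N : α → Finset α) (u v : α) : Prop extends Ctx S N u v where
  one : ∀ x ∈ S, x ≠ u → x ≠ v → ¬ (u ∈ N x ∧ v ∈ N x)
  all : ∀ T, InT S N u v T → ∀ x ∈ S, x ≠ u → x ≠ v → x ∈ T

theorem CtxB.symm {S : Finset α} {N : α → Finset α} {u v : α} (h : CtxB S N u v) :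
    CtxB S N v u :=
  { toCtx := h.toCtx.symm
    one := fun x hx h1 h2 h3 => h.one x hx h2 h1 ⟨h3.2, h3.1⟩
    all := fun T hT x hx h1 h2 => h.all T hT.symm x hx h2 h1 }

theorem Ctx.toB {S : Finset α} {N : α → Finset α} {u v : α} (h : Ctx S N u v) :
    CtxB S N u v := by
  obtain ⟨T, hT, hmin⟩ := h.exists_inT
  have h2 : ∀ t ∈ T, 2 ≤ (N t ∩ T).card := by
    intro t ht
    by_contra hc
    exact h.caseA hT hmin ht (by omega)
  have hall := h.b0 hT h2
  refine { toCtx := h, one := ?_, all := ?_ }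
  · rintro x hx hxu hxv ⟨h3, h4⟩
    have hxT := hall x hx hxu hxv
    have e1 := card_sdiff_add_card_inter (N x) T
    rw [h.d x hx hxu hxv] at e1
    have e2 := h2 x hxT
    have e3 : (N x \ T).card ≤ 1 := by omega
    rw [card_le_one] at e3
    have huT : u ∉ T := fun hh => (hT.nr u hh).2.1 rfl
    have hvT : v ∉ T := fun hh => (hT.nr v hh).2.2 rfl
    exact h.huv (e3 u (mem_sdiff.2 ⟨h3, huT⟩) v (mem_sdiff.2 ⟨h4, hvT⟩))
  · intro T' hT' x hx hxu hxv
    have hsub : T' ⊆ T := fun y hy => hall y (hT'.nr y hy).1 (hT'.nr y hy).2.1 (hT'.nr y hy).2.2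
    rw [hmin T' hsub hT']
    exact hall x hx hxu hxv

/-- the structure of the smallest counterexample: nonroots are a chordless cycle `K` of vertices
with an arc to a root, and an acyclic rest `J`; `p` is the predecessor on `K` -/
structure Fin' (S : Finset α) (N : α → Finset α) (u v : α) (K J : Finset α) (p : α → α) : Prop
    extends CtxB S N u v where
  mem : ∀ x, x ∈ S ↔ x = u ∨ x = v ∨ x ∈ K ∨ x ∈ J
  uK : u ∉ K
  vK : v ∉ K
  uJ : u ∉ J
  vJ : v ∉ J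
  KJ : ∀ x ∈ K, x ∉ J
  root : ∀ x ∈ K, u ∈ N x ∨ v ∈ N x
  pK : ∀ x ∈ K, p x ∈ K
  pN : ∀ x ∈ K, x ∈ N (p x)
  pU : ∀ x ∈ K, ∀ y ∈ K, y ∈ N x → x = p y
  oU : ∀ x ∈ K, ∀ y ∈ K, ∀ y' ∈ K, y ∈ N x → y' ∈ N x → y = y'
  con : ∀ B : Finset α, B ⊆ K → B.Nonempty → (∀ x ∈ B, p x ∈ B) → B = K
  sK : ∀ x ∈ K, ∃ y ∈ K, y ∈ N x
  jx : ∀ x ∈ K, ∃ y ∈ J, y ∈ N x
  jU : ∀ x ∈ K, ∀ y ∈ J, ∀ y' ∈ J, y ∈ N x → y' ∈ N x → y = y'
  ac : ∀ U : Finset α, U ⊆ J → U.Nonempty → ¬ Sup N U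
  ne : K.Nonempty

theorem Fin'.symm {S : Finset α} {N : α → Finset α} {u v : α} {K J : Finset α} {p : α → α}
    (h : Fin' S N u v K J p) : Fin' S N v u K J p :=
  { toCtxB := h.toCtxB.symm
    mem := fun x => by
      rw [h.mem x]
      tauto
    uK := h.vK
    vK := h.uK
    uJ := h.vJ
    vJ := h.uJ
    KJ := h.KJ
    root := fun x hx => (h.root x hx).symm
    pK := h.pK
    pN := h.pN
    pU := h.pU
    oU := h.oU
    con := h.con
    sK := h.sK
    jx := h.jx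
    jU := h.jU
    ac := h.ac
    ne := h.ne }

theorem CtxB.exists_fin {S : Finset α} {N : α → Finset α} {u v : α} (h : CtxB S N u v) :
    ∃ (K J : Finset α) (p : α → α), Fin' S N u v K J p := by
  classical
  set A : Finset α := S.filter (fun x => x ≠ u ∧ x ≠ v ∧ (u ∈ N x ∨ v ∈ N x)) with hA
  have memA : ∀ x, x ∈ A ↔ x ∈ S ∧ x ≠ u ∧ x ≠ v ∧ (u ∈ N x ∨ v ∈ N x) := by
    intro x
    simp [hA]
  have hAin : ∀ x ∈ A, ∃ y ∈ A, x ∈ N y := by
    intro x hx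
    obtain ⟨hxS, hxu, hxv, hr⟩ := (memA x).1 hx
    have gen : ∀ {u v : α}, CtxB S N u v → x ≠ u → x ≠ v → u ∈ N x →
        ∃ y ∈ S, y ≠ u ∧ y ≠ v ∧ (u ∈ N y ∨ v ∈ N y) ∧ x ∈ N y := by
      intro u v h hxu hxv hux
      rcases h.m hxS hxu hxv (Or.inr hux) with h1 | ⟨z, hz, hzu, hzv, h1, h2⟩
      · rcases h.toCtx.symm.m hxS hxv hxu (Or.inl h1) with h3 | ⟨z, hz, hzv, hzu, h3, h4⟩
        · exact absurd hux (h.k0 h3)
        · exact ⟨z, hz, hzu, hzv, Or.inr h3, h4⟩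
      · exact ⟨z, hz, hzu, hzv, Or.inl h1, h2⟩
    rcases hr with hr | hr
    · obtain ⟨y, hy, h1, h2, h3, h4⟩ := gen h hxu hxv hr
      exact ⟨y, (memA y).2 ⟨hy, h1, h2, h3⟩, h4⟩
    · obtain ⟨y, hy, h1, h2, h3, h4⟩ := gen h.symm hxv hxu hr
      exact ⟨y, (memA y).2 ⟨hy, h2, h1, h3.symm⟩, h4⟩
  have hAne : A.Nonempty := by
    have hex : ∃ a ∈ N u, a ∉ N v := by
      by_contra hc
      push Not at hc
      apply h.f6
      apply eq_of_subset_of_card_le hc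
      rw [h.du, h.dv]
    obtain ⟨a, ha, hav⟩ := hex
    obtain ⟨haS, hau, hav'⟩ := h.mem_N_u ha
    rcases h.m haS hau hav' (Or.inl ha) with h1 | ⟨z, hz, hzu, hzv, h1, _⟩
    · exact absurd h1 hav
    · exact ⟨z, (memA z).2 ⟨hz, hzu, hzv, Or.inl h1⟩⟩
  obtain ⟨B', hB'A, hB'ne, hsB'⟩ := exists_sup_of_insup hAne hAin
  obtain ⟨K, hKB, ⟨hKne, hsK⟩, hKmin⟩ := exists_min_set
    (P := fun T : Finset α => T.Nonempty ∧ Sup N T) (X := B') ⟨hB'ne, hsB'⟩
  have hKA : K ⊆ A := hKB.trans hB'A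
  obtain ⟨p, hp1, hp2, hp3, hp4⟩ := exists_pred hsK (fun K' h1 h2 h3 => hKmin K' h1 ⟨h2, h3⟩) hKne
  set J : Finset α := S.filter (fun x => x ≠ u ∧ x ≠ v ∧ x ∉ K) with hJ
  have memJ : ∀ x, x ∈ J ↔ x ∈ S ∧ x ≠ u ∧ x ≠ v ∧ x ∉ K := by
    intro x
    simp [hJ]
  have hKnr : ∀ x ∈ K, x ∈ S ∧ x ≠ u ∧ x ≠ v := by
    intro x hx
    obtain ⟨h1, h2, h3, _⟩ := (memA x).1 (hKA hx)
    exact ⟨h1, h2, h3⟩
  have huK : u ∉ K := fun hh => (hKnr u hh).2.1 rfl
  have hvK : v ∉ K := fun hh => (hKnr v hh).2.2 rfl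
  -- out-neighbours of `x ∈ K`
  have hroot : ∀ x ∈ K, u ∈ N x ∨ v ∈ N x := fun x hx => ((memA x).1 (hKA hx)).2.2.2
  have jU : ∀ x ∈ K, ∀ y ∈ J, ∀ y' ∈ J, y ∈ N x → y' ∈ N x → y = y' := by
    intro x hx y hy y' hy' h1 h2
    by_contra hne
    obtain ⟨w, hw, hw'⟩ := hsK x hx
    obtain ⟨hxS, hxu, hxv⟩ := hKnr x hx
    obtain ⟨_, hyu, hyv, hyK⟩ := (memJ y).1 hy
    obtain ⟨_, hyu', hyv', hyK'⟩ := (memJ y').1 hy'
    obtain ⟨_, hwu, hwv⟩ := hKnr w hw
    have gen : ∀ r : α, r ∈ N x → r ≠ y → r ≠ y' → r ≠ w → False := by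
      intro r hr e1 e2 e3
      have hsub : ({r, w, y, y'} : Finset α) ⊆ N x := by
        intro z hz
        simp only [mem_insert, mem_singleton] at hz
        rcases hz with rfl | rfl | rfl | rfl <;> assumption
      have hwy : w ≠ y := fun e => hyK (e ▸ hw)
      have hwy' : w ≠ y' := fun e => hyK' (e ▸ hw)
      have hc : ({r, w, y, y'} : Finset α).card = 4 := by
        rw [card_insert_of_notMem, card_insert_of_notMem, card_pair hne]
        · simp only [mem_insert, mem_singleton, not_or]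
          exact ⟨hwy, hwy'⟩
        · simp only [mem_insert, mem_singleton, not_or]
          exact ⟨e3, e1, e2⟩
      have := card_le_card hsub
      rw [hc, h.d x hxS hxu hxv] at this
      omega
    rcases hroot x hx with h3 | h3
    · exact gen u h3 hyu.symm hyu'.symm hwu.symm
    · exact gen v h3 hyv.symm hyv'.symm hwv.symm
  have jx : ∀ x ∈ K, ∃ y ∈ J, y ∈ N x := by
    intro x hx
    obtain ⟨hxS, hxu, hxv⟩ := hKnr x hx
    by_contra hc
    push Not at hc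
    obtain ⟨w, hw, hw'⟩ := hsK x hx
    have gen : ∀ r r' : α, (r' ∉ N x) → (∀ z ∈ N x, z ∈ S → z ≠ r → z ≠ r' → z ∈ K) → False := by
      intro r r' hr' hall
      have hsub : N x ⊆ {r, w} := by
        intro z hz
        simp only [mem_insert, mem_singleton]
        by_cases hzr : z = r
        · exact Or.inl hzr
        · have hzr' : z ≠ r' := fun e => hr' (e ▸ hz)
          exact Or.inr (hp3 x hx z (hall z hz (h.sub x hxS hz) hzr hzr') w hw hz hw')
      have := card_le_card hsub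
      rw [h.d x hxS hxu hxv] at this
      have h5 : ({r, w} : Finset α).card ≤ 2 := card_le_two
      omega
    have hall : ∀ z ∈ N x, z ∈ S → z ≠ u → z ≠ v → z ∈ K := by
      intro z hz hzS hzu hzv
      by_contra hzK
      exact hc z ((memJ z).2 ⟨hzS, hzu, hzv, hzK⟩) hz
    rcases hroot x hx with h3 | h3
    · exact gen u v (fun h4 => h.one x hxS hxu hxv ⟨h3, h4⟩) hall
    · exact gen v u (fun h4 => h.one x hxS hxu hxv ⟨h4, h3⟩)
        (fun z hz hzS e1 e2 => hall z hz hzS e2 e1)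
  refine ⟨K, J, p, ?_⟩
  refine
    { toCtxB := h
      mem := ?_
      uK := huK
      vK := hvK
      uJ := ?_
      vJ := ?_
      KJ := ?_
      root := hroot
      pK := fun x hx => (hp1 x hx).1
      pN := fun x hx => (hp1 x hx).2
      pU := hp2
      oU := hp3
      con := hp4
      sK := hsK
      jx := jx
      jU := jU
      ac := ?_
      ne := hKne }
  · intro x
    rw [memJ x]
    constructor
    · intro hx
      by_cases h1 : x = u
      · exact Or.inl h1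
      by_cases h2 : x = v
      · exact Or.inr (Or.inl h2)
      by_cases h3 : x ∈ K
      · exact Or.inr (Or.inr (Or.inl h3))
      · exact Or.inr (Or.inr (Or.inr ⟨hx, h1, h2, h3⟩))
    · rintro (rfl | rfl | h1 | h1)
      · exact h.hu
      · exact h.hv
      · exact (hKnr x h1).1
      · exact h1.1
  · exact fun hh => ((memJ u).1 hh).2.1 rfl
  · exact fun hh => ((memJ v).1 hh).2.2.1 rfl
  · exact fun x hx hh => ((memJ x).1 hh).2.2.2 hx
  · intro U hU hUne hUs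
    obtain ⟨M, hMJ, hsM, hMmax, hMout⟩ := exists_max_sup N J
    have hUM := hMmax U hU hUs
    have hI : InT S N u v M := by
      refine ⟨?_, hUne.mono hUM, hsM, ?_⟩
      · intro x hx
        obtain ⟨e1, e2, e3, _⟩ := (memJ x).1 (hMJ hx)
        exact ⟨e1, e2, e3⟩
      · intro z hz hzu hzv hzM
        rw [card_le_one]
        intro a ha b hb
        obtain ⟨ha1, ha2⟩ := mem_inter.1 ha
        obtain ⟨hb1, hb2⟩ := mem_inter.1 hb
        by_cases hzK : z ∈ K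
        · exact jU z hzK a (hMJ ha2) b (hMJ hb2) ha1 hb1
        · exact absurd ha2 (hMout z ((memJ z).2 ⟨hz, hzu, hzv, hzK⟩) hzM a ha1)
    obtain ⟨k, hk⟩ := hKne
    have h4 := h.all M hI k (hKnr k hk).1 (hKnr k hk).2.1 (hKnr k hk).2.2
    exact ((memJ k).1 (hMJ h4)).2.2.2 hk

end Pool.Agent.N257.FP
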