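import Pool.Agent.N257.FP.Basic

set_option linter.unusedSectionVars false

namespace Pool.Agent.N257.FP

open Finset

variable {α : Type*} [DecidableEq α]

/-- the family of self-supporting sets of nonroots closed under
having at least two out-neighbours in the set -/
structure InT (S : Finset α) (N : α → Finset α) (u v : α) (T : Finset α) : Prop where
  nr : ∀ x ∈ T, x ∈ S ∧ x ≠ u ∧ x ≠ v
  ne : T.Nonempty
  sup : Sup N T
  cl : ∀ z ∈ S, z ≠ u → z ≠ v → z ∉ T → (N z ∩ T).card ≤ 1

theorem InT.symm {S : Finset α} {N : α → Finset α} {u v : α} {T : Finset α}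
    (h : InT S N u v T) : InT S N v u T :=
  ⟨fun x hx => ⟨(h.nr x hx).1, (h.nr x hx).2.2, (h.nr x hx).2.1⟩, h.ne, h.sup,
    fun z hz h1 h2 h3 => h.cl z hz h2 h1 h3⟩

section

variable {S : Finset α} {N : α → Finset α} {u v : α}

theorem Ctx.c1 (h : Ctx S N u v) {T : Finset α} (hT : InT S N u v T)
    (h1 : (N u ∩ T).card ≤ 1) (h2 : (N v ∩ T).card ≤ 1) : False := by
  obtain ⟨s, hs⟩ := hT.ne
  obtain ⟨hsS, hsu, hsv⟩ := hT.nr s hs
  have hTS : T ⊆ S := fun x hx => (hT.nr x hx).1
  have huT : u ∉ T := fun hh => (hT.nr u hh).2.1 rfl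
  have hvT : v ∉ T := fun hh => (hT.nr v hh).2.2 rfl
  obtain ⟨t, htT, hts⟩ := hT.sup s hs
  have hst : t ≠ s := fun e => h.irr s hsS (e ▸ hts)
  have hTcard : 2 ≤ T.card := by
    have : ({s, t} : Finset α) ⊆ T := by
      intro z hz
      simp only [mem_insert, mem_singleton] at hz
      rcases hz with rfl | rfl <;> assumption
    calc 2 = ({s, t} : Finset α).card := (card_pair hst.symm).symm
      _ ≤ T.card := card_le_card this
  set S' : Finset α := insert s (S \ T) with hS'
  have hS'S : S' ⊆ S := insert_subset hsS sdiff_subset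
  have hS'card : S'.card < S.card := by
    have e1 : S'.card ≤ (S \ T).card + 1 := card_insert_le _ _
    have e2 : (S \ T).card + T.card = S.card := card_sdiff_add_card_eq_card hTS
    omega
  set N' : α → Finset α := fun z =>
    if z = s then S'.erase s else if (N z ∩ T).Nonempty then insert s (N z \ T) else N z with hN'
  -- membership in `N'` for `z ≠ s`
  have hmem : ∀ z, z ≠ s → ∀ w ∈ N' z, (w ∈ N z ∧ w ∉ T) ∨ (w = s ∧ (N z ∩ T).Nonempty) := by
    intro z hz w hw
    simp only [hN', if_neg hz] at hw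
    split_ifs at hw with hc
    · rcases mem_insert.1 hw with h3 | h3
      · exact Or.inr ⟨h3, hc⟩
      · exact Or.inl (mem_sdiff.1 h3)
    · refine Or.inl ⟨hw, fun hwT => hc ⟨w, mem_inter.2 ⟨hw, hwT⟩⟩⟩
  have hcard : ∀ z, z ≠ s → (N z ∩ T).card ≤ 1 → (N z).card ≤ (N' z).card := by
    intro z hz hc
    simp only [hN', if_neg hz]
    split_ifs with hne
    · rw [card_insert_of_notMem (fun hh => (mem_sdiff.1 hh).2 hs)]
      have := card_sdiff_add_card_inter (N z) T
      omega
    · exact le_rfl
  obtain ⟨a, haN, haT⟩ : ∃ a ∈ N u, a ∉ T := by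
    by_contra hc
    push Not at hc
    have : N u ∩ T = N u := inter_eq_left.2 hc
    rw [this, h.du] at h1
    omega
  obtain ⟨haS, hau, hav⟩ := h.mem_N_u haN
  have hsep : Sep S' N' u v := by
    apply h.ih _ _ _ _ hS'card
    refine ⟨?_, ?_, h.huv, ?_, ?_, ?_, ?_, ?_, ?_, ?_⟩
    · exact mem_insert_of_mem (mem_sdiff.2 ⟨h.hu, huT⟩)
    · exact mem_insert_of_mem (mem_sdiff.2 ⟨h.hv, hvT⟩)
    · intro z hz w hw
      by_cases hzs : z = s
      · simp only [hN', if_pos hzs] at hw
        exact mem_of_mem_erase hw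
      · have hzS := hS'S hz
        rcases hmem z hzs w hw with h3 | h3
        · exact mem_insert_of_mem (mem_sdiff.2 ⟨h.sub z hzS h3.1, h3.2⟩)
        · rw [h3.1]
          exact mem_insert_self _ _
    · intro z hz hzz
      by_cases hzs : z = s
      · simp only [hN', if_pos hzs] at hzz
        exact (ne_of_mem_erase hzz) hzs
      · have hzS := hS'S hz
        rcases hmem z hzs z hzz with h3 | h3
        · exact h.irr z hzS h3.1
        · exact hzs h3.1
    · intro hh
      rcases hmem u hsu.symm v hh with h3 | h3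
      · exact h.uv h3.1
      · exact hsv h3.1.symm
    · intro hh
      rcases hmem v hsv.symm u hh with h3 | h3
      · exact h.vu h3.1
      · exact hsu h3.1.symm
    · have := hcard u hsu.symm h1
      rw [h.du] at this
      exact this
    · have := hcard v hsv.symm h2
      rw [h.dv] at this
      exact this
    · intro z hz hzu hzv
      by_cases hzs : z = s
      · simp only [hN', if_pos hzs]
        have hsub : ({u, v, a} : Finset α) ⊆ S'.erase s := by
          intro w hw
          simp only [mem_insert, mem_singleton] at hw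
          rcases hw with rfl | rfl | rfl
          · exact mem_erase.2 ⟨hsu.symm, mem_insert_of_mem (mem_sdiff.2 ⟨h.hu, huT⟩)⟩
          · exact mem_erase.2 ⟨hsv.symm, mem_insert_of_mem (mem_sdiff.2 ⟨h.hv, hvT⟩)⟩
          · exact mem_erase.2 ⟨fun e => haT (e ▸ hs), mem_insert_of_mem (mem_sdiff.2 ⟨haS, haT⟩)⟩
        calc 3 = ({u, v, a} : Finset α).card := by
              rw [card_eq_three.2 ⟨u, v, a, h.huv, hau.symm, hav.symm, rfl⟩]
          _ ≤ _ := card_le_card hsub
      · have hzT : z ∉ T := by
          rcases mem_insert.1 hz with h3 | h3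
          · exact absurd h3 hzs
          · exact (mem_sdiff.1 h3).2
        have := hcard z hzs (hT.cl z (hS'S hz) hzu hzv hzT)
        rw [h.d z (hS'S hz) hzu hzv] at this
        exact this
  obtain ⟨U, W, hU, hW, hd, hu, hv, sU, sW⟩ := hsep
  -- lifting
  have lift : ∀ X : Finset α, X ⊆ S' → Sup N' X →
      Sup N (if s ∈ X then (X.erase s) ∪ T else X) := by
    intro X hX sX
    split_ifs with hsX
    · intro z hz
      rcases mem_union.1 hz with hz | hz
      · have hzs := ne_of_mem_erase hz
        obtain ⟨w, hw, hw'⟩ := sX z (mem_of_mem_erase hz)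
        rcases hmem z hzs w hw' with h3 | h3
        · exact ⟨w, mem_union_left _ (mem_erase.2 ⟨fun e => h3.2 (e ▸ hs), hw⟩), h3.1⟩
        · obtain ⟨t', ht'⟩ := h3.2
          exact ⟨t', mem_union_right _ (mem_inter.1 ht').2, (mem_inter.1 ht').1⟩
      · obtain ⟨w, hw, hw'⟩ := hT.sup z hz
        exact ⟨w, mem_union_right _ hw, hw'⟩
    · intro z hz
      have hzs : z ≠ s := fun e => hsX (e ▸ hz)
      obtain ⟨w, hw, hw'⟩ := sX z hz
      rcases hmem z hzs w hw' with h3 | h3
      · exact ⟨w, hw, h3.1⟩
      · exact absurd (h3.1 ▸ hw) hsX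
  have liftS : ∀ X : Finset α, X ⊆ S' → (if s ∈ X then (X.erase s) ∪ T else X) ⊆ S := by
    intro X hX
    split_ifs
    · exact union_subset ((erase_subset _ _).trans (hX.trans hS'S)) hTS
    · exact hX.trans hS'S
  have hXT : ∀ X : Finset α, X ⊆ S' → s ∉ X → Disjoint X T := by
    intro X hX hsX
    rw [disjoint_left]
    intro z hz hzT
    rcases mem_insert.1 (hX hz) with h3 | h3
    · exact hsX (h3 ▸ hz)
    · exact (mem_sdiff.1 h3).2 hzT
  refine h.two (liftS U hU) (liftS W hW) ?_ ?_ ?_ (lift U hU sU) (lift W hW sW)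
  · split_ifs with h8 h9 h9
    · exact absurd h9 (disjoint_left.1 hd h8)
    · exact disjoint_union_left.2 ⟨disjoint_of_subset_left (erase_subset _ _) hd,
        (hXT W hW h9).symm⟩
    · exact disjoint_union_right.2 ⟨disjoint_of_subset_right (erase_subset _ _) hd,
        hXT U hU h8⟩
    · exact hd
  · split_ifs
    · exact mem_union_left _ (mem_erase.2 ⟨hsu.symm, hu⟩)
    · exact hu
  · split_ifs
    · exact mem_union_left _ (mem_erase.2 ⟨hsv.symm, hv⟩)
    · exact hv

/-- if all out-neighbours of `u` are in the closed set then so are those of `v` -/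
theorem Ctx.c2 (h : Ctx S N u v) {T : Finset α} (hT : InT S N u v T)
    (hu : N u ⊆ T) : N v ⊆ T := by
  by_contra hv
  obtain ⟨b, hb, hbT⟩ := not_subset.1 hv
  have hTS : T ⊆ S := fun x hx => (hT.nr x hx).1
  have hvT : v ∉ T := fun hh => (hT.nr v hh).2.2 rfl
  refine h.compl (U := insert u T) (insert_subset h.hu hTS) (mem_insert_self _ _) ?_ ?_ ?_
  · simp only [mem_insert, not_or]
    exact ⟨h.huv.symm, hvT⟩
  · intro z hz
    rcases mem_insert.1 hz with rfl | hz
    · obtain ⟨a, ha⟩ : (N z).Nonempty := by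
        rw [← card_pos, h.du]
        norm_num
      exact ⟨a, mem_insert_of_mem (hu ha), ha⟩
    · obtain ⟨w, hw, hw'⟩ := hT.sup z hz
      exact ⟨w, mem_insert_of_mem hw, hw'⟩
  · intro z hz
    simp only [mem_sdiff, mem_insert, not_or] at hz
    obtain ⟨hzS, hzu, hzT⟩ := hz
    by_cases hzv : z = v
    · subst hzv
      obtain ⟨hbS, hbu, hbv⟩ := h.mem_N_v hb
      exact ⟨b, by simp [hbS, hbu, hbT], hb⟩
    · have hc := hT.cl z hzS hzu hzv hzT
      have hlt : (insert u (N z ∩ T)).card < (N z).card := by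
        rw [h.d z hzS hzu hzv]
        exact lt_of_le_of_lt (card_insert_le _ _) (by omega)
      obtain ⟨w, hw, hw'⟩ := Finset.exists_mem_notMem_of_card_lt_card hlt
      simp only [mem_insert, mem_inter, not_or, not_and] at hw'
      refine ⟨w, ?_, hw⟩
      simp only [mem_sdiff, mem_insert, not_or]
      exact ⟨h.sub z hzS hw, hw'.1, hw'.2 hw⟩

theorem Ctx.c (h : Ctx S N u v) {T : Finset α} (hT : InT S N u v T) :
    N u ⊆ T ∧ N v ⊆ T := by
  by_cases h1 : (N u ∩ T).card ≤ 1
  · by_cases h2 : (N v ∩ T).card ≤ 1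
    · exact absurd (h.c1 hT h1 h2) id
    · have hv : N v ⊆ T := by
        have h3 : (N v ∩ T) = N v := by
          apply eq_of_subset_of_card_le inter_subset_left
          rw [h.dv]
          omega
        exact inter_eq_left.1 h3
      exact ⟨h.symm.c2 hT.symm hv, hv⟩
  · have hu : N u ⊆ T := by
      have h3 : (N u ∩ T) = N u := by
        apply eq_of_subset_of_card_le inter_subset_left
        rw [h.du]
        omega
      exact inter_eq_left.1 h3
    exact ⟨hu, h.c2 hT hu⟩

/-- every arc between nonroots has a common in-neighbour -/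
theorem Ctx.l (h : Ctx S N u v) {x y : α} (hx : x ∈ S) (hxu : x ≠ u) (hxv : x ≠ v)
    (hyu : y ≠ u) (hyv : y ≠ v) (hxy : y ∈ N x) :
    ∃ z ∈ S, x ∈ N z ∧ y ∈ N z := by
  by_cases hyx : x ∈ N y
  · by_contra hno
    push Not at hno
    have hyS : y ∈ S := h.sub x hx hxy
    have hT : InT S N u v {x, y} := by
      refine ⟨?_, ⟨x, by simp⟩, ?_, ?_⟩
      · intro z hz
        simp only [mem_insert, mem_singleton] at hz
        rcases hz with rfl | rfl
        · exact ⟨hx, hxu, hxv⟩
        · exact ⟨hyS, hyu, hyv⟩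
      · intro z hz
        simp only [mem_insert, mem_singleton] at hz
        rcases hz with rfl | rfl
        · exact ⟨y, by simp, hxy⟩
        · exact ⟨x, by simp, hyx⟩
      · intro z hz _ _ _
        rw [card_le_one]
        intro a ha b hb
        simp only [mem_inter, mem_insert, mem_singleton] at ha hb
        rcases ha with ⟨ha, rfl | rfl⟩ <;> rcases hb with ⟨hb, rfl | rfl⟩
        · rfl
        · exact absurd hb (hno z hz ha)
        · exact absurd ha (hno z hz hb)
        · rfl
    have hsub := (h.c hT).1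
    have : N u = {x, y} := by
      apply eq_of_subset_of_card_le hsub
      rw [h.du]
      exact card_le_two
    exact hno u h.hu (by rw [this]; simp) (by rw [this]; simp)
  · exact h.l0 hx hxu hxv hyu hyv hxy hyx

end

end Pool.Agent.N257.FP
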