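import Pool.Agent.N257.FP.Merge

set_option linter.unusedSectionVars false

namespace Pool.Agent.N257.FP

open Finset

variable {α : Type*} [DecidableEq α]

/-- a smallest set with a given property below a set with this property -/
theorem exists_min_set (P : Finset α → Prop) {X : Finset α} (hX : P X) :
    ∃ T : Finset α, T ⊆ X ∧ P T ∧ ∀ T' : Finset α, T' ⊆ T → P T' → T' = T := by
  classical
  obtain ⟨T, hT, hmin⟩ := exists_min_image (X.powerset.filter P) Finset.card
    ⟨X, mem_filter.2 ⟨mem_powerset_self _, hX⟩⟩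
  obtain ⟨hTX, hPT⟩ := mem_filter.1 hT
  rw [mem_powerset] at hTX
  refine ⟨T, hTX, hPT, ?_⟩
  intro T' hT' hPT'
  exact eq_of_subset_of_card_le hT'
    (hmin T' (mem_filter.2 ⟨mem_powerset.2 (hT'.trans hTX), hPT'⟩))

theorem exists_sup_of_insup {N : α → Finset α} {B : Finset α} (hB : B.Nonempty)
    (h : ∀ x ∈ B, ∃ y ∈ B, x ∈ N y) : ∃ B' : Finset α, B' ⊆ B ∧ B'.Nonempty ∧ Sup N B' := by
  classical
  obtain ⟨T, hTB, ⟨hTne, hT⟩, hmin⟩ := exists_min_set
    (P := fun T : Finset α => T.Nonempty ∧ ∀ x ∈ T, ∃ y ∈ T, x ∈ N y) (X := B) ⟨hB, h⟩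
  refine ⟨T, hTB, hTne, ?_⟩
  have hg : ∀ x : α, ∃ y : α, x ∈ T → y ∈ T ∧ x ∈ N y := by
    intro x
    by_cases hx : x ∈ T
    · obtain ⟨y, hy, hy'⟩ := hT x hx
      exact ⟨y, fun _ => ⟨hy, hy'⟩⟩
    · exact ⟨x, fun h => absurd h hx⟩
  choose g hg using hg
  have himg : T.image g = T := by
    apply hmin
    · intro z hz
      obtain ⟨x, hx, rfl⟩ := mem_image.1 hz
      exact (hg x hx).1
    · refine ⟨hTne.image g, ?_⟩
      intro z hz
      obtain ⟨x, hx, rfl⟩ := mem_image.1 hz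
      have h1 := hg x hx
      exact ⟨g (g x), mem_image_of_mem g h1.1, (hg (g x) h1.1).2⟩
  intro x hx
  rw [← himg] at hx
  obtain ⟨y, hy, rfl⟩ := mem_image.1 hx
  exact ⟨y, hy, (hg y hy).2⟩

theorem Sup.union {N : α → Finset α} {U W : Finset α} (hU : Sup N U) (hW : Sup N W) :
    Sup N (U ∪ W) := by
  intro x hx
  rcases mem_union.1 hx with hx | hx
  · obtain ⟨y, hy, hy'⟩ := hU x hx
    exact ⟨y, mem_union_left _ hy, hy'⟩
  · obtain ⟨y, hy, hy'⟩ := hW x hx
    exact ⟨y, mem_union_right _ hy, hy'⟩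

/-- the largest self-supporting subset -/
theorem exists_max_sup (N : α → Finset α) (X : Finset α) :
    ∃ M : Finset α, M ⊆ X ∧ Sup N M ∧ (∀ U : Finset α, U ⊆ X → Sup N U → U ⊆ M) ∧
      (∀ z ∈ X, z ∉ M → ∀ w ∈ N z, w ∉ M) := by
  classical
  obtain ⟨M, hM, hmax⟩ := exists_max_image (X.powerset.filter (fun U => Sup N U)) Finset.card
    ⟨∅, mem_filter.2 ⟨empty_mem_powerset _, fun x hx => absurd hx (notMem_empty x)⟩⟩
  obtain ⟨hMX, hsM⟩ := mem_filter.1 hM
  rw [mem_powerset] at hMX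
  have key : ∀ U : Finset α, U ⊆ X → Sup N U → U ⊆ M := by
    intro U hU sU
    have h1 : M = M ∪ U := by
      apply eq_of_subset_of_card_le subset_union_left
      exact hmax _ (mem_filter.2 ⟨mem_powerset.2 (union_subset hMX hU), hsM.union sU⟩)
    rw [h1]
    exact subset_union_right
  refine ⟨M, hMX, hsM, key, ?_⟩
  intro z hz hzM w hw hwM
  apply hzM
  apply key (insert z M) (insert_subset hz hMX) ?_ (mem_insert_self _ _)
  intro x hx
  rcases mem_insert.1 hx with rfl | hx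
  · exact ⟨w, mem_insert_of_mem hwM, hw⟩
  · obtain ⟨y, hy, hy'⟩ := hsM x hx
    exact ⟨y, mem_insert_of_mem hy, hy'⟩

/-- a nonempty set without self-supporting subset has a source -/
theorem exists_source {N : α → Finset α} {J : Finset α} (hJ : J.Nonempty)
    (hac : ∀ U : Finset α, U ⊆ J → U.Nonempty → ¬ Sup N U) :
    ∃ s ∈ J, ∀ y ∈ J, s ∉ N y := by
  by_contra hc
  push Not at hc
  obtain ⟨B', h1, h2, h3⟩ := exists_sup_of_insup hJ hc
  exact hac B' h1 h2 h3

/-- the structure of a smallest self-supporting set: a chordless cycle -/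
theorem exists_pred {N : α → Finset α} {K : Finset α} (hK : Sup N K)
    (hmin : ∀ K' : Finset α, K' ⊆ K → K'.Nonempty → Sup N K' → K' = K) (hne : K.Nonempty) :
    ∃ p : α → α, (∀ x ∈ K, p x ∈ K ∧ x ∈ N (p x)) ∧
      (∀ x ∈ K, ∀ y ∈ K, y ∈ N x → x = p y) ∧
      (∀ x ∈ K, ∀ y ∈ K, ∀ y' ∈ K, y ∈ N x → y' ∈ N x → y = y') ∧
      (∀ B : Finset α, B ⊆ K → B.Nonempty → (∀ x ∈ B, p x ∈ B) → B = K) := by
  classical
  have gen : ∀ g : α → α, (∀ x ∈ K, g x ∈ K ∧ g x ∈ N x) →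
      K.image g = K ∧ Set.InjOn g K := by
    intro g hg
    have himg : K.image g = K := by
      apply hmin
      · intro z hz
        obtain ⟨x, hx, rfl⟩ := mem_image.1 hz
        exact (hg x hx).1
      · exact hne.image g
      · intro z hz
        obtain ⟨x, hx, rfl⟩ := mem_image.1 hz
        have h1 := hg x hx
        exact ⟨g (g x), mem_image_of_mem g h1.1, (hg (g x) h1.1).2⟩
    refine ⟨himg, ?_⟩
    apply card_image_iff.1
    rw [himg]
  have hg : ∀ x : α, ∃ y : α, x ∈ K → y ∈ K ∧ y ∈ N x := by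
    intro x
    by_cases hx : x ∈ K
    · obtain ⟨y, hy, hy'⟩ := hK x hx
      exact ⟨y, fun _ => ⟨hy, hy'⟩⟩
    · exact ⟨x, fun h => absurd h hx⟩
  choose g hg using hg
  obtain ⟨himg, hinj⟩ := gen g hg
  have huniq : ∀ x ∈ K, ∀ y ∈ K, y ∈ N x → y = g x := by
    intro x hx y hy hyx
    by_contra hne'
    obtain ⟨x', hx', hgx'⟩ := mem_image.1 (himg.symm ▸ hy : y ∈ K.image g)
    have hxx' : x' ≠ x := fun e => hne' (by rw [← hgx', e])
    obtain ⟨_, hinj2⟩ := gen (Function.update g x y) (by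
      intro z hz
      by_cases hzx : z = x
      · subst hzx
        rw [Function.update_self]
        exact ⟨hy, hyx⟩
      · rw [Function.update_of_ne hzx]
        exact hg z hz)
    apply hxx'
    apply hinj2 hx' hx
    rw [Function.update_of_ne hxx', Function.update_self, hgx']
  have hp : ∀ y : α, ∃ x : α, y ∈ K → x ∈ K ∧ g x = y := by
    intro y
    by_cases hy : y ∈ K
    · obtain ⟨x, hx, hx'⟩ := mem_image.1 (himg.symm ▸ hy : y ∈ K.image g)
      exact ⟨x, fun _ => ⟨hx, hx'⟩⟩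
    · exact ⟨y, fun h => absurd h hy⟩
  choose p hp using hp
  have hpin : ∀ x ∈ K, ∀ y ∈ K, y ∈ N x → x = p y := by
    intro x hx y hy hyx
    have h1 := huniq x hx y hy hyx
    have h2 := hp y hy
    apply hinj hx h2.1
    rw [h2.2, ← h1]
  refine ⟨p, ?_, hpin, ?_, ?_⟩
  · intro x hx
    have h2 := hp x hx
    refine ⟨h2.1, ?_⟩
    have := (hg (p x) h2.1).2
    rwa [h2.2] at this
  · intro x hx y hy y' hy' h1 h2
    rw [huniq x hx y hy h1, huniq x hx y' hy' h2]
  · intro B hBK hBne hBp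
    by_contra hBK'
    have hex : ∃ z ∈ K, z ∉ B := by
      by_contra hc
      push Not at hc
      exact hBK' (subset_antisymm hBK hc)
    obtain ⟨z, hzK, hzB⟩ := hex
    have hrest : K \ B = K := by
      apply hmin _ sdiff_subset ⟨z, mem_sdiff.2 ⟨hzK, hzB⟩⟩
      intro x hx
      obtain ⟨hxK, hxB⟩ := mem_sdiff.1 hx
      have h1 := hg x hxK
      refine ⟨g x, mem_sdiff.2 ⟨h1.1, ?_⟩, h1.2⟩
      intro hgB
      have h3 := hBp (g x) hgB
      rw [← hpin x hxK (g x) h1.1 h1.2] at h3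
      exact hxB h3
    obtain ⟨b, hb⟩ := hBne
    have : b ∈ K \ B := hrest.symm ▸ hBK hb
    exact (mem_sdiff.1 this).2 hb

end Pool.Agent.N257.FP
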