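import Pool.Agent.N257.FP.CaseB

set_option linter.unusedSectionVars false

namespace Pool.Agent.N257.FP

open Finset

variable {α : Type*} [DecidableEq α]

/-- the in-neighbours of a nonroot are not all roots -/
theorem CtxB.r0 {S : Finset α} {N : α → Finset α} {u v : α} (h : CtxB S N u v) {s : α}
    (hs : s ∈ S) (hsu : s ≠ u) (hsv : s ≠ v) : ∃ y ∈ S, y ≠ u ∧ y ≠ v ∧ s ∈ N y := by
  by_contra hc
  push Not at hc
  have hin : ∀ y ∈ S, s ∈ N y → y = u ∨ y = v := by
    intro y hy hsy
    by_cases h1 : y = u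
    · exact Or.inl h1
    · by_cases h2 : y = v
      · exact Or.inr h2
      · exact absurd hsy (hc y hy h1 h2)
  have hout : ∀ w ∈ N s, w ≠ u → w ≠ v → (s ∈ N u ∧ w ∈ (N u).erase s) ∨
      (s ∈ N v ∧ w ∈ (N v).erase s) := by
    intro w hw hwu hwv
    have hws : w ≠ s := fun e => h.irr s hs (e ▸ hw)
    obtain ⟨z, hz, h1, h2⟩ := h.l hs hsu hsv hwu hwv hw
    rcases hin z hz h1 with rfl | rfl
    · exact Or.inl ⟨h1, mem_erase.2 ⟨hws, h2⟩⟩
    · exact Or.inr ⟨h1, mem_erase.2 ⟨hws, h2⟩⟩
  have hd := h.d s hs hsu hsv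
  by_cases h1 : s ∈ N u
  · have k1 : u ∉ N s := h.k0 h1
    have c1 : ((N u).erase s).card = 1 := by rw [card_erase_of_mem h1, h.du]
    by_cases h2 : s ∈ N v
    · have k2 : v ∉ N s := h.toCtx.symm.k0 h2
      have c2 : ((N v).erase s).card = 1 := by rw [card_erase_of_mem h2, h.dv]
      have hsub : N s ⊆ (N u).erase s ∪ (N v).erase s := by
        intro w hw
        rcases hout w hw (fun e => k1 (e ▸ hw)) (fun e => k2 (e ▸ hw)) with h3 | h3
        · exact mem_union_left _ h3.2
        · exact mem_union_right _ h3.2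
      have h4 := card_le_card hsub
      have h5 := card_union_le ((N u).erase s) ((N v).erase s)
      omega
    · have hsub : N s ⊆ insert v ((N u).erase s) := by
        intro w hw
        by_cases hwv : w = v
        · exact hwv ▸ mem_insert_self _ _
        rcases hout w hw (fun e => k1 (e ▸ hw)) hwv with h3 | h3
        · exact mem_insert_of_mem h3.2
        · exact absurd h3.1 h2
      have h4 := card_le_card hsub
      have h5 := card_insert_le v ((N u).erase s)
      omega
  · by_cases h2 : s ∈ N v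
    · have k2 : v ∉ N s := h.toCtx.symm.k0 h2
      have c2 : ((N v).erase s).card = 1 := by rw [card_erase_of_mem h2, h.dv]
      have hsub : N s ⊆ insert u ((N v).erase s) := by
        intro w hw
        by_cases hwu : w = u
        · exact hwu ▸ mem_insert_self _ _
        rcases hout w hw hwu (fun e => k2 (e ▸ hw)) with h3 | h3
        · exact absurd h3.1 h1
        · exact mem_insert_of_mem h3.2
      have h4 := card_le_card hsub
      have h5 := card_insert_le u ((N v).erase s)
      omega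
    · obtain ⟨w, hw, hw'⟩ := Finset.exists_mem_notMem_of_card_lt_card
        (s := {u, v}) (t := N s) (by
          rw [hd]
          exact lt_of_le_of_lt (card_le_two) (by norm_num))
      simp only [mem_insert, mem_singleton, not_or] at hw'
      rcases hout w hw hw'.1 hw'.2 with h3 | h3
      · exact h1 h3.1
      · exact h2 h3.1

section

variable {S : Finset α} {N : α → Finset α} {u v : α} {K J : Finset α} {p : α → α}

theorem Fin'.nrK (h : Fin' S N u v K J p) {x : α} (hx : x ∈ K) : x ∈ S ∧ x ≠ u ∧ x ≠ v :=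
  ⟨(h.mem x).2 (Or.inr (Or.inr (Or.inl hx))), fun e => h.uK (e ▸ hx), fun e => h.vK (e ▸ hx)⟩

theorem Fin'.nrJ (h : Fin' S N u v K J p) {x : α} (hx : x ∈ J) : x ∈ S ∧ x ≠ u ∧ x ≠ v :=
  ⟨(h.mem x).2 (Or.inr (Or.inr (Or.inr hx))), fun e => h.uJ (e ▸ hx), fun e => h.vJ (e ▸ hx)⟩

theorem Fin'.ne_of (h : Fin' S N u v K J p) {x y : α} (hx : x ∈ K) (hy : y ∈ J) : x ≠ y :=
  fun e => h.KJ x hx (e ▸ hy)

theorem Fin'.pne (h : Fin' S N u v K J p) {x : α} (hx : x ∈ K) : p x ≠ x := by
  intro e
  have := h.pN x hx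
  rw [e] at this
  exact h.irr x (h.nrK hx).1 this

/-- out-neighbours of roots are not roots -/
theorem Fin'.cases_u (h : Fin' S N u v K J p) {x : α} (hx : x ∈ N u) : x ∈ K ∨ x ∈ J := by
  obtain ⟨h1, h2, h3⟩ := h.mem_N_u hx
  rcases (h.mem x).1 h1 with h4 | h4 | h4 | h4
  · exact absurd h4 h2
  · exact absurd h4 h3
  · exact Or.inl h4
  · exact Or.inr h4

theorem Fin'.cases_v (h : Fin' S N u v K J p) {x : α} (hx : x ∈ N v) : x ∈ K ∨ x ∈ J :=
  h.symm.cases_u hx

/-- the pair `p x`, `x` is dominated by a root or a vertex of `J` -/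
theorem Fin'.pair (h : Fin' S N u v K J p) {x : α} (hx : x ∈ K) :
    (p x ∈ N u ∧ x ∈ N u) ∨ (p x ∈ N v ∧ x ∈ N v) ∨ ∃ z ∈ J, p x ∈ N z ∧ x ∈ N z := by
  obtain ⟨h1, h2, h3⟩ := h.nrK (h.pK x hx)
  obtain ⟨_, h5, h6⟩ := h.nrK hx
  obtain ⟨z, hz, e1, e2⟩ := h.l h1 h2 h3 h5 h6 (h.pN x hx)
  rcases (h.mem z).1 hz with rfl | rfl | hz | hz
  · exact Or.inl ⟨e1, e2⟩
  · exact Or.inr (Or.inl ⟨e1, e2⟩)
  · exact absurd (h.oU z hz _ (h.pK x hx) x hx e1 e2) (h.pne hx)
  · exact Or.inr (Or.inr ⟨z, hz, e1, e2⟩)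

/-- an out-neighbour on `K` of a vertex of `K` that is not the predecessor of `w` -/
theorem Fin'.nxt (h : Fin' S N u v K J p) {x : α} (hx : x ∈ K) :
    ∃ y ∈ K, y ∈ N x ∧ p y = x := by
  obtain ⟨y, hy, hy'⟩ := h.sK x hx
  exact ⟨y, hy, hy', (h.pU x hx y hy hy').symm⟩

theorem Fin'.rootu (h : Fin' S N u v K J p) {x : α} (hx : x ∈ K) (hu : x ∈ N u) :
    v ∈ N x := by
  rcases h.root x hx with h1 | h1
  · exact absurd h1 (h.k0 hu)
  · exact h1

theorem Fin'.rootv (h : Fin' S N u v K J p) {x : α} (hx : x ∈ K) (hv : x ∈ N v) :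
    u ∈ N x := h.symm.rootu hx hv

theorem Fin'.notboth (h : Fin' S N u v K J p) {x : α} (hx : x ∈ K) (hu : u ∈ N x)
    (hv : v ∈ N x) : False :=
  h.one x (h.nrK hx).1 (h.nrK hx).2.1 (h.nrK hx).2.2 ⟨hu, hv⟩

/-! ### The case `J = {s}` -/

/-- a separation used several times -/
theorem Fin'.kill1 (h : Fin' S N u v K J p) {s w b : α} (hJ : ∀ x, x ∈ J ↔ x = s)
    (hsu : s ∈ N u) (hw : w ∈ K) (hws : w ∈ N s) (hpw : v ∈ N (p w)) (hb : b ∈ N v)
    (hbs : b ≠ s) (hbw : b ≠ w) : False := by
  have hsJ : s ∈ J := (hJ s).2 rfl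
  obtain ⟨sS, su, sv⟩ := h.nrJ hsJ
  obtain ⟨wS, wu, wv⟩ := h.nrK hw
  have hKs : ∀ x ∈ K, s ∈ N x := by
    intro x hx
    obtain ⟨y, hy, hy'⟩ := h.jx x hx
    rwa [(hJ y).1 hy] at hy'
  refine h.compl (U := {u, s, w}) ?_ (by simp) ?_ ?_ ?_
  · intro z hz
    simp only [mem_insert, mem_singleton] at hz
    rcases hz with rfl | rfl | rfl
    · exact h.hu
    · exact sS
    · exact wS
  · simp only [mem_insert, mem_singleton, not_or]
    exact ⟨h.huv.symm, sv.symm, wv.symm⟩
  · intro z hz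
    simp only [mem_insert, mem_singleton] at hz
    rcases hz with rfl | rfl | rfl
    · exact ⟨s, by simp, hsu⟩
    · exact ⟨w, by simp, hws⟩
    · exact ⟨s, by simp, hKs _ hw⟩
  · intro z hz
    simp only [mem_sdiff, mem_insert, mem_singleton, not_or] at hz
    obtain ⟨hzS, hzu, hzs, hzw⟩ := hz
    rcases (h.mem z).1 hzS with h1 | h1 | h1 | h1
    · exact absurd h1 hzu
    · subst h1
      obtain ⟨bS, bu, _⟩ := h.mem_N_v hb
      refine ⟨b, ?_, hb⟩
      simp only [mem_sdiff, mem_insert, mem_singleton, not_or]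
      exact ⟨bS, bu, hbs, hbw⟩
    · obtain ⟨y, hy, hy', hpy⟩ := h.nxt h1
      by_cases hyw : y = w
      · subst hyw
        rw [hpy] at hpw
        refine ⟨v, ?_, hpw⟩
        simp only [mem_sdiff, mem_insert, mem_singleton, not_or]
        exact ⟨h.hv, h.huv.symm, sv.symm, wv.symm⟩
      · obtain ⟨yS, yu, yv⟩ := h.nrK hy
        refine ⟨y, ?_, hy'⟩
        simp only [mem_sdiff, mem_insert, mem_singleton, not_or]
        exact ⟨yS, yu, h.ne_of hy hsJ, hyw⟩
    · exact absurd ((hJ z).1 h1) hzs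

/-- `s` is dominated by both roots -/
theorem Fin'.one1 (h : Fin' S N u v K J p) {s : α} (hJ : ∀ x, x ∈ J ↔ x = s)
    (hsu : s ∈ N u) (hsv : s ∈ N v) : False := by
  have hsJ : s ∈ J := (hJ s).2 rfl
  obtain ⟨sS, su, sv⟩ := h.nrJ hsJ
  obtain ⟨a, ha, has⟩ := Finset.exists_mem_notMem_of_card_lt_card
    (s := {s}) (t := N u) (by rw [h.du]; simp)
  obtain ⟨b, hb, hbs⟩ := Finset.exists_mem_notMem_of_card_lt_card
    (s := {s}) (t := N v) (by rw [h.dv]; simp)
  rw [mem_singleton] at has hbs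
  obtain ⟨w, hw, hw'⟩ := Finset.exists_mem_notMem_of_card_lt_card
    (s := {a, b}) (t := N s) (by
      rw [h.d s sS su sv]
      exact lt_of_le_of_lt (card_le_two) (by norm_num))
  simp only [mem_insert, mem_singleton, not_or] at hw'
  have hwK : w ∈ K := by
    rcases (h.mem w).1 (h.sub s sS hw) with h1 | h1 | h1 | h1
    · exact absurd (h1 ▸ hw) (h.k0 hsu)
    · exact absurd (h1 ▸ hw) (h.toCtx.symm.k0 hsv)
    · exact h1
    · exact absurd ((hJ w).1 h1 ▸ hw) (h.irr s sS)
  rcases h.root (p w) (h.pK w hwK) with h1 | h1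
  · exact h.symm.kill1 hJ hsv hwK hw h1 ha has (Ne.symm hw'.1)
  · exact h.kill1 hJ hsu hwK hw h1 hb hbs (Ne.symm hw'.2)

/-- `s` is dominated by `u` only -/
theorem Fin'.one2 (h : Fin' S N u v K J p) {s : α} (hJ : ∀ x, x ∈ J ↔ x = s)
    (hsu : s ∈ N u) (hsv : s ∉ N v) : False := by
  have hsJ : s ∈ J := (hJ s).2 rfl
  obtain ⟨sS, su, sv⟩ := h.nrJ hsJ
  have hKs : ∀ x ∈ K, s ∈ N x := by
    intro x hx
    obtain ⟨y, hy, hy'⟩ := h.jx x hx
    rwa [(hJ y).1 hy] at hy'
  obtain ⟨a, ha, has⟩ := Finset.exists_mem_notMem_of_card_lt_card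
    (s := {s}) (t := N u) (by rw [h.du]; simp)
  rw [mem_singleton] at has
  have hNu : ∀ x ∈ N u, x = s ∨ x = a := by
    intro x hx
    by_contra hc
    push Not at hc
    have hsub : ({s, a, x} : Finset α) ⊆ N u := by
      intro z hz
      simp only [mem_insert, mem_singleton] at hz
      rcases hz with rfl | rfl | rfl <;> assumption
    have h3 : ({s, a, x} : Finset α).card = 3 :=
      card_eq_three.2 ⟨s, a, x, Ne.symm has, Ne.symm hc.1, Ne.symm hc.2, rfl⟩
    have := card_le_card hsub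
    rw [h3, h.du] at this
    omega
  have haK : a ∈ K := by
    rcases h.cases_u ha with h1 | h1
    · exact h1
    · exact absurd ((hJ a).1 h1) has
  have hva : v ∈ N a := h.rootu haK ha
  have hvK : ∀ b ∈ N v, b ∈ K ∧ b ≠ s := by
    intro b hb
    have hbs : b ≠ s := fun e => hsv (e ▸ hb)
    rcases h.cases_v hb with h1 | h1
    · exact ⟨h1, hbs⟩
    · exact absurd ((hJ b).1 h1) hbs
  -- an out-neighbour of `s` on `K` different from `a`
  obtain ⟨w, hw, hwa, hwK⟩ : ∃ w ∈ N s, w ≠ a ∧ w ∈ K := by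
    obtain ⟨w, hw, hw'⟩ := Finset.exists_mem_notMem_of_card_lt_card
      (s := {a, v}) (t := N s) (by
        rw [h.d s sS su sv]
        exact lt_of_le_of_lt (card_le_two) (by norm_num))
    simp only [mem_insert, mem_singleton, not_or] at hw'
    refine ⟨w, hw, hw'.1, ?_⟩
    rcases (h.mem w).1 (h.sub s sS hw) with h1 | h1 | h1 | h1
    · exact absurd (h1 ▸ hw) (h.k0 hsu)
    · exact absurd h1 hw'.2
    · exact h1
    · exact absurd ((hJ w).1 h1 ▸ hw) (h.irr s sS)
  have step1 : ∀ w ∈ K, w ∈ N s → u ∈ N (p w) := by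
    intro w hwK hw
    rcases h.root (p w) (h.pK w hwK) with h1 | h1
    · exact h1
    · obtain ⟨b, hb, hbw⟩ := Finset.exists_mem_notMem_of_card_lt_card
        (s := {w}) (t := N v) (by rw [h.dv]; simp)
      rw [mem_singleton] at hbw
      exact absurd (h.kill1 hJ hsu hwK hw h1 hb (hvK b hb).2 hbw) id
  obtain ⟨b, hb⟩ : (N v).Nonempty := by rw [← card_pos, h.dv]; norm_num
  obtain ⟨hbK, hbs⟩ := hvK b hb
  have hab : a ≠ b := by
    rintro rfl
    exact h.toCtx.symm.k0 hb hva
  obtain ⟨bS, bu, bv⟩ := h.nrK hbK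
  obtain ⟨wS, wu, wv⟩ := h.nrK hwK
  have step2 : u ∉ N (p b) := by
    intro hupb
    refine h.symm.compl (U := {v, b, s, w}) ?_ (by simp) ?_ ?_ ?_
    · intro z hz
      simp only [mem_insert, mem_singleton] at hz
      rcases hz with rfl | rfl | rfl | rfl
      · exact h.hv
      · exact bS
      · exact sS
      · exact wS
    · simp only [mem_insert, mem_singleton, not_or]
      exact ⟨h.huv, bu.symm, su.symm, wu.symm⟩
    · intro z hz
      simp only [mem_insert, mem_singleton] at hz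
      rcases hz with rfl | rfl | rfl | rfl
      · exact ⟨b, by simp, hb⟩
      · exact ⟨s, by simp, hKs _ hbK⟩
      · exact ⟨w, by simp, hw⟩
      · exact ⟨s, by simp, hKs _ hwK⟩
    · intro z hz
      simp only [mem_sdiff, mem_insert, mem_singleton, not_or] at hz
      obtain ⟨hzS, hzv, hzb, hzs, hzw⟩ := hz
      have huU : u ∈ S \ {v, b, s, w} := by
        simp only [mem_sdiff, mem_insert, mem_singleton, not_or]
        exact ⟨h.hu, h.huv, bu.symm, su.symm, wu.symm⟩
      rcases (h.mem z).1 hzS with h1 | h1 | h1 | h1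
      · subst h1
        obtain ⟨aS, au, av⟩ := h.nrK haK
        refine ⟨a, ?_, ha⟩
        simp only [mem_sdiff, mem_insert, mem_singleton, not_or]
        exact ⟨aS, av, hab, has, Ne.symm hwa⟩
      · exact absurd h1 hzv
      · obtain ⟨y, hy, hy', hpy⟩ := h.nxt h1
        by_cases hyw : y = w
        · subst hyw
          have := step1 y hy hw
          rw [hpy] at this
          exact ⟨u, huU, this⟩
        by_cases hyb : y = b
        · subst hyb
          rw [hpy] at hupb
          exact ⟨u, huU, hupb⟩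
        obtain ⟨yS, yu, yv⟩ := h.nrK hy
        refine ⟨y, ?_, hy'⟩
        simp only [mem_sdiff, mem_insert, mem_singleton, not_or]
        exact ⟨yS, yv, hyb, h.ne_of hy hsJ, hyw⟩
      · exact absurd ((hJ z).1 h1) hzs
  have hvpb : v ∈ N (p b) := by
    rcases h.root (p b) (h.pK b hbK) with h1 | h1
    · exact absurd h1 step2
    · exact h1
  have hbs' : b ∉ N s := fun hh => step2 (step1 b hbK hh)
  rcases h.pair hbK with ⟨_, h1⟩ | ⟨h1, _⟩ | ⟨z, hz, _, h1⟩
  · rcases hNu b h1 with h2 | h2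
    · exact hbs h2
    · exact hab h2.symm
  · exact h.toCtx.symm.k0 h1 hvpb
  · rw [(hJ z).1 hz] at h1
    exact hbs' h1

/-- the core of the last case -/
theorem Fin'.one4aux (h : Fin' S N u v K J p) {s a b : α} (hJ : ∀ x, x ∈ J ↔ x = s)
    (hsu : s ∉ N u) (hsv : s ∉ N v) (ha : a ∈ N u) (hb : b ∈ N v) (hpa : p a = b)
    (h1 : p b ∈ N s) (h2 : b ∈ N s) (h3 : a ∈ N s) : False := by
  classical
  have hsJ : s ∈ J := (hJ s).2 rfl
  obtain ⟨sS, su, sv⟩ := h.nrJ hsJ
  have huK : ∀ x ∈ N u, x ∈ K := by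
    intro x hx
    rcases h.cases_u hx with h4 | h4
    · exact h4
    · exact absurd ((hJ x).1 h4 ▸ hx) hsu
  have hvK : ∀ x ∈ N v, x ∈ K := by
    intro x hx
    rcases h.cases_v hx with h4 | h4
    · exact h4
    · exact absurd ((hJ x).1 h4 ▸ hx) hsv
  have disj : ∀ x, x ∈ N u → x ∈ N v → False := by
    intro x hx hx'
    exact h.notboth (huK x hx) (h.rootv (huK x hx) hx') (h.rootu (huK x hx) hx)
  have haK := huK a ha
  have hbK := hvK b hb
  have hab : a ≠ b := fun e => disj a ha (e ▸ hb)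
  obtain ⟨b', hb', hbb'⟩ := Finset.exists_mem_notMem_of_card_lt_card
    (s := {b}) (t := N v) (by rw [h.dv]; simp)
  obtain ⟨a', ha', haa'⟩ := Finset.exists_mem_notMem_of_card_lt_card
    (s := {a}) (t := N u) (by rw [h.du]; simp)
  rw [mem_singleton] at hbb' haa'
  have hb'K := hvK b' hb'
  have ha'K := huK a' ha'
  have ab' : a ≠ b' := fun e => disj a ha (e ▸ hb')
  have a'b : a' ≠ b := fun e => disj a' ha' (e ▸ hb)
  have a'b' : a' ≠ b' := fun e => disj a' ha' (e ▸ hb')
  have aNb : a ∈ N b := by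
    have := h.pN a haK
    rwa [hpa] at this
  -- `p b' ≠ b`
  have pb' : p b' ≠ b := by
    intro e
    have h4 := h.pN b' hb'K
    rw [e] at h4
    exact ab' (h.oU b hbK a haK b' hb'K aNb h4)
  by_cases hea : p b = a
  · have hB : ({a, b} : Finset α) = K := by
      apply h.con
      · intro z hz
        simp only [mem_insert, mem_singleton] at hz
        rcases hz with rfl | rfl <;> assumption
      · exact ⟨a, by simp⟩
      · intro z hz
        simp only [mem_insert, mem_singleton] at hz ⊢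
        rcases hz with rfl | rfl
        · exact Or.inr hpa
        · exact Or.inl hea
    rw [← hB] at hb'K
    simp only [mem_insert, mem_singleton] at hb'K
    rcases hb'K with h4 | h4
    · exact ab' h4.symm
    · exact hbb' h4
  have hNs : ∀ x ∈ N s, x = p b ∨ x = b ∨ x = a := by
    intro x hx
    by_contra hc
    push Not at hc
    have hsub : ({x, p b, b, a} : Finset α) ⊆ N s := by
      intro z hz
      simp only [mem_insert, mem_singleton] at hz
      rcases hz with rfl | rfl | rfl | rfl <;> assumption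
    have hc4 : ({x, p b, b, a} : Finset α).card = 4 := by
      rw [card_insert_of_notMem, card_insert_of_notMem, card_pair hab.symm]
      · simp only [mem_insert, mem_singleton, not_or]
        exact ⟨h.pne hbK, hea⟩
      · simp only [mem_insert, mem_singleton, not_or]
        exact hc
    have := card_le_card hsub
    rw [hc4, h.d s sS su sv] at this
    omega
  have hb's : p b' ∈ N s ∧ b' ∈ N s := by
    rcases h.pair hb'K with ⟨_, h4⟩ | ⟨h4, _⟩ | ⟨z, hz, h4, h5⟩
    · exact absurd hb' (fun _ => disj b' h4 hb')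
    · exfalso
      have hsub : ({p b', b', b} : Finset α) ⊆ N v := by
        intro z hz
        simp only [mem_insert, mem_singleton] at hz
        rcases hz with rfl | rfl | rfl <;> assumption
      have h3' : ({p b', b', b} : Finset α).card = 3 :=
        card_eq_three.2 ⟨p b', b', b, h.pne hb'K, pb', hbb', rfl⟩
      have := card_le_card hsub
      rw [h3', h.dv] at this
      omega
    · rw [(hJ z).1 hz] at h4 h5
      exact ⟨h4, h5⟩
  have e1 : b' = p b := by
    rcases hNs b' hb's.2 with h4 | h4 | h4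
    · exact h4
    · exact absurd h4 hbb'
    · exact absurd h4.symm ab'
  have e2 : p b' = a := by
    rcases hNs _ hb's.1 with h4 | h4 | h4
    · rw [← e1] at h4
      exact absurd h4 (h.pne hb'K)
    · exact absurd h4 pb'
    · exact h4
  have hB : ({a, b, b'} : Finset α) = K := by
    apply h.con
    · intro z hz
      simp only [mem_insert, mem_singleton] at hz
      rcases hz with rfl | rfl | rfl <;> assumption
    · exact ⟨a, by simp⟩
    · intro z hz
      simp only [mem_insert, mem_singleton] at hz ⊢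
      rcases hz with rfl | rfl | rfl
      · exact Or.inr (Or.inl hpa)
      · exact Or.inr (Or.inr e1.symm)
      · exact Or.inl e2
  rw [← hB] at ha'K
  simp only [mem_insert, mem_singleton] at ha'K
  rcases ha'K with h4 | h4 | h4
  · exact haa' h4
  · exact a'b h4
  · exact a'b' h4

/-- `s` is not dominated by a root -/
theorem Fin'.one4 (h : Fin' S N u v K J p) {s : α} (hJ : ∀ x, x ∈ J ↔ x = s)
    (hsu : s ∉ N u) (hsv : s ∉ N v) : False := by
  classical
  have hsJ : s ∈ J := (hJ s).2 rfl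
  obtain ⟨sS, su, sv⟩ := h.nrJ hsJ
  have gen : ∀ {u v : α}, Fin' S N u v K J p → s ∉ N u → s ∉ N v →
      ∃ a ∈ N u, a ∈ K ∧ p a ∈ N s ∧ a ∈ N s := by
    intro u v h hsu hsv
    have huK : ∀ x ∈ N u, x ∈ K := by
      intro x hx
      rcases h.cases_u hx with h4 | h4
      · exact h4
      · exact absurd ((hJ x).1 h4 ▸ hx) hsu
    have hvK : ∀ x ∈ N v, x ∈ K := by
      intro x hx
      rcases h.cases_v hx with h4 | h4
      · exact h4
      · exact absurd ((hJ x).1 h4 ▸ hx) hsv
    have disj : ∀ x, x ∈ N u → x ∈ N v → False := by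
      intro x hx hx'
      exact h.notboth (huK x hx) (h.rootv (huK x hx) hx') (h.rootu (huK x hx) hx)
    by_contra hc
    push Not at hc
    have hB : N u = K := by
      apply h.con _ huK
      · rw [← card_pos, h.du]
        norm_num
      · intro x hx
        have hxK := huK x hx
        rcases h.pair hxK with ⟨h4, _⟩ | ⟨_, h4⟩ | ⟨z, hz, h4, h5⟩
        · exact h4
        · exact absurd h4 (fun _ => disj x hx h4)
        · rw [(hJ z).1 hz] at h4 h5
          exact absurd h5 (hc x hx hxK h4)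
    obtain ⟨b, hb⟩ : (N v).Nonempty := by rw [← card_pos, h.dv]; norm_num
    exact disj b (hB.symm ▸ hvK b hb) hb
  obtain ⟨a, ha, haK, h1, h2⟩ := gen h hsu hsv
  obtain ⟨b, hb, hbK, h3, h4⟩ := gen h.symm hsv hsu
  have hab : a ≠ b := by
    rintro rfl
    exact h.notboth haK (h.rootv haK hb) (h.rootu haK ha)
  have hpab : p a ≠ p b := by
    intro e
    have e1 := h.pN a haK
    have e2 := h.pN b hbK
    rw [← e] at e2
    exact hab (h.oU _ (h.pK a haK) a haK b hbK e1 e2)
  by_cases e1 : p a = b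
  · exact h.one4aux hJ hsu hsv ha hb e1 h3 h4 h2
  by_cases e2 : p b = a
  · exact h.symm.one4aux hJ hsv hsu hb ha e2 h1 h2 h4
  have hsub : ({p a, a, p b, b} : Finset α) ⊆ N s := by
    intro z hz
    simp only [mem_insert, mem_singleton] at hz
    rcases hz with rfl | rfl | rfl | rfl <;> assumption
  have hc4 : ({p a, a, p b, b} : Finset α).card = 4 := by
    rw [card_insert_of_notMem, card_insert_of_notMem, card_pair (h.pne hbK)]
    · simp only [mem_insert, mem_singleton, not_or]
      exact ⟨Ne.symm e2, hab⟩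
    · simp only [mem_insert, mem_singleton, not_or]
      exact ⟨h.pne haK, hpab, e1⟩
  have := card_le_card hsub
  rw [hc4, h.d s sS su sv] at this
  omega

theorem Fin'.single (h : Fin' S N u v K J p) {s : α} (hJ : ∀ x, x ∈ J ↔ x = s) : False := by
  by_cases h1 : s ∈ N u
  · by_cases h2 : s ∈ N v
    · exact h.one1 hJ h1 h2
    · exact h.one2 hJ h1 h2
  · by_cases h2 : s ∈ N v
    · exact h.symm.one2 hJ h2 h1
    · exact h.one4 hJ h1 h2

end

end Pool.Agent.N257.FP
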