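import Pool.Agent.N257.FP.Fin1

set_option linter.unusedSectionVars false

namespace Pool.Agent.N257.FP

open Finset

variable {α : Type*} [DecidableEq α]

section

variable {S : Finset α} {N : α → Finset α} {u v : α} {K J : Finset α} {p : α → α}

/-- the final contradiction when the source `s` of `J` is dominated by all of `K`,
`J = {s, j}` -/
theorem Fin'.al2 (h : Fin' S N u v K J p) {s j b : α} (hJ : ∀ x, x ∈ J ↔ x = s ∨ x = j)
    (hsj : s ≠ j) (hKs : ∀ x ∈ K, s ∈ N x) (hNj : s ∉ N j)
    (su' : s ∈ N u) (ju : j ∈ N u) (jv : j ∈ N v) (bv' : b ∈ N v) (hbj : b ≠ j) (hbs : b ≠ s) :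
    False := by
  classical
  have hsJ : s ∈ J := (hJ s).2 (Or.inl rfl)
  have hjJ : j ∈ J := (hJ j).2 (Or.inr rfl)
  obtain ⟨sS, su, sv⟩ := h.nrJ hsJ
  obtain ⟨jS, ju', jv'⟩ := h.nrJ hjJ
  have hbK : b ∈ K := by
    rcases h.cases_v bv' with h1 | h1
    · exact h1
    · rcases (hJ b).1 h1 with h2 | h2
      · exact absurd h2 hbs
      · exact absurd h2 hbj
  obtain ⟨bS, bu, bv⟩ := h.nrK hbK
  have hjK : ∀ w ∈ N j, w ∈ K := by
    intro w hw
    rcases (h.mem w).1 (h.sub j jS hw) with h1 | h1 | h1 | h1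
    · exact absurd (h1 ▸ hw) (h.k0 ju)
    · exact absurd (h1 ▸ hw) (h.toCtx.symm.k0 jv)
    · exact h1
    · rcases (hJ w).1 h1 with h2 | h2
      · exact absurd (h2 ▸ hw) hNj
      · exact absurd (h2 ▸ hw) (h.irr j jS)
  obtain ⟨w, hw, hwK⟩ : ∃ w ∈ N s, w ∈ K := by
    obtain ⟨w, hw, hw'⟩ := Finset.exists_mem_notMem_of_card_lt_card
      (s := {j, v}) (t := N s) (by
        rw [h.d s sS su sv]
        exact lt_of_le_of_lt (card_le_two) (by norm_num))
    simp only [mem_insert, mem_singleton, not_or] at hw'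
    refine ⟨w, hw, ?_⟩
    rcases (h.mem w).1 (h.sub s sS hw) with h1 | h1 | h1 | h1
    · exact absurd (h1 ▸ hw) (h.k0 su')
    · exact absurd h1 hw'.2
    · exact h1
    · rcases (hJ w).1 h1 with h2 | h2
      · exact absurd (h2 ▸ hw) (h.irr s sS)
      · exact absurd h2 hw'.1
  obtain ⟨wS, wu, wv⟩ := h.nrK hwK
  have step1 : ∀ w ∈ K, w ∈ N s → v ∉ N (p w) := by
    intro w hwK hw hpw
    obtain ⟨wS, wu, wv⟩ := h.nrK hwK
    refine h.compl (U := {u, s, w}) ?_ (by simp) ?_ ?_ ?_
    · intro z hz
      simp only [mem_insert, mem_singleton] at hz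
      rcases hz with rfl | rfl | rfl
      · exact h.hu
      · exact sS
      · exact wS
    · simp only [mem_insert, mem_singleton, not_or]
      exact ⟨h.huv.symm, sv.symm, wv.symm⟩
    · intro z hz
      simp only [mem_insert, mem_singleton] at hz
      rcases hz with rfl | rfl | rfl
      · exact ⟨s, by simp, su'⟩
      · exact ⟨w, by simp, hw⟩
      · exact ⟨s, by simp, hKs _ hwK⟩
    · intro z hz
      simp only [mem_sdiff, mem_insert, mem_singleton, not_or] at hz
      obtain ⟨hzS, hzu, hzs, hzw⟩ := hz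
      rcases (h.mem z).1 hzS with h1 | h1 | h1 | h1
      · exact absurd h1 hzu
      · subst h1
        refine ⟨j, ?_, jv⟩
        simp only [mem_sdiff, mem_insert, mem_singleton, not_or]
        exact ⟨jS, ju', hsj.symm, (h.ne_of hwK hjJ).symm⟩
      · obtain ⟨y, hy, hy', hpy⟩ := h.nxt h1
        by_cases hyw : y = w
        · subst hyw
          rw [hpy] at hpw
          refine ⟨v, ?_, hpw⟩
          simp only [mem_sdiff, mem_insert, mem_singleton, not_or]
          exact ⟨h.hv, h.huv.symm, sv.symm, wv.symm⟩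
        · obtain ⟨yS, yu, yv⟩ := h.nrK hy
          refine ⟨y, ?_, hy'⟩
          simp only [mem_sdiff, mem_insert, mem_singleton, not_or]
          exact ⟨yS, yu, h.ne_of hy hsJ, hyw⟩
      · rcases (hJ z).1 h1 with h2 | h2
        · exact absurd h2 hzs
        · subst h2
          obtain ⟨y, hy, hy'⟩ := Finset.exists_mem_notMem_of_card_lt_card
            (s := {w}) (t := N z) (by rw [h.d z jS ju' jv']; simp)
          rw [mem_singleton] at hy'
          have hyK := hjK y hy
          obtain ⟨yS, yu, yv⟩ := h.nrK hyK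
          refine ⟨y, ?_, hy⟩
          simp only [mem_sdiff, mem_insert, mem_singleton, not_or]
          exact ⟨yS, yu, h.ne_of hyK hsJ, hy'⟩
  have step1' : ∀ w ∈ K, w ∈ N s → u ∈ N (p w) := by
    intro w hwK hw
    rcases h.root (p w) (h.pK w hwK) with h1 | h1
    · exact h1
    · exact absurd h1 (step1 w hwK hw)
  have step2 : ¬ (p b = w ∨ u ∈ N (p b)) := by
    intro hor
    refine h.symm.compl (U := {v, b, s, w}) ?_ (by simp) ?_ ?_ ?_
    · intro z hz
      simp only [mem_insert, mem_singleton] at hz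
      rcases hz with rfl | rfl | rfl | rfl
      · exact h.hv
      · exact bS
      · exact sS
      · exact wS
    · simp only [mem_insert, mem_singleton, not_or]
      exact ⟨h.huv, bu.symm, su.symm, wu.symm⟩
    · intro z hz
      simp only [mem_insert, mem_singleton] at hz
      rcases hz with rfl | rfl | rfl | rfl
      · exact ⟨b, by simp, bv'⟩
      · exact ⟨s, by simp, hKs _ hbK⟩
      · exact ⟨w, by simp, hw⟩
      · exact ⟨s, by simp, hKs _ hwK⟩
    · intro z hz
      simp only [mem_sdiff, mem_insert, mem_singleton, not_or] at hz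
      obtain ⟨hzS, hzv, hzb, hzs, hzw⟩ := hz
      have huU : u ∈ S \ {v, b, s, w} := by
        simp only [mem_sdiff, mem_insert, mem_singleton, not_or]
        exact ⟨h.hu, h.huv, bu.symm, su.symm, wu.symm⟩
      rcases (h.mem z).1 hzS with h1 | h1 | h1 | h1
      · subst h1
        refine ⟨j, ?_, ju⟩
        simp only [mem_sdiff, mem_insert, mem_singleton, not_or]
        exact ⟨jS, jv', (Ne.symm hbj), hsj.symm, (h.ne_of hwK hjJ).symm⟩
      · exact absurd h1 hzv
      · obtain ⟨y, hy, hy', hpy⟩ := h.nxt h1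
        by_cases hyw : y = w
        · subst hyw
          have := step1' y hy hw
          rw [hpy] at this
          exact ⟨u, huU, this⟩
        by_cases hyb : y = b
        · subst hyb
          rcases hor with hor | hor
          · exact absurd (hpy.symm.trans hor) hzw
          · rw [hpy] at hor
            exact ⟨u, huU, hor⟩
        obtain ⟨yS, yu, yv⟩ := h.nrK hy
        refine ⟨y, ?_, hy'⟩
        simp only [mem_sdiff, mem_insert, mem_singleton, not_or]
        exact ⟨yS, yv, hyb, h.ne_of hy hsJ, hyw⟩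
      · rcases (hJ z).1 h1 with h2 | h2
        · exact absurd h2 hzs
        · subst h2
          obtain ⟨y, hy, hy'⟩ := Finset.exists_mem_notMem_of_card_lt_card
            (s := {b, w}) (t := N z) (by
              rw [h.d z jS ju' jv']
              exact lt_of_le_of_lt (card_le_two) (by norm_num))
          simp only [mem_insert, mem_singleton, not_or] at hy'
          have hyK := hjK y hy
          obtain ⟨yS, yu, yv⟩ := h.nrK hyK
          refine ⟨y, ?_, hy⟩
          simp only [mem_sdiff, mem_insert, mem_singleton, not_or]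
          exact ⟨yS, yv, hy'.1, h.ne_of hyK hsJ, hy'.2⟩
  push Not at step2
  obtain ⟨hpbw, hupb⟩ := step2
  have hvpb : v ∈ N (p b) := by
    rcases h.root (p b) (h.pK b hbK) with h1 | h1
    · exact absurd h1 hupb
    · exact h1
  have hbs' : b ∉ N s := fun hh => hupb (step1' b hbK hh)
  have hjpb : p b ∈ N j := by
    rcases h.pair hbK with ⟨_, h1⟩ | ⟨h1, _⟩ | ⟨z, hz, h2, h1⟩
    · exfalso
      have hsub : ({s, j, b} : Finset α) ⊆ N u := by
        intro z hz
        simp only [mem_insert, mem_singleton] at hz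
        rcases hz with rfl | rfl | rfl <;> assumption
      have h3 : ({s, j, b} : Finset α).card = 3 :=
        card_eq_three.2 ⟨s, j, b, hsj, Ne.symm hbs, Ne.symm hbj, rfl⟩
      have := card_le_card hsub
      rw [h3, h.du] at this
      omega
    · exact absurd hvpb (h.toCtx.symm.k0 h1)
    · rcases (hJ z).1 hz with h3 | h3
      · rw [h3] at h1
        exact absurd h1 hbs'
      · rw [h3] at h2
        exact h2
  have hpbK := h.pK b hbK
  obtain ⟨eS, eu, ev⟩ := h.nrK hpbK
  -- `W = {v, j, p b}`
  refine h.symm.compl (U := {v, j, p b}) ?_ (by simp) ?_ ?_ ?_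
  · intro z hz
    simp only [mem_insert, mem_singleton] at hz
    rcases hz with rfl | rfl | rfl
    · exact h.hv
    · exact jS
    · exact eS
  · simp only [mem_insert, mem_singleton, not_or]
    exact ⟨h.huv, ju'.symm, eu.symm⟩
  · intro z hz
    simp only [mem_insert, mem_singleton] at hz
    rcases hz with rfl | rfl | rfl
    · exact ⟨j, by simp, jv⟩
    · exact ⟨p b, by simp, hjpb⟩
    · exact ⟨v, by simp, hvpb⟩
  · intro z hz
    simp only [mem_sdiff, mem_insert, mem_singleton, not_or] at hz
    obtain ⟨hzS, hzv, hzj, hze⟩ := hz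
    have hsU : s ∈ S \ {v, j, p b} := by
      simp only [mem_sdiff, mem_insert, mem_singleton, not_or]
      exact ⟨sS, sv, hsj, (h.ne_of hpbK hsJ).symm⟩
    rcases (h.mem z).1 hzS with h1 | h1 | h1 | h1
    · subst h1
      exact ⟨s, hsU, su'⟩
    · exact absurd h1 hzv
    · exact ⟨s, hsU, hKs z h1⟩
    · rcases (hJ z).1 h1 with h2 | h2
      · subst h2
        refine ⟨w, ?_, hw⟩
        simp only [mem_sdiff, mem_insert, mem_singleton, not_or]
        exact ⟨wS, wv, h.ne_of hwK hjJ, Ne.symm hpbw⟩
      · exact absurd h2 hzj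

theorem card_two_cases {T : Finset α} (hT : T.card = 2) {x y z : α} (hx : x ∈ T) (hy : y ∈ T)
    (hxy : x ≠ y) (hz : z ∈ T) : z = x ∨ z = y := by
  classical
  by_contra hc
  push Not at hc
  have hsub : ({z, x, y} : Finset α) ⊆ T := by
    intro w hw
    simp only [mem_insert, mem_singleton] at hw
    rcases hw with rfl | rfl | rfl <;> assumption
  have h3 : ({z, x, y} : Finset α).card = 3 := card_eq_three.2 ⟨z, x, y, hc.1, hc.2, hxy, rfl⟩
  have := card_le_card hsub
  rw [h3, hT] at this
  omega

/-- the source `s` of `J` is dominated by all of `K` and by `u`, together with `j` -/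
theorem Fin'.al1 (h : Fin' S N u v K J p) {s j : α} (hsJ : s ∈ J) (hjJ : j ∈ J) (hsj : s ≠ j)
    (hsrc : ∀ y ∈ J, s ∉ N y) (hKs : ∀ x ∈ K, s ∈ N x)
    (hjin : ∀ y ∈ S, j ∈ N y → y = u ∨ y = v ∨ y = s)
    (su' : s ∈ N u) (ju : j ∈ N u) : False := by
  classical
  obtain ⟨sS, su, sv⟩ := h.nrJ hsJ
  obtain ⟨jS, ju', jv'⟩ := h.nrJ hjJ
  have jv : j ∈ N v := by
    rcases h.m jS ju' jv' (Or.inl ju) with h1 | ⟨z, hz, hzu, hzv, h1, h2⟩
    · exact h1
    · rcases hjin z hz h2 with h3 | h3 | h3
      · exact absurd h3 hzu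
      · exact absurd h3 hzv
      · rw [h3] at h1
        exact absurd h1 (h.k0 su')
  have sNv : s ∉ N v := by
    intro hh
    apply h.f6
    have e1 : N u = {s, j} := by
      symm
      apply eq_of_subset_of_card_le
      · intro z hz
        simp only [mem_insert, mem_singleton] at hz
        rcases hz with rfl | rfl <;> assumption
      · rw [h.du, card_pair hsj]
    have e2 : N v = {s, j} := by
      symm
      apply eq_of_subset_of_card_le
      · intro z hz
        simp only [mem_insert, mem_singleton] at hz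
        rcases hz with rfl | rfl <;> assumption
      · rw [h.dv, card_pair hsj]
    rw [e1, e2]
  obtain ⟨b, hb, hbj⟩ := Finset.exists_mem_notMem_of_card_lt_card
    (s := {j}) (t := N v) (by rw [h.dv]; simp)
  rw [mem_singleton] at hbj
  have hbs : b ≠ s := fun e => sNv (e ▸ hb)
  have hNu : ∀ x ∈ N u, x = s ∨ x = j := fun x hx => card_two_cases h.du su' ju hsj hx
  have hNv : ∀ x ∈ N v, x = j ∨ x = b := fun x hx => card_two_cases h.dv jv hb (Ne.symm hbj) hx
  have hJall : ∀ x, x ∈ J ↔ x = s ∨ x = j := by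
    by_contra hc
    have hne : ((J.erase s).erase j).Nonempty := by
      by_contra hem
      rw [not_nonempty_iff_eq_empty] at hem
      apply hc
      intro x
      constructor
      · intro hx
        by_contra hx'
        push Not at hx'
        have : x ∈ (J.erase s).erase j := mem_erase.2 ⟨hx'.2, mem_erase.2 ⟨hx'.1, hx⟩⟩
        rw [hem] at this
        exact notMem_empty x this
      · rintro (rfl | rfl) <;> assumption
    obtain ⟨j2, hj2, hsrc2⟩ := exists_source (N := N) hne (fun U hU => h.ac U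
      (hU.trans ((erase_subset _ _).trans (erase_subset _ _))))
    obtain ⟨hj2j, hj2s, hj2J⟩ : j2 ≠ j ∧ j2 ≠ s ∧ j2 ∈ J := by
      rw [mem_erase, mem_erase] at hj2
      exact hj2
    obtain ⟨j2S, j2u, j2v⟩ := h.nrJ hj2J
    have in2 : ∀ y ∈ S, j2 ∈ N y → (y = v ∧ j2 = b) ∨ y = s ∨ y = j := by
      intro y hy hjy
      rcases (h.mem y).1 hy with h1 | h1 | h1 | h1
      · subst h1
        rcases hNu j2 hjy with h2 | h2
        · exact absurd h2 hj2s
        · exact absurd h2 hj2j
      · subst h1
        rcases hNv j2 hjy with h2 | h2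
        · exact absurd h2 hj2j
        · exact Or.inl ⟨rfl, h2⟩
      · exact absurd (h.jU y h1 s hsJ j2 hj2J (hKs y h1) hjy) (Ne.symm hj2s)
      · by_cases h2 : y = s
        · exact Or.inr (Or.inl h2)
        by_cases h3 : y = j
        · exact Or.inr (Or.inr h3)
        · exact absurd hjy (hsrc2 y (mem_erase.2 ⟨h3, mem_erase.2 ⟨h2, h1⟩⟩))
    have nsj2 : j2 ∉ N s := by
      intro hh
      obtain ⟨z, hz, h1, h2⟩ := h.l sS su sv j2u j2v hh
      rcases in2 z hz h2 with h3 | h3 | h3
      · rw [h3.1] at h1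
        exact sNv h1
      · rw [h3] at h1
        exact h.irr s sS h1
      · rw [h3] at h1
        exact hsrc j hjJ h1
    have njj2 : j2 ∈ N j := by
      obtain ⟨y, hy, hyu, hyv, h1⟩ := h.r0 j2S j2u j2v
      rcases in2 y hy h1 with h3 | h3 | h3
      · exact absurd h3.1 hyv
      · rw [h3] at h1
        exact absurd h1 nsj2
      · rw [h3] at h1
        exact h1
    have j2v' : j2 ∈ N v := by
      obtain ⟨z, hz, h1, h2⟩ := h.l jS ju' jv' j2u j2v njj2
      rcases in2 z hz h2 with h3 | h3 | h3
      · rw [h3.1] at h2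
        exact h2
      · rw [h3] at h2
        exact absurd h2 nsj2
      · rw [h3] at h1
        exact absurd h1 (h.irr j jS)
    rcases h.toCtx.symm.m j2S j2v j2u (Or.inl j2v') with h1 | ⟨z, hz, hzv, hzu, h1, h2⟩
    · rcases hNu j2 h1 with h2 | h2
      · exact hj2s h2
      · exact hj2j h2
    · rcases in2 z hz h2 with h3 | h3 | h3
      · exact hzv h3.1
      · rw [h3] at h2
        exact nsj2 h2
      · rw [h3] at h1
        exact h.toCtx.symm.k0 jv h1
  exact h.al2 hJall hsj hKs (hsrc j hjJ) su' ju jv hb hbj hbs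

/-- the source `s` of `J` is not dominated by all of `K` -/
theorem Fin'.al (h : Fin' S N u v K J p) {s : α} (hsJ : s ∈ J)
    (hsrc : ∀ y ∈ J, s ∉ N y) (hKs : ∀ x ∈ K, s ∈ N x) : False := by
  classical
  obtain ⟨sS, su, sv⟩ := h.nrJ hsJ
  by_cases hne : (J.erase s).Nonempty
  · obtain ⟨j, hj, hsrcj⟩ := exists_source (N := N) hne (fun U hU => h.ac U
      (hU.trans (erase_subset _ _)))
    obtain ⟨hjs, hjJ⟩ := mem_erase.1 hj
    obtain ⟨jS, ju', jv'⟩ := h.nrJ hjJ
    have hjin : ∀ y ∈ S, j ∈ N y → y = u ∨ y = v ∨ y = s := by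
      intro y hy hjy
      rcases (h.mem y).1 hy with h1 | h1 | h1 | h1
      · exact Or.inl h1
      · exact Or.inr (Or.inl h1)
      · exact absurd (h.jU y h1 s hsJ j hjJ (hKs y h1) hjy) (Ne.symm hjs)
      · by_cases h2 : y = s
        · exact Or.inr (Or.inr h2)
        · exact absurd hjy (hsrcj y (mem_erase.2 ⟨h2, h1⟩))
    have njs : j ∈ N s := by
      obtain ⟨y, hy, hyu, hyv, h1⟩ := h.r0 jS ju' jv'
      rcases hjin y hy h1 with h3 | h3 | h3
      · exact absurd h3 hyu
      · exact absurd h3 hyv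
      · rw [h3] at h1
        exact h1
    obtain ⟨z, hz, h1, h2⟩ := h.l sS su sv ju' jv' njs
    rcases hjin z hz h2 with h3 | h3 | h3
    · rw [h3] at h1 h2
      exact h.al1 hsJ hjJ (Ne.symm hjs) hsrc hKs hjin h1 h2
    · rw [h3] at h1 h2
      refine h.symm.al1 hsJ hjJ (Ne.symm hjs) hsrc hKs ?_ h1 h2
      intro y hy hjy
      rcases hjin y hy hjy with h4 | h4 | h4
      · exact Or.inr (Or.inl h4)
      · exact Or.inl h4
      · exact Or.inr (Or.inr h4)
    · rw [h3] at h1
      exact absurd h1 (h.irr s sS)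
  · apply h.single (s := s)
    intro x
    constructor
    · intro hx
      by_contra hxs
      exact hne ⟨x, mem_erase.2 ⟨hxs, hx⟩⟩
    · rintro rfl
      exact hsJ

end

end Pool.Agent.N257.FP
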