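import Pool.Agent.N257.FP.Fin2

set_option linter.unusedSectionVars false

namespace Pool.Agent.N257.FP

open Finset

variable {α : Type*} [DecidableEq α]

section

variable {S : Finset α} {N : α → Finset α} {u v : α} {K J : Finset α} {p : α → α}

/-- walking along the cycle `K` inside an interval `M` starting at `x0` -/
theorem Fin'.seg (h : Fin' S N u v K J p) {M : Finset α} (hMK : M ⊆ K) {x0 : α} (hx0 : x0 ∈ M)
    (hM : ∀ m ∈ M, m ≠ x0 → p m ∈ M) {z : α} (hz : z ∈ M) :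
    ∃ O : Finset α, O ⊆ M ∧ x0 ∈ O ∧ z ∈ O ∧ ∀ o ∈ O, o ≠ z → ∃ w ∈ O, w ∈ N o := by
  classical
  set Q : α → Prop := fun z =>
    ∃ O : Finset α, O ⊆ M ∧ x0 ∈ O ∧ z ∈ O ∧ ∀ o ∈ O, o ≠ z → ∃ w ∈ O, w ∈ N o with hQ
  by_contra hc
  have hQ0 : Q x0 := by
    refine ⟨{x0}, by simpa using hx0, by simp, by simp, ?_⟩
    intro o ho hne
    exact absurd (mem_singleton.1 ho) hne
  have hB : M.filter (fun z => ¬ Q z) = K := by
    apply h.con
    · exact (filter_subset _ _).trans hMK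
    · exact ⟨z, mem_filter.2 ⟨hz, hc⟩⟩
    · intro m hm
      obtain ⟨hmM, hmQ⟩ := mem_filter.1 hm
      have hmx : m ≠ x0 := fun e => hmQ (e ▸ hQ0)
      refine mem_filter.2 ⟨hM m hmM hmx, ?_⟩
      rintro ⟨O, hO1, hO2, hO3, hO4⟩
      apply hmQ
      refine ⟨insert m O, insert_subset hmM hO1, mem_insert_of_mem hO2, mem_insert_self _ _, ?_⟩
      intro o ho hom
      rcases mem_insert.1 ho with h1 | h1
      · exact absurd h1 hom
      · by_cases h2 : o = p m
        · refine ⟨m, mem_insert_self _ _, ?_⟩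
          rw [h2]
          exact h.pN m (hMK hmM)
        · obtain ⟨w, hw, hw'⟩ := hO4 o h1 h2
          exact ⟨w, mem_insert_of_mem hw, hw'⟩
  have : x0 ∈ M.filter (fun z => ¬ Q z) := hB.symm ▸ hMK hx0
  exact (mem_filter.1 this).2 hQ0

/-- a vertex of `J` all of whose in-neighbours are on `K` is dominated by all of `K` -/
theorem Fin'.nocl (h : Fin' S N u v K J p) {j b : α} (hj : j ∈ J)
    (hin : ∀ y ∈ S, j ∈ N y → y ∈ K) (hb : b ∈ K) (hbj : j ∉ N b) : False := by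
  classical
  obtain ⟨jS, ju, jv⟩ := h.nrJ hj
  have hM : K.filter (fun x => j ∈ N x) = K := by
    apply h.con _ (filter_subset _ _)
    · obtain ⟨y, hy, _, _, h1⟩ := h.r0 jS ju jv
      exact ⟨y, mem_filter.2 ⟨hin y hy h1, h1⟩⟩
    · intro x hx
      obtain ⟨hxK, hxj⟩ := mem_filter.1 hx
      obtain ⟨xS, xu, xv⟩ := h.nrK hxK
      obtain ⟨z, hz, h1, h2⟩ := h.l xS xu xv ju jv hxj
      have hzK := hin z hz h2
      have hzp := h.pU z hzK x hxK h1
      exact mem_filter.2 ⟨h.pK x hxK, hzp ▸ h2⟩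
  have : b ∈ K.filter (fun x => j ∈ N x) := hM.symm ▸ hb
  exact hbj (mem_filter.1 this).2

/-- the case where `s` is dominated by `v` but not by `u` -/
theorem Fin'.be1 (h : Fin' S N u v K J p) {s b : α} (hsJ : s ∈ J)
    (hsrc : ∀ y ∈ J, s ∉ N y) (hbK : b ∈ K) (hbs : s ∈ N b) (hpb : s ∉ N (p b))
    (bv' : b ∈ N v) (sv' : s ∈ N v) (sNu : s ∉ N u) : False := by
  classical
  obtain ⟨sS, su, sv⟩ := h.nrJ hsJ
  have hbs' : b ≠ s := h.ne_of hbK hsJ
  have hNv : ∀ x ∈ N v, x = b ∨ x = s := fun x hx => card_two_cases h.dv bv' sv' hbs' hx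
  have hne : (J.erase s).Nonempty := by
    obtain ⟨y, hy, hy'⟩ := h.jx _ (h.pK b hbK)
    exact ⟨y, mem_erase.2 ⟨fun e => hpb (e ▸ hy'), hy⟩⟩
  obtain ⟨j, hj, hsrcj⟩ := exists_source (N := N) hne (fun U hU => h.ac U
    (hU.trans (erase_subset _ _)))
  obtain ⟨hjs, hjJ⟩ := mem_erase.1 hj
  obtain ⟨jS, ju', jv'⟩ := h.nrJ hjJ
  have jNv : j ∉ N v := by
    intro hh
    rcases hNv j hh with h1 | h1
    · exact h.ne_of hbK hjJ h1.symm
    · exact hjs h1
  have insS : ∀ y ∈ S, s ∈ N y → y = v ∨ y ∈ K := by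
    intro y hy hsy
    rcases (h.mem y).1 hy with h1 | h1 | h1 | h1
    · subst h1
      exact absurd hsy sNu
    · exact Or.inl h1
    · exact Or.inr h1
    · exact absurd hsy (hsrc y h1)
  have injS : ∀ y ∈ S, j ∈ N y → y = u ∨ y = s ∨ y ∈ K := by
    intro y hy hjy
    rcases (h.mem y).1 hy with h1 | h1 | h1 | h1
    · exact Or.inl h1
    · subst h1
      exact absurd hjy jNv
    · exact Or.inr (Or.inr h1)
    · by_cases h2 : y = s
      · exact Or.inr (Or.inl h2)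
      · exact absurd hjy (hsrcj y (mem_erase.2 ⟨h2, h1⟩))
  have njs : j ∉ N s := by
    intro hh
    obtain ⟨z, hz, h1, h2⟩ := h.l sS su sv ju' jv' hh
    rcases insS z hz h1 with h3 | h3
    · rw [h3] at h2
      exact jNv h2
    · exact hjs (h.jU z h3 j hjJ s hsJ h2 h1)
  have injS' : ∀ y ∈ S, j ∈ N y → y = u ∨ y ∈ K := by
    intro y hy hjy
    rcases injS y hy hjy with h1 | h1 | h1
    · exact Or.inl h1
    · rw [h1] at hjy
      exact absurd hjy njs
    · exact Or.inr h1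
  have bNj : j ∉ N b := fun hh => hjs (h.jU b hbK j hjJ s hsJ hh hbs)
  -- first vertex of the interval of `j`
  obtain ⟨x0, hx0K, hx0j, hpx0⟩ : ∃ x ∈ K, j ∈ N x ∧ j ∉ N (p x) := by
    by_contra hc
    push Not at hc
    have hM : K.filter (fun x => j ∈ N x) = K := by
      apply h.con _ (filter_subset _ _)
      · obtain ⟨y, hy, hyu, _, h1⟩ := h.r0 jS ju' jv'
        rcases injS' y hy h1 with h2 | h2
        · exact absurd h2 hyu
        · exact ⟨y, mem_filter.2 ⟨h2, h1⟩⟩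
      · intro x hx
        obtain ⟨hxK, hxj⟩ := mem_filter.1 hx
        exact mem_filter.2 ⟨h.pK x hxK, hc x hxK hxj⟩
    have : b ∈ K.filter (fun x => j ∈ N x) := hM.symm ▸ hbK
    exact bNj (mem_filter.1 this).2
  obtain ⟨x0S, x0u, x0v⟩ := h.nrK hx0K
  have hx0u : x0 ∈ N u ∧ j ∈ N u := by
    obtain ⟨z, hz, h1, h2⟩ := h.l x0S x0u x0v ju' jv' hx0j
    rcases injS' z hz h2 with h3 | h3
    · rw [h3] at h1 h2
      exact ⟨h1, h2⟩
    · have := h.pU z h3 x0 hx0K h1
      rw [this] at h2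
      exact absurd h2 hpx0
  have hx0j' : x0 ≠ j := h.ne_of hx0K hjJ
  have hNu : ∀ x ∈ N u, x = x0 ∨ x = j := fun x hx =>
    card_two_cases h.du hx0u.1 hx0u.2 hx0j' hx
  have hJall : ∀ x ∈ J, x = s ∨ x = j := by
    by_contra hc
    push Not at hc
    obtain ⟨x1, hx1, hx1s, hx1j⟩ := hc
    obtain ⟨j2, hj2, hsrc2⟩ := exists_source (N := N) (J := (J.erase s).erase j)
      ⟨x1, mem_erase.2 ⟨hx1j, mem_erase.2 ⟨hx1s, hx1⟩⟩⟩ (fun U hU => h.ac U
      (hU.trans ((erase_subset _ _).trans (erase_subset _ _))))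
    obtain ⟨hj2j, hj2s, hj2J⟩ : j2 ≠ j ∧ j2 ≠ s ∧ j2 ∈ J := by
      rw [mem_erase, mem_erase] at hj2
      exact hj2
    obtain ⟨j2S, j2u, j2v⟩ := h.nrJ hj2J
    have j2Nu : j2 ∉ N u := by
      intro hh
      rcases hNu j2 hh with h1 | h1
      · exact h.ne_of hx0K hj2J h1.symm
      · exact hj2j h1
    have j2Nv : j2 ∉ N v := by
      intro hh
      rcases hNv j2 hh with h1 | h1
      · exact h.ne_of hbK hj2J h1.symm
      · exact hj2s h1
    have in2 : ∀ y ∈ S, j2 ∈ N y → y = s ∨ y = j ∨ y ∈ K := by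
      intro y hy hjy
      rcases (h.mem y).1 hy with h1 | h1 | h1 | h1
      · rw [h1] at hjy
        exact absurd hjy j2Nu
      · rw [h1] at hjy
        exact absurd hjy j2Nv
      · exact Or.inr (Or.inr h1)
      · by_cases h2 : y = s
        · exact Or.inl h2
        by_cases h3 : y = j
        · exact Or.inr (Or.inl h3)
        · exact absurd hjy (hsrc2 y (mem_erase.2 ⟨h3, mem_erase.2 ⟨h2, h1⟩⟩))
    have nsj2 : j2 ∉ N s := by
      intro hh
      obtain ⟨z, hz, h1, h2⟩ := h.l sS su sv j2u j2v hh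
      rcases insS z hz h1 with h3 | h3
      · rw [h3] at h2
        exact j2Nv h2
      · exact hj2s (h.jU z h3 j2 hj2J s hsJ h2 h1)
    have njj2 : j2 ∉ N j := by
      intro hh
      obtain ⟨z, hz, h1, h2⟩ := h.l jS ju' jv' j2u j2v hh
      rcases injS' z hz h1 with h3 | h3
      · rw [h3] at h2
        exact j2Nu h2
      · exact hj2j (h.jU z h3 j2 hj2J j hjJ h2 h1)
    refine h.nocl hj2J ?_ hbK (fun hh => hj2s (h.jU b hbK j2 hj2J s hsJ hh hbs))
    intro y hy hjy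
    rcases in2 y hy hjy with h3 | h3 | h3
    · rw [h3] at hjy
      exact absurd hjy nsj2
    · rw [h3] at hjy
      exact absurd hjy njj2
    · exact h3
  -- the two intervals
  obtain ⟨z, hz, hzu, hzv, h1, h2⟩ : ∃ z ∈ S, z ≠ u ∧ z ≠ v ∧ u ∈ N z ∧ j ∈ N z := by
    rcases h.m jS ju' jv' (Or.inl hx0u.2) with h1 | h1
    · exact absurd h1 jNv
    · exact h1
  have hzK : z ∈ K := by
    rcases injS' z hz h2 with h3 | h3
    · exact absurd h3 hzu
    · exact h3
  obtain ⟨z', hz', hzv', hzu', h1', h2'⟩ : ∃ z ∈ S, z ≠ v ∧ z ≠ u ∧ v ∈ N z ∧ s ∈ N z := by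
    rcases h.toCtx.symm.m sS sv su (Or.inl sv') with h1 | h1
    · exact absurd h1 sNu
    · exact h1
  have hzK' : z' ∈ K := by
    rcases insS z' hz' h2' with h3 | h3
    · exact absurd h3 hzv'
    · exact h3
  obtain ⟨O, hO1, hO2, hO3, hO4⟩ := h.seg (M := K.filter (fun x => j ∈ N x))
    (filter_subset _ _) (x0 := x0) (mem_filter.2 ⟨hx0K, hx0j⟩) (by
      intro m hm hmx
      obtain ⟨hmK, hmj⟩ := mem_filter.1 hm
      obtain ⟨mS, mu, mv⟩ := h.nrK hmK
      obtain ⟨y, hy, e1, e2⟩ := h.l mS mu mv ju' jv' hmj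
      rcases injS' y hy e2 with h3 | h3
      · rw [h3] at e1
        rcases hNu m e1 with h4 | h4
        · exact absurd h4 hmx
        · exact absurd h4 (h.ne_of hmK hjJ)
      · have := h.pU y h3 m hmK e1
        rw [this] at e2
        exact mem_filter.2 ⟨h.pK m hmK, e2⟩) (z := z) (mem_filter.2 ⟨hzK, h2⟩)
  obtain ⟨O', hO1', hO2', hO3', hO4'⟩ := h.seg (M := K.filter (fun x => s ∈ N x))
    (filter_subset _ _) (x0 := b) (mem_filter.2 ⟨hbK, hbs⟩) (by
      intro m hm hmx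
      obtain ⟨hmK, hmj⟩ := mem_filter.1 hm
      obtain ⟨mS, mu, mv⟩ := h.nrK hmK
      obtain ⟨y, hy, e1, e2⟩ := h.l mS mu mv su sv hmj
      rcases insS y hy e2 with h3 | h3
      · rw [h3] at e1
        rcases hNv m e1 with h4 | h4
        · exact absurd h4 hmx
        · exact absurd h4 (h.ne_of hmK hsJ)
      · have := h.pU y h3 m hmK e1
        rw [this] at e2
        exact mem_filter.2 ⟨h.pK m hmK, e2⟩) (z := z') (mem_filter.2 ⟨hzK', h2'⟩)
  have hOK : O ⊆ K := hO1.trans (filter_subset _ _)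
  have hOK' : O' ⊆ K := hO1'.trans (filter_subset _ _)
  refine h.two (U := insert u O) (W := insert v O') ?_ ?_ ?_ (mem_insert_self _ _)
    (mem_insert_self _ _) ?_ ?_
  · exact insert_subset h.hu (fun x hx => (h.nrK (hOK hx)).1)
  · exact insert_subset h.hv (fun x hx => (h.nrK (hOK' hx)).1)
  · rw [disjoint_insert_left, disjoint_insert_right]
    refine ⟨?_, fun hh => h.vK (hOK hh), ?_⟩
    · simp only [mem_insert, not_or]
      exact ⟨h.huv, fun hh => h.uK (hOK' hh)⟩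
    · rw [disjoint_left]
      intro x hx hx'
      have e1 := (mem_filter.1 (hO1 hx)).2
      have e2 := (mem_filter.1 (hO1' hx')).2
      exact hjs (h.jU x (hOK hx) j hjJ s hsJ e1 e2)
  · intro x hx
    rcases mem_insert.1 hx with rfl | hx
    · exact ⟨x0, mem_insert_of_mem hO2, hx0u.1⟩
    · by_cases hxz : x = z
      · exact ⟨u, mem_insert_self _ _, hxz ▸ h1⟩
      · obtain ⟨w, hw, hw'⟩ := hO4 x hx hxz
        exact ⟨w, mem_insert_of_mem hw, hw'⟩
  · intro x hx
    rcases mem_insert.1 hx with rfl | hx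
    · exact ⟨b, mem_insert_of_mem hO2', bv'⟩
    · by_cases hxz : x = z'
      · exact ⟨v, mem_insert_self _ _, hxz ▸ h1'⟩
      · obtain ⟨w, hw, hw'⟩ := hO4' x hx hxz
        exact ⟨w, mem_insert_of_mem hw, hw'⟩

end

end Pool.Agent.N257.FP
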