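import Pool.Agent.N257.FP.Fin3

set_option linter.unusedSectionVars false

namespace Pool.Agent.N257.FP

open Finset

variable {α : Type*} [DecidableEq α]

section

variable {S : Finset α} {N : α → Finset α} {u v : α} {K J : Finset α} {p : α → α}

/-- the last configuration: `J = {s, j}`, `u → s, j`, `v → b, s` -/
theorem Fin'.be3 (h : Fin' S N u v K J p) {s j b : α} (hJ : ∀ x, x ∈ J ↔ x = s ∨ x = j)
    (hsj : s ≠ j)
    (hsrc : ∀ y ∈ J, s ∉ N y) (hbK : b ∈ K) (hbs : s ∈ N b) (hpb : s ∉ N (p b))
    (bv' : b ∈ N v) (sv' : s ∈ N v) (su' : s ∈ N u) (ju : j ∈ N u) (hsj' : j ∈ N s) : False := by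
  classical
  have hsJ : s ∈ J := (hJ s).2 (Or.inl rfl)
  have hjJ : j ∈ J := (hJ j).2 (Or.inr rfl)
  obtain ⟨sS, su, sv⟩ := h.nrJ hsJ
  obtain ⟨jS, ju', jv'⟩ := h.nrJ hjJ
  obtain ⟨bS, bu, bv⟩ := h.nrK hbK
  have hbs' : b ≠ s := h.ne_of hbK hsJ
  have hbj : b ≠ j := h.ne_of hbK hjJ
  have hNv : ∀ x ∈ N v, x = b ∨ x = s := fun x hx => card_two_cases h.dv bv' sv' hbs' hx
  have hNu : ∀ x ∈ N u, x = s ∨ x = j := fun x hx => card_two_cases h.du su' ju hsj hx
  have uNs : u ∉ N s := h.k0 su'
  have vNs : v ∉ N s := h.toCtx.symm.k0 sv'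
  have uNj : u ∉ N j := h.k0 ju
  have sNj : s ∉ N j := hsrc j hjJ
  -- `u` does not dominate anything on `K`
  have uK' : ∀ x ∈ K, x ∉ N u := by
    intro x hx hxu
    rcases hNu x hxu with h1 | h1
    · exact h.ne_of hx hsJ h1
    · exact h.ne_of hx hjJ h1
  have hsor : ∀ x ∈ K, s ∈ N x ∨ j ∈ N x := by
    intro x hx
    obtain ⟨y, hy, hy'⟩ := h.jx x hx
    rcases (hJ y).1 hy with h1 | h1
    · exact Or.inl (h1 ▸ hy')
    · exact Or.inr (h1 ▸ hy')
  have hex : ∀ x ∈ K, s ∈ N x → j ∈ N x → False := by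
    intro x hx h1 h2
    exact hsj (h.jU x hx s hsJ j hjJ h1 h2)
  have hjpb : j ∈ N (p b) := by
    rcases hsor (p b) (h.pK b hbK) with h1 | h1
    · exact absurd h1 hpb
    · exact h1
  have hsuK : u ∈ N b := h.rootv hbK bv'
  -- out-neighbours of `s`
  have outs : ∀ w ∈ N s, w = j ∨ w ∈ K := by
    intro w hw
    rcases (h.mem w).1 (h.sub s sS hw) with h1 | h1 | h1 | h1
    · exact absurd (h1 ▸ hw) uNs
    · exact absurd (h1 ▸ hw) vNs
    · exact Or.inr h1
    · rcases (hJ w).1 h1 with h2 | h2
      · exact absurd (h2 ▸ hw) (h.irr s sS)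
      · exact Or.inl h2
  have outj : ∀ w ∈ N j, w = v ∨ w ∈ K := by
    intro w hw
    rcases (h.mem w).1 (h.sub j jS hw) with h1 | h1 | h1 | h1
    · exact absurd (h1 ▸ hw) uNj
    · exact Or.inl h1
    · exact Or.inr h1
    · rcases (hJ w).1 h1 with h2 | h2
      · exact absurd (h2 ▸ hw) sNj
      · exact absurd (h2 ▸ hw) (h.irr j jS)
  -- Step A
  have stepA : b ∉ N s := by
    intro hbNs
    refine h.symm.compl (U := {v, s, b}) ?_ (by simp) ?_ ?_ ?_
    · intro z hz
      simp only [mem_insert, mem_singleton] at hz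
      rcases hz with rfl | rfl | rfl
      · exact h.hv
      · exact sS
      · exact bS
    · simp only [mem_insert, mem_singleton, not_or]
      exact ⟨h.huv, su.symm, bu.symm⟩
    · intro z hz
      simp only [mem_insert, mem_singleton] at hz
      rcases hz with rfl | rfl | rfl
      · exact ⟨s, by simp, sv'⟩
      · exact ⟨b, by simp, hbNs⟩
      · exact ⟨s, by simp, hbs⟩
    · intro z hz
      simp only [mem_sdiff, mem_insert, mem_singleton, not_or] at hz
      obtain ⟨hzS, hzv, hzs, hzb⟩ := hz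
      have hjU : j ∈ S \ {v, s, b} := by
        simp only [mem_sdiff, mem_insert, mem_singleton, not_or]
        exact ⟨jS, jv', hsj.symm, Ne.symm hbj⟩
      rcases (h.mem z).1 hzS with h1 | h1 | h1 | h1
      · subst h1
        exact ⟨j, hjU, ju⟩
      · exact absurd h1 hzv
      · rcases hsor z h1 with h2 | h2
        · obtain ⟨y, hy, hy', hpy⟩ := h.nxt h1
          obtain ⟨yS, yu, yv⟩ := h.nrK hy
          have hyb : y ≠ b := by
            rintro rfl
            rw [hpy] at hpb
            exact hpb h2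
          refine ⟨y, ?_, hy'⟩
          simp only [mem_sdiff, mem_insert, mem_singleton, not_or]
          exact ⟨yS, yv, h.ne_of hy hsJ, hyb⟩
        · exact ⟨j, hjU, h2⟩
      · rcases (hJ z).1 h1 with h2 | h2
        · exact absurd h2 hzs
        · subst h2
          obtain ⟨w, hw, hw'⟩ := Finset.exists_mem_notMem_of_card_lt_card
            (s := {v, b}) (t := N z) (by
              rw [h.d z jS ju' jv']
              exact lt_of_le_of_lt (card_le_two) (by norm_num))
          simp only [mem_insert, mem_singleton, not_or] at hw'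
          have hwK : w ∈ K := by
            rcases outj w hw with h3 | h3
            · exact absurd h3 hw'.1
            · exact h3
          obtain ⟨wS, wu, wv⟩ := h.nrK hwK
          refine ⟨w, ?_, hw⟩
          simp only [mem_sdiff, mem_insert, mem_singleton, not_or]
          exact ⟨wS, wv, h.ne_of hwK hsJ, hw'.2⟩
  -- Step B
  have stepB : p b ∈ N j ∧ b ∈ N j := by
    rcases h.pair hbK with ⟨_, h1⟩ | ⟨h1, _⟩ | ⟨z, hz, h2, h1⟩
    · exact absurd h1 (uK' b hbK)
    · rcases hNv _ h1 with h3 | h3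
      · exact absurd h3 (h.pne hbK)
      · exact absurd h3 (h.ne_of (h.pK b hbK) hsJ)
    · rcases (hJ z).1 hz with h3 | h3
      · rw [h3] at h1
        exact absurd h1 stepA
      · rw [h3] at h1 h2
        exact ⟨h2, h1⟩
  have heK := h.pK b hbK
  obtain ⟨eS, eu, ev⟩ := h.nrK heK
  have hej : p b ≠ j := h.ne_of heK hjJ
  -- Step C
  have stepC : v ∉ N (p b) := by
    intro hve
    refine h.compl (U := {u, j, b}) ?_ (by simp) ?_ ?_ ?_
    · intro z hz
      simp only [mem_insert, mem_singleton] at hz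
      rcases hz with rfl | rfl | rfl
      · exact h.hu
      · exact jS
      · exact bS
    · simp only [mem_insert, mem_singleton, not_or]
      exact ⟨h.huv.symm, jv'.symm, bv.symm⟩
    · intro z hz
      simp only [mem_insert, mem_singleton] at hz
      rcases hz with rfl | rfl | rfl
      · exact ⟨j, by simp, ju⟩
      · exact ⟨b, by simp, stepB.2⟩
      · exact ⟨u, by simp, hsuK⟩
    · intro z hz
      simp only [mem_sdiff, mem_insert, mem_singleton, not_or] at hz
      obtain ⟨hzS, hzu, hzj, hzb⟩ := hz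
      have hsW : s ∈ S \ {u, j, b} := by
        simp only [mem_sdiff, mem_insert, mem_singleton, not_or]
        exact ⟨sS, su, hsj, Ne.symm hbs'⟩
      rcases (h.mem z).1 hzS with h1 | h1 | h1 | h1
      · exact absurd h1 hzu
      · subst h1
        exact ⟨s, hsW, sv'⟩
      · rcases hsor z h1 with h2 | h2
        · exact ⟨s, hsW, h2⟩
        · obtain ⟨y, hy, hy', hpy⟩ := h.nxt h1
          by_cases hyb : y = b
          · subst hyb
            rw [hpy] at hve
            refine ⟨v, ?_, hve⟩
            simp only [mem_sdiff, mem_insert, mem_singleton, not_or]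
            exact ⟨h.hv, h.huv.symm, jv'.symm, bv.symm⟩
          · obtain ⟨yS, yu, yv⟩ := h.nrK hy
            refine ⟨y, ?_, hy'⟩
            simp only [mem_sdiff, mem_insert, mem_singleton, not_or]
            exact ⟨yS, yu, h.ne_of hy hjJ, hyb⟩
      · rcases (hJ z).1 h1 with h2 | h2
        · subst h2
          obtain ⟨w, hw, hw'⟩ := Finset.exists_mem_notMem_of_card_lt_card
            (s := {j, b}) (t := N z) (by
              rw [h.d z sS su sv]
              exact lt_of_le_of_lt (card_le_two) (by norm_num))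
          simp only [mem_insert, mem_singleton, not_or] at hw'
          have hwK : w ∈ K := by
            rcases outs w hw with h3 | h3
            · exact absurd h3 hw'.1
            · exact h3
          obtain ⟨wS, wu, wv⟩ := h.nrK hwK
          refine ⟨w, ?_, hw⟩
          simp only [mem_sdiff, mem_insert, mem_singleton, not_or]
          exact ⟨wS, wu, hw'.1, hw'.2⟩
        · exact absurd h2 hzj
  -- Step D
  have vNj : v ∈ N j := by
    rcases h.toCtx.symm.m bS bv bu (Or.inl bv') with h1 | ⟨z, hz, hzv, hzu, h1, h2⟩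
    · exact absurd h1 (uK' b hbK)
    · rcases (h.mem z).1 hz with h3 | h3 | h3 | h3
      · exact absurd h3 hzu
      · exact absurd h3 hzv
      · have := h.pU z h3 b hbK h2
        rw [this] at h1
        exact absurd h1 stepC
      · rcases (hJ z).1 h3 with h4 | h4
        · rw [h4] at h2
          exact absurd h2 stepA
        · rw [h4] at h1
          exact h1
  have hNj : ∀ x ∈ N j, x = p b ∨ x = b ∨ x = v := by
    intro x hx
    by_contra hc
    push Not at hc
    have hsub : ({x, p b, b, v} : Finset α) ⊆ N j := by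
      intro z hz
      simp only [mem_insert, mem_singleton] at hz
      rcases hz with rfl | rfl | rfl | rfl
      · exact hx
      · exact stepB.1
      · exact stepB.2
      · exact vNj
    have hc4 : ({x, p b, b, v} : Finset α).card = 4 := by
      rw [card_insert_of_notMem, card_insert_of_notMem, card_pair bv]
      · simp only [mem_insert, mem_singleton, not_or]
        exact ⟨h.pne hbK, ev⟩
      · simp only [mem_insert, mem_singleton, not_or]
        exact hc
    have := card_le_card hsub
    rw [hc4, h.d j jS ju' jv'] at this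
    omega
  -- Step E
  obtain ⟨y, hyK, hyb, hpy⟩ := h.nxt hbK
  have hye : y = p b := by
    obtain ⟨yS, yu, yv⟩ := h.nrK hyK
    rcases h.pair hyK with ⟨_, h1⟩ | ⟨_, h1⟩ | ⟨z, hz, h2, h1⟩
    · exact absurd h1 (uK' y hyK)
    · rcases hNv _ h1 with h3 | h3
      · rw [h3] at hyb
        exact absurd hyb (h.irr b bS)
      · exact absurd h3 (h.ne_of hyK hsJ)
    · rw [hpy] at h2
      rcases (hJ z).1 hz with h3 | h3
      · rw [h3] at h2
        exact absurd h2 stepA
      · rw [h3] at h1
        rcases hNj y h1 with h4 | h4 | h4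
        · exact h4
        · rw [h4] at hyb
          exact absurd hyb (h.irr b bS)
        · exact absurd h4 yv
  have hpe : p (p b) = b := by rw [← hye, hpy]
  -- Step F
  refine h.compl (U := {u, j, p b}) ?_ (by simp) ?_ ?_ ?_
  · intro z hz
    simp only [mem_insert, mem_singleton] at hz
    rcases hz with rfl | rfl | rfl
    · exact h.hu
    · exact jS
    · exact eS
  · simp only [mem_insert, mem_singleton, not_or]
    exact ⟨h.huv.symm, jv'.symm, ev.symm⟩
  · intro z hz
    simp only [mem_insert, mem_singleton] at hz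
    rcases hz with rfl | rfl | rfl
    · exact ⟨j, by simp, ju⟩
    · exact ⟨p b, by simp, stepB.1⟩
    · exact ⟨j, by simp, hjpb⟩
  · intro z hz
    simp only [mem_sdiff, mem_insert, mem_singleton, not_or] at hz
    obtain ⟨hzS, hzu, hzj, hze⟩ := hz
    have hsW : s ∈ S \ {u, j, p b} := by
      simp only [mem_sdiff, mem_insert, mem_singleton, not_or]
      exact ⟨sS, su, hsj, (h.ne_of heK hsJ).symm⟩
    rcases (h.mem z).1 hzS with h1 | h1 | h1 | h1
    · exact absurd h1 hzu
    · subst h1
      exact ⟨s, hsW, sv'⟩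
    · rcases hsor z h1 with h2 | h2
      · exact ⟨s, hsW, h2⟩
      · obtain ⟨y', hy', hy'', hpy'⟩ := h.nxt h1
        have hne' : y' ≠ p b := by
          intro e
          rw [e, hpe] at hpy'
          rw [← hpy'] at h2
          exact hex b hbK hbs h2
        obtain ⟨yS, yu, yv⟩ := h.nrK hy'
        refine ⟨y', ?_, hy''⟩
        simp only [mem_sdiff, mem_insert, mem_singleton, not_or]
        exact ⟨yS, yu, h.ne_of hy' hjJ, hne'⟩
    · rcases (hJ z).1 h1 with h2 | h2
      · subst h2
        obtain ⟨w, hw, hw'⟩ := Finset.exists_mem_notMem_of_card_lt_card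
          (s := {j, p b}) (t := N z) (by
            rw [h.d z sS su sv]
            exact lt_of_le_of_lt (card_le_two) (by norm_num))
        simp only [mem_insert, mem_singleton, not_or] at hw'
        have hwK : w ∈ K := by
          rcases outs w hw with h3 | h3
          · exact absurd h3 hw'.1
          · exact h3
        obtain ⟨wS, wu, wv⟩ := h.nrK hwK
        refine ⟨w, ?_, hw⟩
        simp only [mem_sdiff, mem_insert, mem_singleton, not_or]
        exact ⟨wS, wu, hw'.1, hw'.2⟩
      · exact absurd h2 hzj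

/-- the case where `s` is dominated by both roots -/
theorem Fin'.be2 (h : Fin' S N u v K J p) {s b : α} (hsJ : s ∈ J)
    (hsrc : ∀ y ∈ J, s ∉ N y) (hbK : b ∈ K) (hbs : s ∈ N b) (hpb : s ∉ N (p b))
    (bv' : b ∈ N v) (sv' : s ∈ N v) (su' : s ∈ N u) : False := by
  classical
  obtain ⟨sS, su, sv⟩ := h.nrJ hsJ
  have hbs' : b ≠ s := h.ne_of hbK hsJ
  have hNv : ∀ x ∈ N v, x = b ∨ x = s := fun x hx => card_two_cases h.dv bv' sv' hbs' hx
  have hne : (J.erase s).Nonempty := by
    obtain ⟨y, hy, hy'⟩ := h.jx _ (h.pK b hbK)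
    exact ⟨y, mem_erase.2 ⟨fun e => hpb (e ▸ hy'), hy⟩⟩
  obtain ⟨j, hj, hsrcj⟩ := exists_source (N := N) hne (fun U hU => h.ac U
    (hU.trans (erase_subset _ _)))
  obtain ⟨hjs, hjJ⟩ := mem_erase.1 hj
  obtain ⟨jS, ju', jv'⟩ := h.nrJ hjJ
  have jNv : j ∉ N v := by
    intro hh
    rcases hNv j hh with h1 | h1
    · exact h.ne_of hbK hjJ h1.symm
    · exact hjs h1
  have insS : ∀ y ∈ S, s ∈ N y → y = u ∨ y = v ∨ y ∈ K := by
    intro y hy hsy
    rcases (h.mem y).1 hy with h1 | h1 | h1 | h1
    · exact Or.inl h1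
    · exact Or.inr (Or.inl h1)
    · exact Or.inr (Or.inr h1)
    · exact absurd hsy (hsrc y h1)
  have injS : ∀ y ∈ S, j ∈ N y → y = u ∨ y = s ∨ y ∈ K := by
    intro y hy hjy
    rcases (h.mem y).1 hy with h1 | h1 | h1 | h1
    · exact Or.inl h1
    · subst h1
      exact absurd hjy jNv
    · exact Or.inr (Or.inr h1)
    · by_cases h2 : y = s
      · exact Or.inr (Or.inl h2)
      · exact absurd hjy (hsrcj y (mem_erase.2 ⟨h2, h1⟩))
  have bNj : j ∉ N b := fun hh => hjs (h.jU b hbK j hjJ s hsJ hh hbs)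
  have njs : j ∈ N s := by
    by_contra njs
    obtain ⟨x0, hx0K, hx0j, hpx0⟩ : ∃ x ∈ K, j ∈ N x ∧ j ∉ N (p x) := by
      by_contra hc
      push Not at hc
      have hM : K.filter (fun x => j ∈ N x) = K := by
        apply h.con _ (filter_subset _ _)
        · obtain ⟨y, hy, hyu, _, h1⟩ := h.r0 jS ju' jv'
          rcases injS y hy h1 with h2 | h2 | h2
          · exact absurd h2 hyu
          · rw [h2] at h1
            exact absurd h1 njs
          · exact ⟨y, mem_filter.2 ⟨h2, h1⟩⟩
        · intro x hx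
          obtain ⟨hxK, hxj⟩ := mem_filter.1 hx
          exact mem_filter.2 ⟨h.pK x hxK, hc x hxK hxj⟩
      have : b ∈ K.filter (fun x => j ∈ N x) := hM.symm ▸ hbK
      exact bNj (mem_filter.1 this).2
    obtain ⟨x0S, x0u, x0v⟩ := h.nrK hx0K
    obtain ⟨z, hz, h1, h2⟩ := h.l x0S x0u x0v ju' jv' hx0j
    rcases injS z hz h2 with h3 | h3 | h3
    · rw [h3] at h1 h2
      rcases card_two_cases h.du su' h2 (Ne.symm hjs) h1 with h4 | h4
      · exact h.ne_of hx0K hsJ h4
      · exact h.ne_of hx0K hjJ h4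
    · rw [h3] at h2
      exact njs h2
    · have := h.pU z h3 x0 hx0K h1
      rw [this] at h2
      exact hpx0 h2
  have jNu : j ∈ N u := by
    obtain ⟨z, hz, h1, h2⟩ := h.l sS su sv ju' jv' njs
    rcases insS z hz h1 with h3 | h3 | h3
    · rw [h3] at h2
      exact h2
    · rw [h3] at h2
      exact absurd h2 jNv
    · exact absurd (h.jU z h3 j hjJ s hsJ h2 h1) hjs
  have hNu : ∀ x ∈ N u, x = s ∨ x = j := fun x hx =>
    card_two_cases h.du su' jNu (Ne.symm hjs) hx
  have hJall : ∀ x ∈ J, x = s ∨ x = j := by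
    by_contra hc
    push Not at hc
    obtain ⟨x1, hx1, hx1s, hx1j⟩ := hc
    obtain ⟨j2, hj2, hsrc2⟩ := exists_source (N := N) (J := (J.erase s).erase j)
      ⟨x1, mem_erase.2 ⟨hx1j, mem_erase.2 ⟨hx1s, hx1⟩⟩⟩ (fun U hU => h.ac U
      (hU.trans ((erase_subset _ _).trans (erase_subset _ _))))
    obtain ⟨hj2j, hj2s, hj2J⟩ : j2 ≠ j ∧ j2 ≠ s ∧ j2 ∈ J := by
      rw [mem_erase, mem_erase] at hj2
      exact hj2
    obtain ⟨j2S, j2u, j2v⟩ := h.nrJ hj2J
    have j2Nu : j2 ∉ N u := by
      intro hh
      rcases hNu j2 hh with h1 | h1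
      · exact hj2s h1
      · exact hj2j h1
    have j2Nv : j2 ∉ N v := by
      intro hh
      rcases hNv j2 hh with h1 | h1
      · exact h.ne_of hbK hj2J h1.symm
      · exact hj2s h1
    have in2 : ∀ y ∈ S, j2 ∈ N y → y = s ∨ y = j ∨ y ∈ K := by
      intro y hy hjy
      rcases (h.mem y).1 hy with h1 | h1 | h1 | h1
      · rw [h1] at hjy
        exact absurd hjy j2Nu
      · rw [h1] at hjy
        exact absurd hjy j2Nv
      · exact Or.inr (Or.inr h1)
      · by_cases h2 : y = s
        · exact Or.inl h2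
        by_cases h3 : y = j
        · exact Or.inr (Or.inl h3)
        · exact absurd hjy (hsrc2 y (mem_erase.2 ⟨h3, mem_erase.2 ⟨h2, h1⟩⟩))
    have nsj2 : j2 ∉ N s := by
      intro hh
      obtain ⟨z, hz, h1, h2⟩ := h.l sS su sv j2u j2v hh
      rcases insS z hz h1 with h3 | h3 | h3
      · rw [h3] at h2
        exact j2Nu h2
      · rw [h3] at h2
        exact j2Nv h2
      · exact hj2s (h.jU z h3 j2 hj2J s hsJ h2 h1)
    have njj2 : j2 ∉ N j := by
      intro hh
      obtain ⟨z, hz, h1, h2⟩ := h.l jS ju' jv' j2u j2v hh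
      rcases injS z hz h1 with h3 | h3 | h3
      · rw [h3] at h2
        exact j2Nu h2
      · rw [h3] at h2
        exact nsj2 h2
      · exact hj2j (h.jU z h3 j2 hj2J j hjJ h2 h1)
    refine h.nocl hj2J ?_ hbK (fun hh => hj2s (h.jU b hbK j2 hj2J s hsJ hh hbs))
    intro y hy hjy
    rcases in2 y hy hjy with h3 | h3 | h3
    · rw [h3] at hjy
      exact absurd hjy nsj2
    · rw [h3] at hjy
      exact absurd hjy njj2
    · exact h3
  refine h.be3 (s := s) (j := j) (b := b) ?_ (Ne.symm hjs) hsrc hbK hbs hpb bv' sv' su' jNu njs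
  intro x
  constructor
  · exact hJall x
  · rintro (rfl | rfl) <;> assumption

theorem Fin'.false (h : Fin' S N u v K J p) : False := by
  classical
  have hJne : J.Nonempty := by
    obtain ⟨k, hk⟩ := h.ne
    obtain ⟨y, hy, _⟩ := h.jx k hk
    exact ⟨y, hy⟩
  obtain ⟨s, hsJ, hsrc⟩ := exists_source (N := N) hJne h.ac
  obtain ⟨sS, su, sv⟩ := h.nrJ hsJ
  by_cases hall : ∀ x ∈ K, s ∈ N x
  · exact h.al hsJ hsrc hall
  push Not at hall
  obtain ⟨x1, hx1, hx1s⟩ := hall
  obtain ⟨b, hbK, hbs, hpb⟩ : ∃ x ∈ K, s ∈ N x ∧ s ∉ N (p x) := by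
    by_contra hc
    push Not at hc
    have hM : K.filter (fun x => s ∈ N x) = K := by
      apply h.con _ (filter_subset _ _)
      · obtain ⟨y, hy, hyu, hyv, h1⟩ := h.r0 sS su sv
        rcases (h.mem y).1 hy with h2 | h2 | h2 | h2
        · exact absurd h2 hyu
        · exact absurd h2 hyv
        · exact ⟨y, mem_filter.2 ⟨h2, h1⟩⟩
        · exact absurd h1 (hsrc y h2)
      · intro x hx
        obtain ⟨hxK, hxj⟩ := mem_filter.1 hx
        exact mem_filter.2 ⟨h.pK x hxK, hc x hxK hxj⟩
    have : x1 ∈ K.filter (fun x => s ∈ N x) := hM.symm ▸ hx1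
    exact hx1s (mem_filter.1 this).2
  obtain ⟨bS, bu, bv⟩ := h.nrK hbK
  obtain ⟨z, hz, h1, h2⟩ := h.l bS bu bv su sv hbs
  have gen : ∀ {u v : α}, Fin' S N u v K J p → b ∈ N v → s ∈ N v → False := by
    intro u v h h1 h2
    by_cases h3 : s ∈ N u
    · exact h.be2 hsJ hsrc hbK hbs hpb h1 h2 h3
    · exact h.be1 hsJ hsrc hbK hbs hpb h1 h2 h3
  rcases (h.mem z).1 hz with h3 | h3 | h3 | h3
  · rw [h3] at h1 h2
    exact gen h.symm h1 h2
  · rw [h3] at h1 h2
    exact gen h h1 h2
  · have := h.pU z h3 b hbK h1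
    rw [this] at h2
    exact hpb h2
  · exact hsrc z h3 h2

end

/-- reduction to exact out-degrees and strong induction -/
theorem sep_of_hyp : ∀ (n : ℕ) (S : Finset α) (N : α → Finset α) (u v : α),
    S.card = n → Hyp S N u v → Sep S N u v := by
  intro n
  induction n using Nat.strong_induction_on with
  | _ n ih =>
    intro S N u v hn h
    classical
    by_contra hns
    have hex : ∀ z : α, ∃ T : Finset α, T ⊆ N z ∧
        (z = u → T.card = 2) ∧ (z = v → T.card = 2) ∧
        (z ∈ S → z ≠ u → z ≠ v → T.card = 3) := by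
      intro z
      by_cases hzu : z = u
      · obtain ⟨T, hT, hT'⟩ := exists_subset_card_eq h.du
        subst hzu
        exact ⟨T, hT, fun _ => hT', fun _ => hT', fun _ h1 => absurd rfl h1⟩
      by_cases hzv : z = v
      · obtain ⟨T, hT, hT'⟩ := exists_subset_card_eq h.dv
        subst hzv
        exact ⟨T, hT, fun _ => hT', fun _ => hT', fun _ _ h1 => absurd rfl h1⟩
      by_cases hz : z ∈ S
      · obtain ⟨T, hT, hT'⟩ := exists_subset_card_eq (h.d z hz hzu hzv)
        exact ⟨T, hT, fun h1 => absurd h1 hzu, fun h1 => absurd h1 hzv, fun _ _ _ => hT'⟩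
      · exact ⟨∅, empty_subset _, fun h1 => absurd h1 hzu, fun h1 => absurd h1 hzv,
          fun h1 => absurd h1 hz⟩
    choose N' hN' hu' hv' hd' using hex
    have hctx : Ctx S N' u v :=
      { hu := h.hu
        hv := h.hv
        huv := h.huv
        sub := fun x hx => (hN' x).trans (h.sub x hx)
        irr := fun x hx hh => h.irr x hx (hN' x hh)
        uv := fun hh => h.uv (hN' u hh)
        vu := fun hh => h.vu (hN' v hh)
        du := hu' u rfl
        dv := hv' v rfl
        d := hd'
        ih := fun S' N'' u' v' hlt hh => ih S'.card (hn ▸ hlt) S' N'' u' v' rfl hh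
        ns := fun hs => hns (hs.mono (fun x _ => hN' x)) }
    obtain ⟨K, J, p, hF⟩ := hctx.toB.exists_fin
    exact hF.false

theorem main {S : Finset α} {N : α → Finset α} {u v : α} (h : Hyp S N u v) : Sep S N u v :=
  sep_of_hyp _ S N u v rfl h

end Pool.Agent.N257.FP
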