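import Pool.Agent.N257.FP.Closed

set_option linter.unusedSectionVars false

namespace Pool.Agent.N257.FP

open Finset

variable {α : Type*} [DecidableEq α]

/-- following one out-neighbour after the other -/
theorem exists_orbit {N : α → Finset α} {X : Finset α} {E : α → Prop} {x : α} (hx : x ∈ X)
    (hX : ∀ r ∈ X, ¬ E r → ∃ w ∈ X, w ∈ N r) :
    ∃ O : Finset α, O ⊆ X ∧ x ∈ O ∧
      (Sup N O ∨ ∃ e ∈ O, E e ∧ ∀ r ∈ O, r ≠ e → ∃ w ∈ O, w ∈ N r) := by
  classical
  have hg : ∀ r : α, ∃ w : α, (r ∈ X → ¬ E r → w ∈ X ∧ w ∈ N r) ∧ (E r → w = r) := by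
    intro r
    by_cases hE : E r
    · exact ⟨r, fun _ h => absurd hE h, fun _ => rfl⟩
    · by_cases hr : r ∈ X
      · obtain ⟨w, hw, hw'⟩ := hX r hr hE
        exact ⟨w, fun _ _ => ⟨hw, hw'⟩, fun h => absurd h hE⟩
      · exact ⟨r, fun h => absurd h hr, fun h => absurd h hE⟩
  choose g hg1 hg2 using hg
  have hmem : ∀ i, g^[i] x ∈ X := by
    intro i
    induction i with
    | zero => exact hx
    | succ i ih =>
      rw [Function.iterate_succ_apply']
      by_cases hE : E (g^[i] x)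
      · rw [hg2 _ hE]
        exact ih
      · exact (hg1 _ ih hE).1
  refine ⟨X.filter (fun z => ∃ i, g^[i] x = z), filter_subset _ _,
    mem_filter.2 ⟨hx, 0, rfl⟩, ?_⟩
  by_cases hall : ∃ e ∈ X.filter (fun z => ∃ i, g^[i] x = z), E e
  · right
    obtain ⟨e, he, hE⟩ := hall
    refine ⟨e, he, hE, ?_⟩
    intro r hr hre
    obtain ⟨_, i, hi⟩ := mem_filter.1 he
    obtain ⟨hrX, j, hj⟩ := mem_filter.1 hr
    have hfix : ∀ z, E z → ∀ k, g^[k] z = z := by
      intro z hz k
      exact Function.iterate_fixed (hg2 z hz) k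
    have hrE : ¬ E r := by
      intro hEr
      apply hre
      rcases le_total i j with hij | hij
      · obtain ⟨k, rfl⟩ := Nat.exists_eq_add_of_le hij
        rw [← hj, Nat.add_comm, Function.iterate_add_apply, hi, hfix e hE]
      · obtain ⟨k, rfl⟩ := Nat.exists_eq_add_of_le hij
        rw [← hi, Nat.add_comm, Function.iterate_add_apply, hj, hfix r hEr]
    obtain ⟨h1, h2⟩ := hg1 r hrX hrE
    refine ⟨g r, mem_filter.2 ⟨h1, j + 1, ?_⟩, h2⟩
    rw [Function.iterate_succ_apply', hj]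
  · left
    push Not at hall
    intro r hr
    obtain ⟨hrX, j, hj⟩ := mem_filter.1 hr
    obtain ⟨h1, h2⟩ := hg1 r hrX (hall r hr)
    refine ⟨g r, mem_filter.2 ⟨h1, j + 1, ?_⟩, h2⟩
    rw [Function.iterate_succ_apply', hj]

section

variable {S : Finset α} {N : α → Finset α} {u v : α}

theorem Ctx.merge_aux (h : Ctx S N u v) {x y : α} (hux : x ∈ N u) (hvx : x ∈ N v)
    (huy : y ∈ N u) (hvy : y ∈ N v) {X Y : Finset α} (hXS : X ⊆ S.erase v)
    (hYS : Y ⊆ S.erase v) (hd : Disjoint X Y) (hxX : x ∈ X) (hyY : y ∈ Y) (huY : u ∉ Y)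
    (hX : ∀ r ∈ X, r ≠ u → (∃ w ∈ X, w ≠ u ∧ w ∈ N r) ∨ u ∈ N r ∨ v ∈ N r)
    (hY : ∀ r ∈ Y, (∃ w ∈ Y, w ∈ N r) ∨ (u ∈ N r ∧ v ∈ N r)) : False := by
  obtain ⟨hxS, hxu, hxv⟩ := h.mem_N_u hux
  have hvX : v ∉ X := fun hh => notMem_erase v S (hXS hh)
  have hvY : v ∉ Y := fun hh => notMem_erase v S (hYS hh)
  have hXS' : X ⊆ S := hXS.trans (erase_subset _ _)
  have hYS' : Y ⊆ S := hYS.trans (erase_subset _ _)
  obtain ⟨O, hOX, hxO, hO⟩ := exists_orbit (N := N) (X := X.erase u)
    (E := fun r => u ∈ N r ∨ v ∈ N r) (x := x) (mem_erase.2 ⟨hxu, hxX⟩) (by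
      intro r hr hE
      obtain ⟨hru, hrX⟩ := mem_erase.1 hr
      rcases hX r hrX hru with ⟨w, hw, hwu, hw'⟩ | h2
      · exact ⟨w, mem_erase.2 ⟨hwu, hw⟩, hw'⟩
      · exact absurd h2 hE)
  have hOX' : O ⊆ X := hOX.trans (erase_subset _ _)
  have huO : u ∉ O := fun hh => notMem_erase u X (hOX hh)
  have hvO : v ∉ O := fun hh => hvX (hOX' hh)
  have hOY : Disjoint O Y := disjoint_of_subset_left hOX' hd
  have sYv : Sup N (insert v Y) := by
    intro r hr
    rcases mem_insert.1 hr with rfl | hr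
    · exact ⟨y, mem_insert_of_mem hyY, hvy⟩
    · rcases hY r hr with ⟨w, hw, hw'⟩ | h2
      · exact ⟨w, mem_insert_of_mem hw, hw'⟩
      · exact ⟨v, mem_insert_self _ _, h2.2⟩
  have sYu : Sup N (insert u Y) := by
    intro r hr
    rcases mem_insert.1 hr with rfl | hr
    · exact ⟨y, mem_insert_of_mem hyY, huy⟩
    · rcases hY r hr with ⟨w, hw, hw'⟩ | h2
      · exact ⟨w, mem_insert_of_mem hw, hw'⟩
      · exact ⟨u, mem_insert_self _ _, h2.1⟩
  have d1 : Disjoint (insert u O) (insert v Y) := by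
    rw [disjoint_insert_left, disjoint_insert_right]
    refine ⟨?_, hvO, hOY⟩
    simp only [mem_insert, not_or]
    exact ⟨h.huv, huY⟩
  have d2 : Disjoint (insert u Y) (insert v O) := by
    rw [disjoint_insert_left, disjoint_insert_right]
    refine ⟨?_, hvY, hOY.symm⟩
    simp only [mem_insert, not_or]
    exact ⟨h.huv, huO⟩
  have iO : ∀ r, r ∈ S → insert r O ⊆ S := fun r hr => insert_subset hr (hOX'.trans hXS')
  have iY : ∀ r, r ∈ S → insert r Y ⊆ S := fun r hr => insert_subset hr hYS'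
  rcases hO with hO | ⟨e, heO, hE, hO⟩
  · refine h.two (iO u h.hu) (iY v h.hv) d1 (mem_insert_self _ _) (mem_insert_self _ _) ?_ sYv
    intro r hr
    rcases mem_insert.1 hr with rfl | hr
    · exact ⟨x, mem_insert_of_mem hxO, hux⟩
    · obtain ⟨w, hw, hw'⟩ := hO r hr
      exact ⟨w, mem_insert_of_mem hw, hw'⟩
  · rcases hE with hE | hE
    · refine h.two (iO u h.hu) (iY v h.hv) d1 (mem_insert_self _ _) (mem_insert_self _ _) ?_ sYv
      intro r hr
      rcases mem_insert.1 hr with rfl | hr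
      · exact ⟨x, mem_insert_of_mem hxO, hux⟩
      · by_cases hre : r = e
        · exact ⟨u, mem_insert_self _ _, hre ▸ hE⟩
        · obtain ⟨w, hw, hw'⟩ := hO r hr hre
          exact ⟨w, mem_insert_of_mem hw, hw'⟩
    · refine h.two (iY u h.hu) (iO v h.hv) d2 (mem_insert_self _ _) (mem_insert_self _ _) sYu ?_
      intro r hr
      rcases mem_insert.1 hr with rfl | hr
      · exact ⟨x, mem_insert_of_mem hxO, hvx⟩
      · by_cases hre : r = e
        · exact ⟨v, mem_insert_self _ _, hre ▸ hE⟩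
        · obtain ⟨w, hw, hw'⟩ := hO r hr hre
          exact ⟨w, mem_insert_of_mem hw, hw'⟩

/-- the roots do not have the same out-neighbourhood -/
theorem Ctx.f6 (h : Ctx S N u v) : N u ≠ N v := by
  intro he
  obtain ⟨x, y, hxy, hN⟩ := card_eq_two.1 h.du
  have hux : x ∈ N u := by rw [hN]; simp
  have huy : y ∈ N u := by rw [hN]; simp
  have hvx : x ∈ N v := he ▸ hux
  have hvy : y ∈ N v := he ▸ huy
  obtain ⟨hxS, hxu, hxv⟩ := h.mem_N_u hux
  obtain ⟨hyS, hyu, hyv⟩ := h.mem_N_u huy
  have kx : u ∉ N x := h.k0 hux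
  have ky : u ∉ N y := h.k0 huy
  have kx' : v ∉ N x := h.symm.k0 hvx
  have ky' : v ∉ N y := h.symm.k0 hvy
  set S' := S.erase v with hS'
  set N' : α → Finset α := fun z =>
    if z = x then (N x).erase y else if z = y then (N y).erase x
    else if z = u then S'.erase u
    else if v ∈ N z then
      (if u ∈ N z then insert x (insert y ((N z).erase v)) else insert u ((N z).erase v))
    else N z with hN'
  have e1 : N' x = (N x).erase y := by simp [hN']
  have e2 : N' y = (N y).erase x := by simp [hN', hxy.symm]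
  have e3 : N' u = S'.erase u := by simp [hN', hxu.symm, hyu.symm]
  have e4 : ∀ z, z ≠ x → z ≠ y → z ≠ u → v ∈ N z → u ∈ N z →
      N' z = insert x (insert y ((N z).erase v)) := by
    intro z h1 h2 h3 h4 h5
    simp [hN', h1, h2, h3, h4, h5]
  have e5 : ∀ z, z ≠ x → z ≠ y → z ≠ u → v ∈ N z → u ∉ N z →
      N' z = insert u ((N z).erase v) := by
    intro z h1 h2 h3 h4 h5
    simp [hN', h1, h2, h3, h4, h5]
  have e6 : ∀ z, z ≠ x → z ≠ y → z ≠ u → v ∉ N z → N' z = N z := by
    intro z h1 h2 h3 h4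
    simp [hN', h1, h2, h3, h4]
  have hxS' : x ∈ S' := mem_erase.2 ⟨hxv, hxS⟩
  have hyS' : y ∈ S' := mem_erase.2 ⟨hyv, hyS⟩
  have huS' : u ∈ S' := mem_erase.2 ⟨h.huv, h.hu⟩
  have hsep : Sep S' N' x y := by
    apply h.ih
    · rw [hS', card_erase_of_mem h.hv]
      have : 0 < S.card := card_pos.2 ⟨v, h.hv⟩
      omega
    refine ⟨hxS', hyS', hxy, ?_, ?_, ?_, ?_, ?_, ?_, ?_⟩
    · intro z hz w hw
      obtain ⟨hzv, hzS⟩ := mem_erase.1 hz
      by_cases h1 : z = x
      · subst h1
        rw [e1] at hw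
        exact mem_erase.2 ⟨fun e => kx' (e ▸ mem_of_mem_erase hw),
          h.sub _ hzS (mem_of_mem_erase hw)⟩
      by_cases h2 : z = y
      · subst h2
        rw [e2] at hw
        exact mem_erase.2 ⟨fun e => ky' (e ▸ mem_of_mem_erase hw),
          h.sub _ hzS (mem_of_mem_erase hw)⟩
      by_cases h3 : z = u
      · subst h3
        rw [e3] at hw
        exact mem_of_mem_erase hw
      by_cases h4 : v ∈ N z
      · by_cases h5 : u ∈ N z
        · rw [e4 z h1 h2 h3 h4 h5] at hw
          simp only [mem_insert, mem_erase] at hw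
          rcases hw with rfl | rfl | ⟨hw1, hw2⟩
          · exact hxS'
          · exact hyS'
          · exact mem_erase.2 ⟨hw1, h.sub z hzS hw2⟩
        · rw [e5 z h1 h2 h3 h4 h5] at hw
          simp only [mem_insert, mem_erase] at hw
          rcases hw with rfl | ⟨hw1, hw2⟩
          · exact huS'
          · exact mem_erase.2 ⟨hw1, h.sub z hzS hw2⟩
      · rw [e6 z h1 h2 h3 h4] at hw
        exact mem_erase.2 ⟨fun e => h4 (e ▸ hw), h.sub z hzS hw⟩
    · intro z hz hzz
      obtain ⟨hzv, hzS⟩ := mem_erase.1 hz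
      by_cases h1 : z = x
      · subst h1
        rw [e1] at hzz
        exact h.irr _ hzS (mem_of_mem_erase hzz)
      by_cases h2 : z = y
      · subst h2
        rw [e2] at hzz
        exact h.irr _ hzS (mem_of_mem_erase hzz)
      by_cases h3 : z = u
      · subst h3
        rw [e3] at hzz
        exact (ne_of_mem_erase hzz) rfl
      by_cases h4 : v ∈ N z
      · by_cases h5 : u ∈ N z
        · rw [e4 z h1 h2 h3 h4 h5] at hzz
          simp only [mem_insert, mem_erase] at hzz
          rcases hzz with h6 | h6 | ⟨_, h6⟩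
          · exact h1 h6
          · exact h2 h6
          · exact h.irr z hzS h6
        · rw [e5 z h1 h2 h3 h4 h5] at hzz
          simp only [mem_insert, mem_erase] at hzz
          rcases hzz with h6 | ⟨_, h6⟩
          · exact h3 h6
          · exact h.irr z hzS h6
      · rw [e6 z h1 h2 h3 h4] at hzz
        exact h.irr z hzS hzz
    · rw [e1]; simp
    · rw [e2]; simp
    · rw [e1]
      have := h.d x hxS hxu hxv
      have h2 := pred_card_le_card_erase (s := N x) (a := y)
      omega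
    · rw [e2]
      have := h.d y hyS hyu hyv
      have h2 := pred_card_le_card_erase (s := N y) (a := x)
      omega
    · intro z hz h1 h2
      obtain ⟨hzv, hzS⟩ := mem_erase.1 hz
      by_cases h3 : z = u
      · subst h3
        rw [e3]
        obtain ⟨a, ha, hay⟩ := Finset.exists_mem_notMem_of_card_lt_card
          (s := {y}) (t := N x) (by rw [h.d x hxS hxu hxv]; simp)
        have haS := h.sub x hxS ha
        have hay' : a ≠ y := by simpa using hay
        have hax : a ≠ x := fun e => h.irr x hxS (e ▸ ha)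
        have hau : a ≠ z := fun e => kx (e ▸ ha)
        have hav : a ≠ v := fun e => kx' (e ▸ ha)
        have hsub : ({x, y, a} : Finset α) ⊆ S'.erase z := by
          intro w hw
          simp only [mem_insert, mem_singleton] at hw
          rcases hw with rfl | rfl | rfl
          · exact mem_erase.2 ⟨hxu, hxS'⟩
          · exact mem_erase.2 ⟨hyu, hyS'⟩
          · exact mem_erase.2 ⟨hau, mem_erase.2 ⟨hav, haS⟩⟩
        calc 3 = ({x, y, a} : Finset α).card := by
              rw [card_eq_three.2 ⟨x, y, a, hxy, hax.symm, hay'.symm, rfl⟩]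
          _ ≤ _ := card_le_card hsub
      have hd3 := h.d z hzS h3 hzv
      by_cases h4 : v ∈ N z
      · by_cases h5 : u ∈ N z
        · rw [e4 z h1 h2 h3 h4 h5]
          have hsub : ({x, y, u} : Finset α) ⊆ insert x (insert y ((N z).erase v)) := by
            intro w hw
            simp only [mem_insert, mem_singleton] at hw
            rcases hw with rfl | rfl | rfl
            · simp
            · simp
            · simp [h5, h.huv]
          calc 3 = ({x, y, u} : Finset α).card := by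
                rw [card_eq_three.2 ⟨x, y, u, hxy, hxu, hyu, rfl⟩]
            _ ≤ _ := card_le_card hsub
        · rw [e5 z h1 h2 h3 h4 h5]
          rw [card_insert_of_notMem (fun hh => h5 (mem_of_mem_erase hh)),
            card_erase_of_mem h4]
          omega
      · rw [e6 z h1 h2 h3 h4, hd3]
  obtain ⟨X, Y, hX, hY, hd, hxX, hyY, sX, sY⟩ := hsep
  have P1 : ∀ Z : Finset α, Z ⊆ S' → Sup N' Z → ∀ r ∈ Z, r ≠ u →
      (∃ w ∈ Z, w ≠ u ∧ w ∈ N r) ∨ u ∈ N r ∨ v ∈ N r := by
    intro Z hZ sZ r hr hru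
    obtain ⟨w, hw, hw'⟩ := sZ r hr
    by_cases h1 : r = x
    · subst h1
      rw [e1] at hw'
      have := mem_of_mem_erase hw'
      exact Or.inl ⟨w, hw, fun e => kx (e ▸ this), this⟩
    by_cases h2 : r = y
    · subst h2
      rw [e2] at hw'
      have := mem_of_mem_erase hw'
      exact Or.inl ⟨w, hw, fun e => ky (e ▸ this), this⟩
    by_cases h4 : v ∈ N r
    · exact Or.inr (Or.inr h4)
    · rw [e6 r h1 h2 hru h4] at hw'
      by_cases hwu : w = u
      · exact Or.inr (Or.inl (hwu ▸ hw'))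
      · exact Or.inl ⟨w, hw, hwu, hw'⟩
  have P2 : ∀ Z : Finset α, Z ⊆ S' → Sup N' Z → u ∉ Z → ∀ r ∈ Z,
      (∃ w ∈ Z, w ∈ N r) ∨ (u ∈ N r ∧ v ∈ N r) := by
    intro Z hZ sZ huZ r hr
    have hru : r ≠ u := fun e => huZ (e ▸ hr)
    obtain ⟨w, hw, hw'⟩ := sZ r hr
    by_cases h1 : r = x
    · subst h1
      rw [e1] at hw'
      exact Or.inl ⟨w, hw, mem_of_mem_erase hw'⟩
    by_cases h2 : r = y
    · subst h2
      rw [e2] at hw'
      exact Or.inl ⟨w, hw, mem_of_mem_erase hw'⟩
    by_cases h4 : v ∈ N r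
    · by_cases h5 : u ∈ N r
      · exact Or.inr ⟨h5, h4⟩
      · rw [e5 r h1 h2 hru h4 h5] at hw'
        rcases mem_insert.1 hw' with h6 | h6
        · exact absurd (h6 ▸ hw) huZ
        · exact Or.inl ⟨w, hw, mem_of_mem_erase h6⟩
    · rw [e6 r h1 h2 hru h4] at hw'
      exact Or.inl ⟨w, hw, hw'⟩
  by_cases huY : u ∈ Y
  · have huX : u ∉ X := disjoint_right.1 hd huY
    exact h.merge_aux huy hvy hux hvx hY hX hd.symm hyY hxX huX (P1 Y hY sY) (P2 X hX sX huX)
  · exact h.merge_aux hux hvx huy hvy hX hY hd hxX hyY huY (P1 X hX sX) (P2 Y hY sY huY)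

end

end Pool.Agent.N257.FP
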